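import Mathlib

/-!
# Connectivity in labelled multigraphs

A labelled multigraph is a map `f : E → V × V` (edge labels to end pairs).  For a finite set `J`
of labels, `Conn f J x y` says that `x` and `y` are joined by a walk all of whose edges have
labels in `J`.
-/

namespace Pool.Agent.U389.BN

variable {V E : Type*}

/-- `x` and `y` are the two ends of an edge with label in `J`. -/
def Adj (f : E → V × V) (J : Finset E) (x y : V) : Prop :=
  ∃ e ∈ J, f e = (x, y) ∨ f e = (y, x)

/-- `x` and `y` are joined by a walk with edge labels in `J`. -/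
def Conn (f : E → V × V) (J : Finset E) : V → V → Prop :=
  Relation.ReflTransGen (Adj f J)

theorem Adj.symm {f : E → V × V} {J : Finset E} {x y : V} (h : Adj f J x y) : Adj f J y x := by
  obtain ⟨e, he, h | h⟩ := h
  · exact ⟨e, he, Or.inr h⟩
  · exact ⟨e, he, Or.inl h⟩

theorem Adj.mono {f : E → V × V} {J J' : Finset E} (hJ : J ⊆ J') {x y : V} (h : Adj f J x y) :
    Adj f J' x y := by
  obtain ⟨e, he, h⟩ := h
  exact ⟨e, hJ he, h⟩

theorem Conn.refl {f : E → V × V} {J : Finset E} (x : V) : Conn f J x x :=
  Relation.ReflTransGen.refl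

theorem Conn.symm {f : E → V × V} {J : Finset E} {x y : V} (h : Conn f J x y) :
    Conn f J y x := by
  induction h with
  | refl => exact Relation.ReflTransGen.refl
  | tail _ hbc ih => exact Relation.ReflTransGen.head hbc.symm ih

theorem Conn.trans {f : E → V × V} {J : Finset E} {x y z : V} (h : Conn f J x y)
    (h' : Conn f J y z) : Conn f J x z :=
  Relation.ReflTransGen.trans h h'

theorem Conn.mono {f : E → V × V} {J J' : Finset E} (hJ : J ⊆ J') {x y : V}
    (h : Conn f J x y) : Conn f J' x y := by
  induction h with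
  | refl => exact Relation.ReflTransGen.refl
  | tail _ hbc ih => exact Relation.ReflTransGen.tail ih (hbc.mono hJ)

theorem Conn.edge {f : E → V × V} {J : Finset E} {e : E} (he : e ∈ J) :
    Conn f J (f e).1 (f e).2 :=
  Relation.ReflTransGen.single ⟨e, he, Or.inl rfl⟩

/-- Induction principle for invariants: a predicate preserved by the edges of `J`. -/
theorem Conn.invariant {f : E → V × V} {J : Finset E} (p : V → Prop)
    (hp : ∀ e ∈ J, (p (f e).1 ↔ p (f e).2)) {x y : V} (h : Conn f J x y) : p x ↔ p y := by
  induction h with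
  | refl => exact Iff.rfl
  | tail _ hbc ih =>
    obtain ⟨e, he, h | h⟩ := hbc
    · have := hp e he
      rw [h] at this
      exact ih.trans this
    · have := hp e he
      rw [h] at this
      exact ih.trans this.symm

/-- General invariance for a relation (an equivalence) containing all edges. -/
theorem Conn.rel {f : E → V × V} {J : Finset E} (r : V → V → Prop)
    (hrefl : ∀ x, r x x) (hsymm : ∀ x y, r x y → r y x) (htrans : ∀ x y z, r x y → r y z → r x z)
    (hp : ∀ e ∈ J, r (f e).1 (f e).2) {x y : V} (h : Conn f J x y) : r x y := by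
  induction h with
  | refl => exact hrefl _
  | tail _ hbc ih =>
    obtain ⟨e, he, h | h⟩ := hbc
    · have := hp e he
      rw [h] at this
      exact htrans _ _ _ ih this
    · have := hp e he
      rw [h] at this
      exact htrans _ _ _ ih (hsymm _ _ this)

/-- If every edge of `J` reachable from `x` lies in `J'`, then what is joined to `x` in `J` is
joined to `x` in `J'`. -/
theorem Conn.restrict {f : E → V × V} {J J' : Finset E} {x y : V} (h : Conn f J x y)
    (hJ : ∀ e ∈ J, Conn f J x (f e).1 → e ∈ J') : Conn f J' x y := by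
  have key : Conn f J x y ∧ Conn f J' x y := by
    induction h with
    | refl => exact ⟨Conn.refl _, Conn.refl _⟩
    | @tail b c hab hbc ih =>
      have hbc' := hbc
      obtain ⟨e, he, h | h⟩ := hbc
      · have h1 : Conn f J x (f e).1 := by rw [h]; exact ih.1
        exact ⟨ih.1.trans (Relation.ReflTransGen.single hbc'),
          ih.2.trans (Relation.ReflTransGen.single ⟨e, hJ e he h1, Or.inl h⟩)⟩
      · have h1 : Conn f J x (f e).1 := by
          rw [h]
          exact ih.1.trans (Relation.ReflTransGen.single hbc')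
        exact ⟨ih.1.trans (Relation.ReflTransGen.single hbc'),
          ih.2.trans (Relation.ReflTransGen.single ⟨e, hJ e he h1, Or.inr h⟩)⟩
  exact key.2

/-- The relation obtained from `C` by gluing `u` and `v`. -/
def Glue (C : V → V → Prop) (u v x y : V) : Prop :=
  C x y ∨ (C x u ∧ C v y) ∨ (C x v ∧ C u y)

theorem Glue.refl' {f : E → V × V} {J : Finset E} {u v : V} (x : V) :
    Glue (Conn f J) u v x x := Or.inl (Conn.refl x)

theorem Glue.symm' {f : E → V × V} {J : Finset E} {u v x y : V}
    (h : Glue (Conn f J) u v x y) : Glue (Conn f J) u v y x := by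
  rcases h with h | ⟨h1, h2⟩ | ⟨h1, h2⟩
  · exact Or.inl h.symm
  · exact Or.inr (Or.inr ⟨h2.symm, h1.symm⟩)
  · exact Or.inr (Or.inl ⟨h2.symm, h1.symm⟩)

theorem Glue.trans' {f : E → V × V} {J : Finset E} {u v x y z : V}
    (h : Glue (Conn f J) u v x y) (h' : Glue (Conn f J) u v y z) :
    Glue (Conn f J) u v x z := by
  rcases h with h | ⟨h1, h2⟩ | ⟨h1, h2⟩ <;> rcases h' with h' | ⟨h1', h2'⟩ | ⟨h1', h2'⟩
  · exact Or.inl (h.trans h')
  · exact Or.inr (Or.inl ⟨h.trans h1', h2'⟩)
  · exact Or.inr (Or.inr ⟨h.trans h1', h2'⟩)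
  · exact Or.inr (Or.inl ⟨h1, h2.trans h'⟩)
  · exact Or.inl (h1.trans ((h2.trans h1').symm.trans h2'))
  · exact Or.inl (h1.trans h2')
  · exact Or.inr (Or.inr ⟨h1, h2.trans h'⟩)
  · exact Or.inl (h1.trans h2')
  · exact Or.inl (h1.trans ((h2.trans h1').symm.trans h2'))

/-- Adding one edge glues its two ends. -/
theorem conn_insert [DecidableEq E] {f : E → V × V} {J : Finset E} {r : E} {x y : V}
    (h : Conn f (insert r J) x y) : Glue (Conn f J) (f r).1 (f r).2 x y := by
  refine Conn.rel (Glue (Conn f J) (f r).1 (f r).2) (fun x => Glue.refl' x)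
    (fun x y h => h.symm') (fun x y z h h' => h.trans' h') ?_ h
  intro e he
  rcases Finset.mem_insert.mp he with rfl | he
  · exact Or.inr (Or.inl ⟨Conn.refl _, Conn.refl _⟩)
  · exact Or.inl (Conn.edge he)

theorem conn_erase [DecidableEq E] {f : E → V × V} {J : Finset E} (r : E) {x y : V}
    (h : Conn f J x y) : Glue (Conn f (J.erase r)) (f r).1 (f r).2 x y := by
  refine conn_insert (h.mono ?_)
  intro e he
  by_cases h : e = r
  · simp [h]
  · simp [h, he]

/-- Identification of `v` with `u`. -/
def idt [DecidableEq V] (u v : V) : V → V := Function.update id v u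

theorem idt_v [DecidableEq V] (u v : V) : idt u v v = u := by simp [idt]

theorem idt_of_ne [DecidableEq V] {u v x : V} (h : x ≠ v) : idt u v x = x := by
  simp [idt, Function.update_of_ne h]

theorem idt_u [DecidableEq V] (u v : V) : idt u v u = u := by
  by_cases h : u = v
  · subst h; exact idt_v u u
  · exact idt_of_ne h

/-- Push a labelled graph along a vertex map. -/
def mp {V' : Type*} (g : V → V') (f : E → V × V) : E → V' × V' :=
  fun e => (g (f e).1, g (f e).2)

theorem mp_fst {V' : Type*} (g : V → V') (f : E → V × V) (e : E) :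
    (mp g f e).1 = g (f e).1 := rfl

theorem mp_snd {V' : Type*} (g : V → V') (f : E → V × V) (e : E) :
    (mp g f e).2 = g (f e).2 := rfl

theorem Conn.map {V' : Type*} (g : V → V') {f : E → V × V} {J : Finset E} {x y : V}
    (h : Conn f J x y) : Conn (mp g f) J (g x) (g y) := by
  refine Conn.rel (f := f) (J := J) (fun x y => Conn (mp g f) J (g x) (g y))
    (fun x => Conn.refl _) (fun x y h => h.symm) (fun x y z h h' => h.trans h') ?_ h
  intro e he
  exact Conn.edge (f := mp g f) he

/-- Connectivity in a pushed-forward graph, read upstairs. -/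
theorem Conn.of_map {V' : Type*} (g : V → V') {f : E → V × V} {J : Finset E}
    (r : V → V → Prop) (hsymm : ∀ x y, r x y → r y x)
    (htrans : ∀ x y z, r x y → r y z → r x z)
    (hp : ∀ e ∈ J, r (f e).1 (f e).2) (hker : ∀ x y, g x = g y → r x y) {x y : V}
    (h : Conn (mp g f) J (g x) (g y)) : r x y := by
  have key : ∀ y', Conn (mp g f) J (g x) y' → ∀ y, g y = y' → r x y := by
    intro y' h
    induction h with
    | refl => exact fun y hy => hker x y hy.symm
    | @tail b c hab hbc ih =>
      intro y hy
      obtain ⟨e, he, h | h⟩ := hbc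
      · have h1 : g (f e).1 = b := by
          have := congrArg Prod.fst h; simpa [mp] using this
        have h2 : g (f e).2 = c := by
          have := congrArg Prod.snd h; simpa [mp] using this
        exact htrans _ _ _ (ih _ h1) (htrans _ _ _ (hp e he) (hker _ _ (h2.trans hy.symm)))
      · have h1 : g (f e).1 = c := by
          have := congrArg Prod.fst h; simpa [mp] using this
        have h2 : g (f e).2 = b := by
          have := congrArg Prod.snd h; simpa [mp] using this
        exact htrans _ _ _ (ih _ h2) (htrans _ _ _ (hsymm _ _ (hp e he))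
          (hker _ _ (h1.trans hy.symm)))
  exact key _ h y rfl

/-- Connectivity after identifying `v` with `u`. -/
theorem conn_idt [DecidableEq V] {f : E → V × V} {J : Finset E} {u v x y : V} :
    Conn (mp (idt u v) f) J (idt u v x) (idt u v y) ↔ Glue (Conn f J) u v x y := by
  constructor
  · intro h
    refine Conn.of_map (idt u v) (Glue (Conn f J) u v) (fun x y h => h.symm')
      (fun x y z h h' => h.trans' h') (fun e he => Or.inl (Conn.edge he)) ?_ h
    intro x y hxy
    by_cases hx : x = v <;> by_cases hy : y = v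
    · subst hx; subst hy; exact Glue.refl' _
    · subst hx
      rw [idt_v, idt_of_ne hy] at hxy
      subst hxy
      exact Or.inr (Or.inr ⟨Conn.refl _, Conn.refl _⟩)
    · subst hy
      rw [idt_v, idt_of_ne hx] at hxy
      subst hxy
      exact Or.inr (Or.inl ⟨Conn.refl _, Conn.refl _⟩)
    · rw [idt_of_ne hx, idt_of_ne hy] at hxy
      subst hxy
      exact Glue.refl' _
  · intro h
    have huv : idt u v u = idt u v v := by rw [idt_u, idt_v]
    rcases h with h | ⟨h1, h2⟩ | ⟨h1, h2⟩
    · exact h.map _
    · have h1 := h1.map (idt u v)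
      rw [huv] at h1
      exact h1.trans (h2.map _)
    · have h1 := h1.map (idt u v)
      rw [← huv] at h1
      exact h1.trans (h2.map _)

/-- Connectivity after identifying `v` with `u`, for vertices other than `v`. -/
theorem conn_idt' [DecidableEq V] {f : E → V × V} {J : Finset E} {u v x y : V} (hx : x ≠ v)
    (hy : y ≠ v) :
    Conn (mp (idt u v) f) J x y ↔ Glue (Conn f J) u v x y := by
  rw [← conn_idt, idt_of_ne hx, idt_of_ne hy]

/-- Connectivity in a pushed-forward graph when the map is injective on the relevant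
vertices. -/
theorem conn_mp_inj {V' : Type*} (g : V → V') {f : E → V × V} {J : Finset E} {W : Set V}
    (hW : ∀ e ∈ J, (f e).1 ∈ W ∧ (f e).2 ∈ W) (hg : Set.InjOn g W) {x y : V} (hx : x ∈ W)
    (hy : y ∈ W) : Conn (mp g f) J (g x) (g y) ↔ Conn f J x y := by
  constructor
  · intro h
    have := Conn.of_map g (f := f) (J := J) (x := x) (y := y)
      (fun x y => ∃ x' y', x' ∈ W ∧ y' ∈ W ∧ g x' = g x ∧ g y' = g y ∧ Conn f J x' y' ∨ g x = g y)
      ?_ ?_ ?_ ?_ h
    · obtain ⟨x', y', ⟨hx', hy', h1, h2, h3⟩ | h3⟩ := this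
      · have := hg hx' hx h1
        subst this
        have := hg hy' hy h2
        subst this
        exact h3
      · have := hg hx hy h3
        subst this
        exact Conn.refl _
    · rintro x y ⟨x', y', ⟨hx', hy', h1, h2, h3⟩ | h3⟩
      · exact ⟨y', x', Or.inl ⟨hy', hx', h2, h1, h3.symm⟩⟩
      · exact ⟨y', x', Or.inr h3.symm⟩
    · rintro x y z ⟨x', y', ⟨hx', hy', h1, h2, h3⟩ | h3⟩ ⟨y'', z', ⟨hy'', hz', h1', h2', h3'⟩ | h3'⟩
      · have := hg hy' hy'' (h2.trans h1'.symm)
        subst this
        exact ⟨x', z', Or.inl ⟨hx', hz', h1, h2', h3.trans h3'⟩⟩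
      · exact ⟨x', y', Or.inl ⟨hx', hy', h1, h2.trans h3', h3⟩⟩
      · exact ⟨y'', z', Or.inl ⟨hy'', hz', h1'.trans h3.symm, h2', h3'⟩⟩
      · exact ⟨x', y', Or.inr (h3.trans h3')⟩
    · intro e he
      exact ⟨(f e).1, (f e).2, Or.inl ⟨(hW e he).1, (hW e he).2, rfl, rfl, Conn.edge he⟩⟩
    · intro x y hxy
      exact ⟨x, y, Or.inr hxy⟩
  · exact fun h => h.map g

theorem Conn.congr {f f' : E → V × V} {J : Finset E} (hf : ∀ e ∈ J, f e = f' e) {x y : V}
    (h : Conn f J x y) : Conn f' J x y := by
  refine Conn.rel (f := f) (J := J) (Conn f' J) (fun x => Conn.refl _)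
    (fun x y h => h.symm) (fun x y z h h' => h.trans h') ?_ h
  intro e he
  rw [hf e he]
  exact Conn.edge he

/-- The far end of a connection lies in the vertex set. -/
theorem Conn.mem_of_ne {f : E → V × V} {J : Finset E} {W : Set V}
    (hW : ∀ e ∈ J, (f e).1 ∈ W ∧ (f e).2 ∈ W) {x y : V} (h : Conn f J x y) (hx : x ∈ W) :
    y ∈ W :=
  (Conn.invariant (fun z => z ∈ W) (fun e he => ⟨fun _ => (hW e he).2, fun _ => (hW e he).1⟩)
    h).mp hx

end Pool.Agent.U389.BN
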