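import Pool.Agent.U389.BN.Conn

/-!
# The cycle space of a labelled multigraph
-/

namespace Pool.Agent.U389.BN

open scoped Classical

variable {V E : Type*} [Fintype E]

/-- The boundary of the edge vector `c`, paired with the vertex function `χ`. -/
def bd (f : E → V × V) (c : E → ZMod 2) (χ : V → ZMod 2) : ZMod 2 :=
  ∑ e, c e * (χ (f e).1 + χ (f e).2)

theorem bd_add (f : E → V × V) (c c' : E → ZMod 2) (χ : V → ZMod 2) :
    bd f (c + c') χ = bd f c χ + bd f c' χ := by
  simp [bd, add_mul, Finset.sum_add_distrib]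

theorem bd_zero (f : E → V × V) (χ : V → ZMod 2) : bd f 0 χ = 0 := by
  simp [bd]

theorem bd_smul (f : E → V × V) (t : ZMod 2) (c : E → ZMod 2) (χ : V → ZMod 2) :
    bd f (t • c) χ = t * bd f c χ := by
  simp [bd, Finset.mul_sum, mul_assoc]

theorem bd_add_right (f : E → V × V) (c : E → ZMod 2) (χ χ' : V → ZMod 2) :
    bd f c (χ + χ') = bd f c χ + bd f c χ' := by
  simp only [bd, Pi.add_apply, ← Finset.sum_add_distrib]
  refine Finset.sum_congr rfl fun e _ => ?_
  ring

theorem bd_smul_right (f : E → V × V) (c : E → ZMod 2) (t : ZMod 2) (χ : V → ZMod 2) :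
    bd f c (t • χ) = t * bd f c χ := by
  simp only [bd, Pi.smul_apply, smul_eq_mul, Finset.mul_sum]
  refine Finset.sum_congr rfl fun e _ => ?_
  ring

/-- The cycle space of the subgraph with edge labels `S`. -/
def Z (f : E → V × V) (S : Finset E) : Submodule (ZMod 2) (E → ZMod 2) where
  carrier := {c | (∀ e, e ∉ S → c e = 0) ∧ ∀ χ, bd f c χ = 0}
  add_mem' := by
    rintro a b ⟨ha, ha'⟩ ⟨hb, hb'⟩
    refine ⟨fun e he => by simp [ha e he, hb e he], fun χ => by rw [bd_add, ha', hb', add_zero]⟩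
  zero_mem' := ⟨fun e _ => rfl, fun χ => bd_zero f χ⟩
  smul_mem' := by
    rintro t a ⟨ha, ha'⟩
    refine ⟨fun e he => by simp [ha e he], fun χ => by rw [bd_smul, ha', mul_zero]⟩

theorem mem_Z {f : E → V × V} {S : Finset E} {c : E → ZMod 2} :
    c ∈ Z f S ↔ (∀ e, e ∉ S → c e = 0) ∧ ∀ χ, bd f c χ = 0 := Iff.rfl

/-- Existence of `{x,y}`-joins. -/
theorem exists_tjoin {f : E → V × V} {J : Finset E} {x y : V} (h : Conn f J x y) :
    ∃ c : E → ZMod 2, (∀ e, e ∉ J → c e = 0) ∧ ∀ χ, bd f c χ = χ x + χ y := by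
  refine Conn.rel (f := f) (J := J) (fun x y => ∃ c : E → ZMod 2, (∀ e, e ∉ J → c e = 0) ∧
    ∀ χ, bd f c χ = χ x + χ y) ?_ ?_ ?_ ?_ h
  · intro x
    refine ⟨0, fun e _ => rfl, fun χ => ?_⟩
    rw [bd_zero, CharTwo.add_self_eq_zero]
  · rintro x y ⟨c, h1, h2⟩
    exact ⟨c, h1, fun χ => by rw [h2, add_comm]⟩
  · rintro x y z ⟨c, h1, h2⟩ ⟨c', h1', h2'⟩
    refine ⟨c + c', fun e he => by simp [h1 e he, h1' e he], fun χ => ?_⟩
    rw [bd_add, h2, h2']
    have : χ y + χ y = 0 := CharTwo.add_self_eq_zero _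
    linear_combination this
  · intro e he
    refine ⟨Pi.single e 1, fun e' he' => ?_, fun χ => ?_⟩
    · have : e' ≠ e := by rintro rfl; exact he' he
      simp [this]
    · unfold bd
      rw [Finset.sum_eq_single e]
      · simp
      · intro b _ hb
        simp [hb]
      · simp

/-- The two ends of the boundary of an edge vector are connected. -/
theorem conn_of_tjoin {f : E → V × V} {S : Finset E} {x y : V} {c : E → ZMod 2}
    (hc : ∀ e, e ∉ S → c e = 0) (h : ∀ χ, bd f c χ = χ x + χ y) : Conn f S x y := by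
  by_contra hxy
  have h1 := h (fun z => if Conn f S x z then 1 else 0)
  rw [if_pos (Conn.refl x), if_neg hxy, add_zero] at h1
  have h2 : bd f c (fun z => if Conn f S x z then 1 else 0) = 0 := by
    unfold bd
    refine Finset.sum_eq_zero fun e _ => ?_
    by_cases he : e ∈ S
    · have h3 : Conn f S x (f e).1 ↔ Conn f S x (f e).2 :=
        ⟨fun h => h.trans (Conn.edge he), fun h => h.trans (Conn.edge he).symm⟩
      by_cases h4 : Conn f S x (f e).1
      · have h5 := h3.mp h4
        simp only [h4, h5, if_true]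
        have : (1 : ZMod 2) + 1 = 0 := CharTwo.add_self_eq_zero _
        rw [this, mul_zero]
      · have h5 : ¬ Conn f S x (f e).2 := fun h => h4 (h3.mpr h)
        simp only [h4, h5, if_false]
        simp
    · simp [hc e he]
  rw [h2] at h1
  exact zero_ne_one h1

theorem bd_mp {V' : Type*} (g : V → V') (f : E → V × V) (c : E → ZMod 2) (χ : V' → ZMod 2) :
    bd (mp g f) c χ = bd f c (χ ∘ g) := rfl

theorem Z_le_mp {V' : Type*} (g : V → V') (f : E → V × V) (S : Finset E) :
    Z f S ≤ Z (mp g f) S := by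
  intro c hc
  exact ⟨hc.1, fun χ => hc.2 (χ ∘ g)⟩

/-- Structure of vectors that are cycles after identifying `v` with `u`. -/
theorem bd_of_mem_idt {f : E → V × V} {S : Finset E} {u v : V} (huv : u ≠ v)
    {c : E → ZMod 2} (hc : c ∈ Z (mp (idt u v) f) S) :
    ∃ t : ZMod 2, ∀ χ, bd f c χ = t * (χ u + χ v) := by
  refine ⟨bd f c (Pi.single v 1), fun χ => ?_⟩
  have h1 : χ = (χ + (χ u + χ v) • Pi.single v (1 : ZMod 2)) + (χ u + χ v) • Pi.single v 1 := by
    have h2 : (χ u + χ v) • (Pi.single v (1 : ZMod 2) : V → ZMod 2) + (χ u + χ v) • Pi.single v 1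
        = 0 := by
      funext z
      simp only [Pi.add_apply, Pi.zero_apply]
      exact CharTwo.add_self_eq_zero _
    rw [add_assoc, h2, add_zero]
  have h3 : bd f c (χ + (χ u + χ v) • Pi.single v (1 : ZMod 2)) = 0 := by
    have h4 : (χ + (χ u + χ v) • Pi.single v (1 : ZMod 2)) =
        (χ + (χ u + χ v) • Pi.single v (1 : ZMod 2)) ∘ (idt u v) := by
      funext z
      by_cases hz : z = v
      · subst hz
        simp only [Function.comp, idt_v, Pi.add_apply, Pi.smul_apply, Pi.single_eq_same,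
          smul_eq_mul, mul_one]
        rw [Pi.single_eq_of_ne huv]
        have : χ z + χ z = 0 := CharTwo.add_self_eq_zero _
        linear_combination this
      · simp only [Function.comp, idt_of_ne hz]
    rw [h4, ← bd_mp]
    exact hc.2 _
  calc bd f c χ = bd f c ((χ + (χ u + χ v) • Pi.single v (1 : ZMod 2)) +
        (χ u + χ v) • Pi.single v 1) := by rw [← h1]
    _ = _ := by rw [bd_add_right, h3, zero_add, bd_smul_right, mul_comm]

theorem Z_idt_nonclosing {f : E → V × V} {S : Finset E} {u v : V} (huv : u ≠ v)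
    (hn : ¬ Conn f S u v) : Z (mp (idt u v) f) S = Z f S := by
  refine le_antisymm ?_ (Z_le_mp _ f S)
  intro c hc
  obtain ⟨t, ht⟩ := bd_of_mem_idt huv hc
  refine ⟨hc.1, fun χ => ?_⟩
  have ht01 : t = 0 ∨ t = 1 := by
    fin_cases t
    · exact Or.inl rfl
    · exact Or.inr rfl
  rcases ht01 with rfl | rfl
  · rw [ht, zero_mul]
  · exfalso
    exact hn (conn_of_tjoin hc.1 (fun χ => by rw [ht, one_mul]))

theorem Z_idt_closing {f : E → V × V} {S : Finset E} {u v : V} (huv : u ≠ v)
    {X : E → ZMod 2} (hX : ∀ e, e ∉ S → X e = 0) (hX' : ∀ χ, bd f X χ = χ u + χ v) :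
    Z (mp (idt u v) f) S = Z f S ⊔ Submodule.span (ZMod 2) {X} := by
  refine le_antisymm ?_ (sup_le (Z_le_mp _ f S) ?_)
  · intro c hc
    obtain ⟨t, ht⟩ := bd_of_mem_idt huv hc
    rw [Submodule.mem_sup]
    refine ⟨c + t • X, ?_, t • X, Submodule.smul_mem _ _ (Submodule.mem_span_singleton_self X), ?_⟩
    · refine ⟨fun e he => by simp [hc.1 e he, hX e he], fun χ => ?_⟩
      rw [bd_add, bd_smul, ht, hX']
      exact CharTwo.add_self_eq_zero _
    · rw [add_assoc]
      have : t • X + t • X = 0 := by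
        funext z
        simp only [Pi.add_apply, Pi.zero_apply]
        exact CharTwo.add_self_eq_zero _
      rw [this, add_zero]
  · rw [Submodule.span_le, Set.singleton_subset_iff]
    refine ⟨hX, fun χ => ?_⟩
    rw [bd_mp, hX']
    simp only [Function.comp, idt_u, idt_v]
    exact CharTwo.add_self_eq_zero _

theorem Z_mp_inj {V' : Type*} (g : V → V') {f : E → V × V} {S : Finset E} {W : Set V}
    (hW : ∀ e ∈ S, (f e).1 ∈ W ∧ (f e).2 ∈ W) (hg : Set.InjOn g W) :
    Z (mp g f) S = Z f S := by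
  refine le_antisymm ?_ (Z_le_mp _ f S)
  intro c hc
  refine ⟨hc.1, fun χ => ?_⟩
  have h1 := hc.2 (fun y => if h : ∃ x ∈ W, g x = y then χ h.choose else 0)
  refine Eq.trans ?_ h1
  unfold bd
  refine Finset.sum_congr rfl fun e _ => ?_
  by_cases he : e ∈ S
  · have key : ∀ x ∈ W, (if h : ∃ x' ∈ W, g x' = g x then χ h.choose else 0) = χ x := by
      intro x hx
      have h : ∃ x' ∈ W, g x' = g x := ⟨x, hx, rfl⟩
      rw [dif_pos h]
      congr 1
      exact hg h.choose_spec.1 hx h.choose_spec.2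
    rw [mp_fst, mp_snd]
    dsimp only
    rw [key _ (hW e he).1, key _ (hW e he).2]
  · simp [hc.1 e he]

theorem Z_congr {f f' : E → V × V} {S : Finset E} (hf : ∀ e ∈ S, f e = f' e) :
    Z f S = Z f' S := by
  have key : ∀ f f' : E → V × V, (∀ e ∈ S, f e = f' e) → Z f S ≤ Z f' S := by
    intro f f' hf c hc
    refine ⟨hc.1, fun χ => ?_⟩
    refine Eq.trans ?_ (hc.2 χ)
    unfold bd
    refine Finset.sum_congr rfl fun e _ => ?_
    by_cases he : e ∈ S
    · rw [hf e he]
    · simp [hc.1 e he]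
  exact le_antisymm (key f f' hf) (key f' f fun e he => (hf e he).symm)

theorem Z_mono {f : E → V × V} {S S' : Finset E} (h : S ⊆ S') : Z f S ≤ Z f S' := by
  intro c hc
  exact ⟨fun e he => hc.1 e (fun h' => he (h h')), hc.2⟩

theorem Z_union {f : E → V × V} {S1 S2 : Finset E} {W1 W2 : Set V}
    (hW1 : ∀ e ∈ S1, (f e).1 ∈ W1 ∧ (f e).2 ∈ W1) (hW2 : ∀ e ∈ S2, (f e).1 ∈ W2 ∧ (f e).2 ∈ W2)
    (hd : Disjoint W1 W2) : Z f (S1 ∪ S2) = Z f S1 ⊔ Z f S2 := by
  refine le_antisymm ?_ (sup_le (Z_mono Finset.subset_union_left)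
    (Z_mono Finset.subset_union_right))
  have hS : Disjoint S1 S2 := by
    rw [Finset.disjoint_left]
    intro e h1 h2
    exact Set.disjoint_left.mp hd (hW1 e h1).1 (hW2 e h2).1
  intro c hc
  rw [Submodule.mem_sup]
  refine ⟨fun e => if e ∈ S1 then c e else 0, ?_, fun e => if e ∈ S2 then c e else 0, ?_, ?_⟩
  · refine ⟨fun e he => by simp [he], fun χ => ?_⟩
    have h1 := hc.2 (fun z => if z ∈ W1 then χ z else 0)
    refine Eq.trans ?_ h1
    unfold bd
    refine Finset.sum_congr rfl fun e _ => ?_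
    by_cases he : e ∈ S1
    · simp [he, hW1 e he]
    · by_cases he2 : e ∈ S2
      · have h3 : (f e).1 ∉ W1 := fun h => Set.disjoint_left.mp hd h (hW2 e he2).1
        have h4 : (f e).2 ∉ W1 := fun h => Set.disjoint_left.mp hd h (hW2 e he2).2
        simp [he, h3, h4]
      · have : c e = 0 := hc.1 e (by simp [he, he2])
        simp [this]
  · refine ⟨fun e he => by simp [he], fun χ => ?_⟩
    have h1 := hc.2 (fun z => if z ∈ W2 then χ z else 0)
    refine Eq.trans ?_ h1
    unfold bd
    refine Finset.sum_congr rfl fun e _ => ?_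
    by_cases he : e ∈ S2
    · simp [he, hW2 e he]
    · by_cases he2 : e ∈ S1
      · have h3 : (f e).1 ∉ W2 := fun h => Set.disjoint_left.mp hd (hW1 e he2).1 h
        have h4 : (f e).2 ∉ W2 := fun h => Set.disjoint_left.mp hd (hW1 e he2).2 h
        simp [he, h3, h4]
      · have : c e = 0 := hc.1 e (by simp [he, he2])
        simp [this]
  · funext e
    simp only [Pi.add_apply]
    by_cases he1 : e ∈ S1
    · have he2 : e ∉ S2 := Finset.disjoint_left.mp hS he1
      simp [he1, he2]
    · by_cases he2 : e ∈ S2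
      · simp [he1, he2]
      · simp [he1, he2, hc.1 e (by simp [he1, he2])]

end Pool.Agent.U389.BN
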