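import Pool.Agent.U389.BN.Conn

/-!
# Forests, separating edges and the cover lemma
-/

namespace Pool.Agent.U389.BN

open scoped Classical

variable {V E : Type*}

/-- `F` contains no cycle. -/
def Acyc (f : E → V × V) (F : Finset E) : Prop :=
  ∀ r ∈ F, ¬ Conn f (F.erase r) (f r).1 (f r).2

theorem Acyc.subset {f : E → V × V} {F F' : Finset E} (h : Acyc f F) (hF : F' ⊆ F) :
    Acyc f F' := by
  intro r hr hc
  exact h r (hF hr) (hc.mono (Finset.erase_subset_erase r hF))

/-- The edges of `F` separating `u` from `v` (for a forest: the edges of the `u`-`v` path). -/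
noncomputable def sepE (f : E → V × V) (F : Finset E) (u v : V) : Finset E :=
  F.filter (fun r => ¬ Conn f (F.erase r) u v)

theorem mem_sepE {f : E → V × V} {F : Finset E} {u v : V} {r : E} :
    r ∈ sepE f F u v ↔ r ∈ F ∧ ¬ Conn f (F.erase r) u v := by
  simp [sepE]

theorem sepE_subset {f : E → V × V} {F : Finset E} {u v : V} : sepE f F u v ⊆ F :=
  Finset.filter_subset _ _

/-- A connected pair is connected through a set of edges minimal under inclusion. -/
theorem exists_minimal_conn {f : E → V × V} {F : Finset E} {u v : V} (h : Conn f F u v) :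
    ∃ J ⊆ F, Conn f J u v ∧ ∀ r ∈ J, ¬ Conn f (J.erase r) u v := by
  induction F using Finset.strongInduction with
  | H F ih =>
    by_cases hF : ∃ r ∈ F, Conn f (F.erase r) u v
    · obtain ⟨r, hr, hc⟩ := hF
      obtain ⟨J, hJ, h1, h2⟩ := ih (F.erase r) (Finset.erase_ssubset hr) hc
      exact ⟨J, hJ.trans (Finset.erase_subset _ _), h1, h2⟩
    · push Not at hF
      exact ⟨F, subset_rfl, h, hF⟩

theorem conn_sepE {f : E → V × V} {F : Finset E} (hF : Acyc f F) {u v : V}
    (h : Conn f F u v) : Conn f (sepE f F u v) u v := by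
  obtain ⟨J, hJ, h1, h2⟩ := exists_minimal_conn h
  refine h1.mono ?_
  intro r hr
  rw [mem_sepE]
  refine ⟨hJ hr, fun hc => hF r (hJ hr) ?_⟩
  have hsub : J.erase r ⊆ F.erase r := Finset.erase_subset_erase r hJ
  rcases conn_erase r h1 with h3 | ⟨h3, h4⟩ | ⟨h3, h4⟩
  · exact absurd h3 (h2 r hr)
  · exact (h3.mono hsub).symm.trans (hc.trans (h4.mono hsub).symm)
  · exact (h4.mono hsub).trans (hc.symm.trans (h3.mono hsub))

section Cover

variable {f : E → V × V} {F : Finset E} {u v : V}

/-- the side of `u` with respect to `r`. -/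
def sideU (f : E → V × V) (F : Finset E) (u : V) (r : E) : Set V :=
  {x | Conn f (F.erase r) u x}

/-- An edge separating `u` from `v` has exactly one end on the side of `u`. -/
theorem ends_of_sep (huv : Conn f F u v) {r : E} (hr : r ∈ sepE f F u v) :
    (Conn f (F.erase r) u (f r).1 ∧ Conn f (F.erase r) v (f r).2) ∨
    (Conn f (F.erase r) u (f r).2 ∧ Conn f (F.erase r) v (f r).1) := by
  rw [mem_sepE] at hr
  rcases conn_erase r huv with h3 | ⟨h3, h4⟩ | ⟨h3, h4⟩
  · exact absurd h3 hr.2
  · exact Or.inl ⟨h3, h4.symm⟩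
  · exact Or.inr ⟨h3, h4.symm⟩

/-- Everything connected to `u` in `F` is on the side of `u` or on the side of `v`. -/
theorem split_of_sep (huv : Conn f F u v) {r : E} (hr : r ∈ sepE f F u v) {x : V}
    (hx : Conn f F u x) : Conn f (F.erase r) u x ∨ Conn f (F.erase r) v x := by
  rcases conn_erase r hx with h3 | ⟨h3, h4⟩ | ⟨h3, h4⟩
  · exact Or.inl h3
  · rcases ends_of_sep huv hr with ⟨h5, h6⟩ | ⟨h5, h6⟩
    · exact Or.inr (h6.trans h4)
    · exact Or.inl (h5.trans h4)
  · rcases ends_of_sep huv hr with ⟨h5, h6⟩ | ⟨h5, h6⟩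
    · exact Or.inl (h5.trans h4)
    · exact Or.inr (h6.trans h4)

/-- If an edge `r'` of `F` other than `r` has its first end connected to `x` in `F - r` then so is
its second end. -/
theorem both_ends {r r' : E} (hr' : r' ∈ F) (hne : r' ≠ r) {x : V} :
    Conn f (F.erase r) x (f r').1 ↔ Conn f (F.erase r) x (f r').2 := by
  have he : Conn f (F.erase r) (f r').1 (f r').2 :=
    Conn.edge (Finset.mem_erase.mpr ⟨hne, hr'⟩)
  exact ⟨fun h => h.trans he, fun h => h.trans he.symm⟩

/-- If `r'` is not on the side of `u` w.r.t. `r`, the side w.r.t. `r` is contained in the side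
w.r.t. `r'`. -/
theorem side_subset {r r' : E}
    (h : ¬ Conn f (F.erase r) u (f r').1) {x : V} (hx : Conn f (F.erase r) u x) :
    Conn f (F.erase r') u x := by
  refine hx.restrict ?_
  intro e he hc
  rw [Finset.mem_erase] at he ⊢
  refine ⟨?_, he.2⟩
  rintro rfl
  exact h hc

theorem side_chain (huv : Conn f F u v) {r r' : E} (hr : r ∈ sepE f F u v)
    (hr' : r' ∈ sepE f F u v) : sideU f F u r ⊆ sideU f F u r' ∨
      sideU f F u r' ⊆ sideU f F u r := by
  by_cases hne : r' = r
  · subst hne; exact Or.inl subset_rfl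
  by_cases h : Conn f (F.erase r) u (f r').1
  · right
    intro x hx
    have hr1 := (mem_sepE.mp hr')
    have hv : ¬ Conn f (F.erase r) v (f r').1 := by
      intro hc
      exact (mem_sepE.mp hr).2 (h.trans hc.symm)
    by_contra hxr
    have hxF : Conn f F u x := Conn.mono (Finset.erase_subset _ _) hx
    rcases split_of_sep huv hr hxF with h1 | h1
    · exact hxr h1
    · have h2 : Conn f (F.erase r') v x := side_subset hv h1
      exact hr1.2 (Conn.trans hx h2.symm)
  · left
    intro x hx
    exact side_subset h hx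

/-- The number of terminals on the side of `u`. -/
noncomputable def sideN (f : E → V × V) (F : Finset E) (A : Finset V) (u : V) (r : E) : ℕ :=
  (A.filter (fun x => Conn f (F.erase r) u x)).card

theorem sideN_lt {A : Finset V} (hv : v ∈ A) {r : E} (hr : r ∈ sepE f F u v) :
    sideN f F A u r < A.card := by
  unfold sideN
  refine Finset.card_lt_card ?_
  rw [Finset.ssubset_iff_of_subset (Finset.filter_subset _ _)]
  refine ⟨v, hv, ?_⟩
  simp only [Finset.mem_filter, not_and]
  intro _
  exact (mem_sepE.mp hr).2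

theorem side_eq_of_sideN_eq {A : Finset V} (huv : Conn f F u v) {r r' : E}
    (hr : r ∈ sepE f F u v) (hr' : r' ∈ sepE f F u v)
    (hN : sideN f F A u r = sideN f F A u r') {a : V} (ha : a ∈ A) :
    Conn f (F.erase r) u a ↔ Conn f (F.erase r') u a := by
  have key : ∀ r r' : E, sideN f F A u r = sideN f F A u r' →
      sideU f F u r ⊆ sideU f F u r' →
      (Conn f (F.erase r) u a ↔ Conn f (F.erase r') u a) := by
    intro r r' hN hs
    have hsub : A.filter (fun x => Conn f (F.erase r) u x) ⊆
        A.filter (fun x => Conn f (F.erase r') u x) := by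
      intro x hx
      rw [Finset.mem_filter] at hx ⊢
      exact ⟨hx.1, hs hx.2⟩
    have heq := Finset.eq_of_subset_of_card_le hsub (by
      unfold sideN at hN
      exact hN.ge)
    constructor
    · intro h
      exact hs h
    · intro h
      have : a ∈ A.filter (fun x => Conn f (F.erase r') u x) := by
        rw [Finset.mem_filter]; exact ⟨ha, h⟩
      rw [← heq, Finset.mem_filter] at this
      exact this.2
  rcases side_chain huv hr hr' with h | h
  · exact key r r' hN h
  · exact (key r' r hN.symm h).symm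

/-- a class of separating edges -/
noncomputable def sepClass (f : E → V × V) (F : Finset E) (A : Finset V) (u v : V) (n : ℕ) :
    Finset E :=
  (sepE f F u v).filter (fun r => sideN f F A u r = n)

theorem mem_sepClass {A : Finset V} {n : ℕ} {r : E} :
    r ∈ sepClass f F A u v n ↔ r ∈ sepE f F u v ∧ sideN f F A u r = n := by
  simp [sepClass]

theorem sepClass_conn {A : Finset V} (huv : Conn f F u v) {n : ℕ}
    (hn : (sepClass f F A u v n).Nonempty) {a : V} (ha : a ∈ A) (hua : Conn f F u a) :
    Conn f (F \ sepClass f F A u v n) u a ∨ Conn f (F \ sepClass f F A u v n) v a := by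
  -- minimal and maximal sides
  have hchain : ∀ r ∈ sepClass f F A u v n, ∀ r' ∈ sepClass f F A u v n,
      sideU f F u r ⊆ sideU f F u r' ∨ sideU f F u r' ⊆ sideU f F u r := by
    intro r hr r' hr'
    exact side_chain huv (mem_sepClass.mp hr).1 (mem_sepClass.mp hr').1
  obtain ⟨r1, hr1, hmin⟩ : ∃ r1 ∈ sepClass f F A u v n, ∀ r ∈ sepClass f F A u v n,
      sideU f F u r1 ⊆ sideU f F u r := by
    obtain ⟨r1, hr1, h⟩ := Set.Finite.exists_minimalFor (sideU f F u)
      (↑(sepClass f F A u v n) : Set E) (Finset.finite_toSet _) hn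
    refine ⟨r1, hr1, fun r hr => ?_⟩
    rcases hchain r1 hr1 r hr with h1 | h1
    · exact h1
    · exact h hr h1
  obtain ⟨r2, hr2, hmax⟩ : ∃ r2 ∈ sepClass f F A u v n, ∀ r ∈ sepClass f F A u v n,
      sideU f F u r ⊆ sideU f F u r2 := by
    obtain ⟨r2, hr2, h⟩ := Set.Finite.exists_maximalFor (sideU f F u)
      (↑(sepClass f F A u v n) : Set E) (Finset.finite_toSet _) hn
    refine ⟨r2, hr2, fun r hr => ?_⟩
    rcases hchain r2 hr2 r hr with h1 | h1
    · exact h hr h1
    · exact h1
  have hq1 := (mem_sepClass.mp hr1).1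
  have hq2 := (mem_sepClass.mp hr2).1
  by_cases h : Conn f (F.erase r1) u a
  · left
    refine h.restrict ?_
    intro e he hc
    rw [Finset.mem_sdiff]
    rw [Finset.mem_erase] at he
    refine ⟨he.2, fun heD => ?_⟩
    have hqe := (mem_sepClass.mp heD).1
    have hc2 : Conn f (F.erase r1) u (f e).2 := (both_ends he.2 he.1).mp hc
    have h3 : Conn f (F.erase e) u (f e).1 := hmin e heD hc
    have h4 : Conn f (F.erase e) u (f e).2 := hmin e heD hc2
    rcases ends_of_sep huv hqe with ⟨h5, h6⟩ | ⟨h5, h6⟩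
    · exact (mem_sepE.mp hqe).2 (h4.trans h6.symm)
    · exact (mem_sepE.mp hqe).2 (h3.trans h6.symm)
  · right
    have h2 : ¬ Conn f (F.erase r2) u a := by
      rwa [← side_eq_of_sideN_eq huv hq1 hq2
        ((mem_sepClass.mp hr1).2.trans (mem_sepClass.mp hr2).2.symm) ha]
    have h3 : Conn f (F.erase r2) v a := (split_of_sep huv hq2 hua).resolve_left h2
    refine h3.restrict ?_
    intro e he hc
    rw [Finset.mem_sdiff]
    rw [Finset.mem_erase] at he
    refine ⟨he.2, fun heD => ?_⟩
    have hqe := (mem_sepClass.mp heD).1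
    have hc2 : Conn f (F.erase r2) v (f e).2 := (both_ends he.2 he.1).mp hc
    rcases ends_of_sep huv hqe with ⟨h5, h6⟩ | ⟨h5, h6⟩
    · exact (mem_sepE.mp hq2).2 (Conn.trans (hmax e heD h5) hc.symm)
    · exact (mem_sepE.mp hq2).2 (Conn.trans (hmax e heD h5) hc2.symm)

/-- **Cover lemma.** The edges separating the terminals `u`, `v` in a forest `F` can be covered by
`K ≥ |A|` sets, the deletion of each of which disconnects `u` from `v` but leaves every terminal
connected to `u` or to `v`. -/
theorem cover_lemma {A : Finset V} (hF : Acyc f F) (huv : Conn f F u v) (hne : u ≠ v)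
    (hv : v ∈ A) (K : ℕ) (hK : A.card ≤ K) :
    ∃ D : Fin K → Finset E, (∀ c, D c ⊆ sepE f F u v) ∧ (∀ c, (D c).Nonempty) ∧
      (∀ r ∈ sepE f F u v, ∃ c, r ∈ D c) ∧
      ∀ c, ∀ a ∈ A, Conn f F u a → (Conn f (F \ D c) u a ∨ Conn f (F \ D c) v a) := by
  have hQ : (sepE f F u v).Nonempty := by
    rw [Finset.nonempty_iff_ne_empty]
    intro h0
    have h1 := conn_sepE hF huv
    rw [h0] at h1
    apply hne
    refine Conn.rel (f := f) (J := ∅) Eq (fun _ => rfl) (fun _ _ h => h.symm)
      (fun _ _ _ h h' => h.trans h') ?_ h1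
    intro e he
    simp at he
  obtain ⟨r0, hr0⟩ := hQ
  refine ⟨fun c => if (sepClass f F A u v c).Nonempty then sepClass f F A u v c
    else sepClass f F A u v (sideN f F A u r0), ?_, ?_, ?_, ?_⟩
  · intro c
    dsimp only
    split_ifs
    · exact Finset.filter_subset _ _
    · exact Finset.filter_subset _ _
  · intro c
    dsimp only
    split_ifs with h
    · exact h
    · exact ⟨r0, mem_sepClass.mpr ⟨hr0, rfl⟩⟩
  · intro r hr
    refine ⟨⟨sideN f F A u r, (sideN_lt hv hr).trans_le hK⟩, ?_⟩
    have : r ∈ sepClass f F A u v (sideN f F A u r) := mem_sepClass.mpr ⟨hr, rfl⟩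
    dsimp only
    rw [if_pos ⟨r, this⟩]
    exact this
  · intro c a ha hua
    dsimp only
    split_ifs with h
    · exact sepClass_conn huv h ha hua
    · exact sepClass_conn huv ⟨r0, mem_sepClass.mpr ⟨hr0, rfl⟩⟩ ha hua

end Cover

end Pool.Agent.U389.BN
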