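import Pool.Agent.U389.BN.Split

/-!
# Identification of two terminals
-/

namespace Pool.Agent.U389.BN

open scoped Classical

variable {V E : Type*} [Fintype E]

theorem P.ident_nonclosing {K : ℕ} {R : ℝ} {f : E → V × V} {S : Finset E} {A A' : Finset V}
    {u v : V} (huA : u ∈ A) (hvA : v ∈ A) (huv : u ≠ v)
    (hA' : ∀ a ∈ A', a ∈ A ∧ a ≠ v) (hn : ¬ Conn f S u v) (hP : P K R f S A) :
    P K R (mp (idt u v) f) S A' := by
  obtain ⟨Φ, iΦ, lam, F, h, h1, h2, h3, h4, h5, h6, h7⟩ := hP
  refine ⟨Φ, iΦ, lam, F, h, h1, h2, h3, ?_, ?_, h6, ?_⟩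
  · intro φ r hr hc
    have hc' : Glue (Conn f ((F φ).erase r)) u v (f r).1 (f r).2 := conn_idt.mp hc
    have hsub : (F φ).erase r ⊆ S := (Finset.erase_subset _ _).trans (h3 φ)
    have hed : Conn f S (f r).1 (f r).2 := Conn.edge (h3 φ hr)
    rcases hc' with h8 | ⟨h8, h9⟩ | ⟨h8, h9⟩
    · exact h4 φ r hr h8
    · exact hn ((h8.mono hsub).symm.trans (hed.trans (h9.mono hsub).symm))
    · exact hn (((h9.mono hsub)).trans (hed.symm.trans (h8.mono hsub)))
  · intro φ a ha b hb hab
    obtain ⟨ha1, ha2⟩ := hA' a ha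
    obtain ⟨hb1, hb2⟩ := hA' b hb
    rw [conn_idt' ha2 hb2] at hab ⊢
    rcases hab with h8 | ⟨h8, h9⟩ | ⟨h8, h9⟩
    · exact Or.inl (h5 φ a ha1 b hb1 h8)
    · exact Or.inr (Or.inl ⟨h5 φ a ha1 u huA h8, h5 φ v hvA b hb1 h9⟩)
    · exact Or.inr (Or.inr ⟨h5 φ a ha1 v hvA h8, h5 φ u huA b hb1 h9⟩)
  · intro I Ω _ _ D w J C hD hw0 hw1 hJ hC
    set c : I → Option Bool := fun i =>
      if Conn f S (D i).1 (D i).2 then none else if Conn f S (D i).1 u then some true
      else some false with hc
    have hlab : ∀ i ω, w i ω ≠ 0 → J i ω ⊆ S ∧ Lab f u v (D i).1 (D i).2 (J i ω) (c i) := by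
      intro i ω hω
      obtain ⟨a1, a2⟩ := hJ i ω hω
      refine ⟨a1, ?_⟩
      rw [conn_idt' (hA' _ (hD i).1).2 (hA' _ (hD i).2).2] at a2
      by_cases c1 : Conn f S (D i).1 (D i).2
      · have hci : c i = none := by simp [hc, c1]
        rw [hci]
        rcases a2 with h8 | ⟨h8, h9⟩ | ⟨h8, h9⟩
        · exact h8
        · exact absurd ((h8.mono a1).symm.trans (c1.trans (h9.mono a1).symm)) hn
        · exact absurd ((h9.mono a1).trans (c1.symm.trans (h8.mono a1))) hn
      · have hnJ : ¬ Conn f (J i ω) (D i).1 (D i).2 := fun h => c1 (h.mono a1)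
        by_cases c2 : Conn f S (D i).1 u
        · have hci : c i = some true := by simp [hc, c1, c2]
          rw [hci]
          rcases a2 with h8 | ⟨h8, h9⟩ | ⟨h8, h9⟩
          · exact absurd h8 hnJ
          · exact ⟨h8, h9, hnJ⟩
          · exact absurd (c2.symm.trans (h8.mono a1)) hn
        · have hci : c i = some false := by simp [hc, c1, c2]
          rw [hci]
          rcases a2 with h8 | ⟨h8, h9⟩ | ⟨h8, h9⟩
          · exact absurd h8 hnJ
          · exact absurd (h8.mono a1) c2
          · exact ⟨h8, h9, hnJ⟩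
    obtain ⟨Q0, Q, L, q1, q2, q3, q4, q5⟩ := split_round (Φ := Unit) h7 huA hvA hA'
      (fun _ => (1 : ℝ)) (fun _ => zero_le_one) (by simp) (fun _ => (∅ : Finset E))
      (fun _ => by simp) u u huA huA (fun _ => Conn.refl _) D w J C 0 hD c
      (fun i ξ => if ξ.1 = i then w ξ.1 ξ.2 else 0) (fun i _ => c i) hlab
      (fun i ξ => by
        split_ifs
        · exact hw0 _ _
        · exact le_rfl)
      (fun i => by
        rw [Fintype.sum_prod_type, Finset.sum_eq_single i]
        · simp only [if_true]; exact hw1 i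
        · intro b _ hb
          simp [hb]
        · simp)
      (fun ξ => by
        rw [Finset.sum_eq_single ξ.1]
        · simp
        · intro b _ hb
          rw [if_neg (fun h => hb h.symm)]
        · simp)
      (fun i ξ hne => by
        have hi : ξ.1 = i := by
          by_contra hcon
          exact hne (if_neg hcon)
        subst hi
        exact ⟨rfl, Or.inr rfl⟩)
      (by
        refine le_of_eq (Finset.sum_eq_zero fun i _ => Finset.sum_eq_zero fun ξ _ => ?_)
        by_cases hi : ξ.1 = i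
        · subst hi
          by_cases h0 : c ξ.1 = none
          · simp [h0]
          · simp [h0]
        · simp [hi])
      (Or.inr (fun i ξ hne => by
        have hi : ξ.1 = i := by
          by_contra hcon
          exact hne (if_neg hcon)
        subst hi
        rfl))
      (fun r hr => by
        refine le_trans (le_of_eq ?_) (hC r hr)
        rw [ind_not_mem (show r ∉ (∅ : Finset E) by simp)]
        simp)
    refine ⟨Q, L, q3, q4.trans (Z_idt_nonclosing huv hn).symm, fun r hr => ?_⟩
    have := q5 r hr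
    have := ind_nonneg r Q0
    linarith

theorem P.ident_closing {K : ℕ} {f : E → V × V} {S : Finset E} {A A' : Finset V}
    {u v : V} (huA : u ∈ A) (hvA : v ∈ A) (huv : u ≠ v) (hcard : A.card ≤ K)
    (hA' : ∀ a ∈ A', a ∈ A ∧ a ≠ v) (hcl : Conn f S u v) (hP : P K (2 * K ^ 2 + 1) f S A) :
    P K (2 * K ^ 2 + 1) (mp (idt u v) f) S A' := by
  obtain ⟨Φ, iΦ, lam, F, h, h1, h2, h3, h4, h5, h6, h7⟩ := hP
  have hKpos : (0 : ℝ) < K := by
    have : 0 < A.card := Finset.card_pos.mpr ⟨u, huA⟩
    exact_mod_cast this.trans_le hcard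
  have hFuv : ∀ φ, Conn f (F φ) u v := fun φ => h5 φ u huA v hvA hcl
  have hcov := fun φ => cover_lemma (h4 φ) (hFuv φ) huv hvA K hcard
  choose DD d1 d2 d3 d4 using hcov
  have hsepF : ∀ φ, sepE f (F φ) u v ⊆ F φ := fun φ => sepE_subset
  refine ⟨Φ × Fin K, inferInstance, fun x => lam x.1 / K, fun x => F x.1 \ DD x.1 x.2,
    fun r => h r + ∑ φ, lam φ / K * ind r (sepE f (F φ) u v), ?_, ?_, ?_, ?_, ?_, ?_, ?_⟩
  · intro x
    exact div_nonneg (h1 _) hKpos.le
  · rw [Fintype.sum_prod_type]
    simp only [Finset.sum_const, Finset.card_univ, Fintype.card_fin, nsmul_eq_mul]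
    refine Eq.trans (Finset.sum_congr rfl fun φ _ => ?_) h2
    field_simp
  · intro x
    exact Finset.sdiff_subset.trans (h3 _)
  · rintro ⟨φ, c⟩ r hr hc
    dsimp only at hr hc
    have hc' : Glue (Conn f ((F φ \ DD φ c).erase r)) u v (f r).1 (f r).2 := conn_idt.mp hc
    have hsub : (F φ \ DD φ c).erase r ⊆ (F φ).erase r :=
      Finset.erase_subset_erase r Finset.sdiff_subset
    have hsub' : (F φ \ DD φ c).erase r ⊆ F φ \ DD φ c := Finset.erase_subset _ _
    have hrF : r ∈ F φ := (Finset.mem_sdiff.mp hr).1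
    have hed : Conn f (F φ \ DD φ c) (f r).1 (f r).2 := Conn.edge hr
    -- `u` and `v` are not connected in `F \ D`
    have hnot : ¬ Conn f (F φ \ DD φ c) u v := by
      intro hcon
      obtain ⟨r', hr'⟩ := d2 φ c
      have h8 := d1 φ c hr'
      refine (mem_sepE.mp h8).2 (hcon.mono ?_)
      intro e he
      rw [Finset.mem_sdiff] at he
      exact Finset.mem_erase.mpr ⟨fun h9 => he.2 (h9 ▸ hr'), he.1⟩
    rcases hc' with h8 | ⟨h8, h9⟩ | ⟨h8, h9⟩
    · exact h4 φ r hrF (h8.mono hsub)
    · exact hnot ((h8.mono hsub').symm.trans (hed.trans (h9.mono hsub').symm))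
    · exact hnot ((h9.mono hsub').trans (hed.symm.trans (h8.mono hsub')))
  · rintro ⟨φ, c⟩ a ha b hb hab
    dsimp only
    obtain ⟨ha1, ha2⟩ := hA' a ha
    obtain ⟨hb1, hb2⟩ := hA' b hb
    rw [conn_idt' ha2 hb2] at hab ⊢
    have hab' : Conn f S a b := by
      rcases hab with h8 | ⟨h8, h9⟩ | ⟨h8, h9⟩
      · exact h8
      · exact h8.trans (hcl.trans h9)
      · exact h8.trans (hcl.symm.trans h9)
    have habF := h5 φ a ha1 b hb1 hab'
    by_cases hua : Conn f (F φ) u a
    · have hub : Conn f (F φ) u b := hua.trans habF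
      rcases d4 φ c a ha1 hua with ha3 | ha3 <;> rcases d4 φ c b hb1 hub with hb3 | hb3
      · exact Or.inl (ha3.symm.trans hb3)
      · exact Or.inr (Or.inl ⟨ha3.symm, hb3⟩)
      · exact Or.inr (Or.inr ⟨ha3.symm, hb3⟩)
      · exact Or.inl (ha3.symm.trans hb3)
    · refine Or.inl (habF.restrict fun e he hc => ?_)
      rw [Finset.mem_sdiff]
      refine ⟨he, fun heD => hua ?_⟩
      have h8 := ends_of_sep (hFuv φ) (d1 φ c heD)
      have h9 : Conn f (F φ) u (f e).1 := by
        rcases h8 with ⟨h10, _⟩ | ⟨h10, _⟩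
        · exact h10.mono (Finset.erase_subset _ _)
        · exact (h10.mono (Finset.erase_subset _ _)).trans (Conn.edge he).symm
      exact h9.trans hc.symm
  · intro r hr
    dsimp only
    refine le_trans ?_ (h6 r hr)
    rw [add_assoc, Fintype.sum_prod_type, ← Finset.sum_add_distrib]
    refine add_le_add le_rfl (Finset.sum_le_sum fun φ _ => ?_)
    dsimp only
    rw [← Finset.mul_sum]
    have hlam : 0 ≤ lam φ / K := div_nonneg (h1 φ) hKpos.le
    have hkey : ind r (sepE f (F φ) u v) + ∑ c, ind r (F φ \ DD φ c) ≤ K * ind r (F φ) := by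
      by_cases hrF : r ∈ F φ
      · rw [ind_mem hrF, mul_one]
        by_cases hrs : r ∈ sepE f (F φ) u v
        · rw [ind_mem hrs]
          obtain ⟨c0, hc0⟩ := d3 φ r hrs
          have h8 : ∑ c, ind r (F φ \ DD φ c) ≤ ∑ c : Fin K, (1 - if c = c0 then (1 : ℝ) else 0) := by
            refine Finset.sum_le_sum fun c _ => ?_
            by_cases hcc : c = c0
            · subst hcc
              rw [ind_not_mem (by simp [hc0])]
              simp
            · rw [if_neg hcc, sub_zero]
              exact ind_le_one _ _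
          rw [Finset.sum_sub_distrib, Finset.sum_ite_eq' Finset.univ c0, if_pos (Finset.mem_univ _)]
            at h8
          simp only [Finset.sum_const, Finset.card_univ, Fintype.card_fin, nsmul_eq_mul,
            mul_one] at h8
          linarith
        · rw [ind_not_mem hrs, zero_add]
          refine (Finset.sum_le_sum fun c _ => ind_le_one r (F φ \ DD φ c)).trans ?_
          simp
      · have h8 : ∑ c, ind r (F φ \ DD φ c) = 0 := by
          refine Finset.sum_eq_zero fun c _ => ind_not_mem (by simp [hrF])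
        rw [h8, ind_not_mem hrF, ind_not_mem (fun h => hrF (hsepF φ h))]
        simp
    have h9 := mul_le_mul_of_nonneg_left hkey hlam
    have h10 : lam φ / K * (K * ind r (F φ)) = lam φ * ind r (F φ) := by
      field_simp
    rw [h10] at h9
    linarith
  · intro I Ω _ _ D w J C hD hw0 hw1 hJ hC
    have hlab0 : ∀ i ω, w i ω ≠ 0 → ∃ x, Lab f u v (D i).1 (D i).2 (J i ω) x := by
      intro i ω hω
      obtain ⟨a1, a2⟩ := hJ i ω hω
      rw [conn_idt' (hA' _ (hD i).1).2 (hA' _ (hD i).2).2] at a2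
      exact exists_lab a2
    set κ : I → Ω → Option Bool := fun i ω =>
      if hx : ∃ x, Lab f u v (D i).1 (D i).2 (J i ω) x then hx.choose else none with hκ
    have hlab : ∀ i ω, w i ω ≠ 0 → J i ω ⊆ S ∧ Lab f u v (D i).1 (D i).2 (J i ω) (κ i ω) := by
      intro i ω hω
      refine ⟨(hJ i ω hω).1, ?_⟩
      simp only [hκ]
      rw [dif_pos (hlab0 i ω hω)]
      exact (hlab0 i ω hω).choose_spec
    obtain ⟨c, θ, t1, t2, t3, t4, t5⟩ := transport D (A' ×ˢ A')
      (fun i => Finset.mem_product.mpr (hD i)) w hw0 hw1 κ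
    have hcardA' : (A'.card : ℝ) ≤ K := by
      have : A'.card ≤ A.card := Finset.card_le_card fun a ha => (hA' a ha).1
      exact_mod_cast this.trans hcard
    have hT : (∑ i, ∑ ξ, (if c i = none ∧ κ ξ.1 ξ.2 ≠ none then θ i ξ else 0)) ≤
        2 * (K : ℝ) ^ 2 := by
      refine t5.trans ?_
      rw [Finset.card_product]
      push_cast
      have h0 : (0 : ℝ) ≤ A'.card := Nat.cast_nonneg _
      nlinarith
    obtain ⟨Q0, Q, L, q1, q2, q3, q4, q5⟩ := split_round h7 huA hvA hA'
      (fun φ => lam φ / K) (fun φ => div_nonneg (h1 φ) hKpos.le)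
      (by rw [← Finset.sum_div, h2]; exact div_self hKpos.ne')
      (fun φ => sepE f (F φ) u v) (fun φ => (hsepF φ).trans (h3 φ)) u v huA hvA
      (fun φ => conn_sepE (h4 φ) (hFuv φ)) D w J C (2 * (K : ℝ) ^ 2) hD c θ κ hlab t1 t2 t3 t4 hT
      (Or.inl fun φ => conn_sepE (h4 φ) (hFuv φ))
      (fun r hr => by
        refine le_trans (le_of_eq ?_) (hC r hr)
        ring)
    obtain ⟨X, x1, x2⟩ := exists_tjoin q2
    refine ⟨Q, X :: L, q3, ?_, fun r hr => ?_⟩
    · rw [Z_idt_closing huv (fun e he => x1 e (fun h => he (q1 h))) x2, ← q4,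
        ← Submodule.span_union]
      congr 1
      ext c
      simp only [List.mem_cons, Set.mem_ofPred_eq, Set.mem_union, Set.mem_singleton_iff]
      tauto
    · rw [load_cons]
      have h8 : (if X r = 0 then (0 : ℝ) else 1) ≤ ind r Q0 := by
        by_cases h9 : X r = 0
        · rw [if_pos h9]; exact ind_nonneg _ _
        · have h10 : r ∈ Q0 := by
            by_contra h11
            exact h9 (x1 r h11)
          rw [if_neg h9, ind_mem h10]
      have := q5 r hr
      linarith

/-- **Identification of terminals** preserves the invariant. -/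
theorem P.ident {K : ℕ} {f : E → V × V} {S : Finset E} {A A' : Finset V}
    {u v : V} (huA : u ∈ A) (hvA : v ∈ A) (huv : u ≠ v) (hcard : A.card ≤ K)
    (hA' : ∀ a ∈ A', a ∈ A ∧ a ≠ v) (hP : P K (2 * K ^ 2 + 1) f S A) :
    P K (2 * K ^ 2 + 1) (mp (idt u v) f) S A' := by
  by_cases hcl : Conn f S u v
  · exact hP.ident_closing huA hvA huv hcard hA' hcl
  · exact hP.ident_nonclosing huA hvA huv hA' hcl

end Pool.Agent.U389.BN
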