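import Pool.Agent.U389.BN.P2

/-!
# Unions and identifications for the second invariant
-/

namespace Pool.Agent.U389.BN

open scoped Classical

variable {V E : Type*} [Fintype E]

theorem P2.disjUnion {t : ℝ} {K : ℕ} (hK : 0 < K) {f : E → V × V} {S1 S2 : Finset E}
    {A1 A2 : Finset V} {W1 W2 : Set V}
    (hW1 : ∀ e ∈ S1, (f e).1 ∈ W1 ∧ (f e).2 ∈ W1) (hW2 : ∀ e ∈ S2, (f e).1 ∈ W2 ∧ (f e).2 ∈ W2)
    (hA1 : ∀ a ∈ A1, a ∈ W1) (hA2 : ∀ a ∈ A2, a ∈ W2) (hd : Disjoint W1 W2)
    (hP1 : P2 t K f S1 A1) (hP2 : P2 t K f S2 A2) : P2 t K f (S1 ∪ S2) (A1 ∪ A2) := by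
  obtain ⟨Φ1, i1, lam1, F1, h1, a1, a2, a3, a4, a5, a6, a7⟩ := hP1
  obtain ⟨Φ2, i2, lam2, F2, h2, b1, b2, b3, b4, b5, b6, b7⟩ := hP2
  have hKpos : (0 : ℝ) < K := by exact_mod_cast hK
  have hS : Disjoint S1 S2 := by
    rw [Finset.disjoint_left]
    intro e h1 h2
    exact Set.disjoint_left.mp hd (hW1 e h1).1 (hW2 e h2).1
  have hS1 : ∀ e ∈ S1 ∪ S2, e ∈ S1 ∨ ((f e).1 ∉ W1 ∧ (f e).2 ∉ W1) := by
    intro e he
    rcases Finset.mem_union.mp he with h | h
    · exact Or.inl h
    · exact Or.inr ⟨fun h5 => Set.disjoint_left.mp hd h5 (hW2 e h).1,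
        fun h5 => Set.disjoint_left.mp hd h5 (hW2 e h).2⟩
  have hS2 : ∀ e ∈ S1 ∪ S2, e ∈ S2 ∨ ((f e).1 ∉ W2 ∧ (f e).2 ∉ W2) := by
    intro e he
    rcases Finset.mem_union.mp he with h | h
    · exact Or.inr ⟨fun h5 => Set.disjoint_left.mp hd (hW1 e h).1 h5,
        fun h5 => Set.disjoint_left.mp hd (hW1 e h).2 h5⟩
    · exact Or.inl h
  have hA1' : ∀ a ∈ A1 ∪ A2, (a ∈ A1 ↔ a ∈ W1) := by
    intro a ha
    refine ⟨hA1 a, fun h => ?_⟩
    rcases Finset.mem_union.mp ha with h' | h'
    · exact h'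
    · exact absurd (hA2 a h') (fun h5 => Set.disjoint_left.mp hd h h5)
  have hA2' : ∀ a ∈ A1 ∪ A2, (a ∈ A2 ↔ a ∈ W2) := by
    intro a ha
    refine ⟨hA2 a, fun h => ?_⟩
    rcases Finset.mem_union.mp ha with h' | h'
    · exact absurd h (fun h5 => Set.disjoint_left.mp hd (hA1 a h') h5)
    · exact h'
  refine ⟨Φ1 × Φ2, inferInstance, fun φ => lam1 φ.1 * lam2 φ.2 / K, fun φ => F1 φ.1 ∪ F2 φ.2,
    fun r => if r ∈ S1 then h1 r else h2 r, ?_, ?_, ?_, ?_, ?_, ?_, ?_⟩
  · intro φ
    exact div_nonneg (mul_nonneg (a1 _) (b1 _)) hKpos.le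
  · rw [Fintype.sum_prod_type]
    simp only [← Finset.sum_div, ← Finset.mul_sum, b2]
    simp only [← Finset.sum_mul, a2]
    field_simp
  · intro φ
    exact Finset.union_subset_union (a3 _) (b3 _)
  · intro φ
    exact Acyc.union (fun e he => hW1 e (a3 _ he)) (fun e he => hW2 e (b3 _ he)) hd (a4 _) (b4 _)
  · intro φ a ha b hb hab
    rcases Finset.mem_union.mp ha with h | h
    · obtain ⟨h3, h4⟩ := conn_part hW1 hS1 (hA1 a h) hab
      have hbA : b ∈ A1 := (hA1' b hb).mpr h4
      exact (a5 φ.1 a h b hbA (h3.mono Finset.inter_subset_right)).mono Finset.subset_union_left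
    · obtain ⟨h3, h4⟩ := conn_part hW2 hS2 (hA2 a h) hab
      have hbA : b ∈ A2 := (hA2' b hb).mpr h4
      exact (b5 φ.2 a h b hbA (h3.mono Finset.inter_subset_right)).mono Finset.subset_union_right
  · intro r hr
    rw [Fintype.sum_prod_type]
    dsimp only
    by_cases hr1 : r ∈ S1
    · have hr2 : r ∉ S2 := Finset.disjoint_left.mp hS hr1
      rw [if_pos hr1]
      refine le_trans (le_of_eq ?_) (a6 r hr1)
      congr 1
      refine Finset.sum_congr rfl fun φ1 _ => ?_
      have : ∀ φ2, lam1 φ1 * lam2 φ2 / K * ind r (F1 φ1 ∪ F2 φ2) =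
          lam2 φ2 * (lam1 φ1 * ind r (F1 φ1) / K) := by
        intro φ2
        have h3 : ind r (F1 φ1 ∪ F2 φ2) = ind r (F1 φ1) := by
          have h4 : r ∉ F2 φ2 := fun h => hr2 (b3 _ h)
          unfold ind
          simp [h4]
        rw [h3]; ring
      simp only [this]
      rw [← Finset.sum_mul, b2]
      field_simp
    · have hr2 : r ∈ S2 := (Finset.mem_union.mp hr).resolve_left hr1
      rw [if_neg hr1]
      refine le_trans (le_of_eq ?_) (b6 r hr2)
      congr 1
      rw [Finset.sum_comm]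
      refine Finset.sum_congr rfl fun φ2 _ => ?_
      have : ∀ φ1, lam1 φ1 * lam2 φ2 / K * ind r (F1 φ1 ∪ F2 φ2) =
          lam1 φ1 * (lam2 φ2 * ind r (F2 φ2) / K) := by
        intro φ1
        have h3 : ind r (F1 φ1 ∪ F2 φ2) = ind r (F2 φ2) := by
          have h4 : r ∉ F1 φ1 := fun h => hr1 (a3 _ h)
          unfold ind
          simp [h4]
        rw [h3]; ring
      simp only [this]
      rw [← Finset.sum_mul, a2]
      field_simp
  · intro W hW
    obtain ⟨L1, l1, l2⟩ := a7 W hW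
    obtain ⟨L2, m1, m2⟩ := b7 W hW
    refine ⟨L1 ++ L2, ?_, ?_⟩
    · rw [Z_union hW1 hW2 hd, ← l1, ← m1, ← Submodule.span_union]
      congr 1
      ext c
      simp
    · rw [Finset.sum_union hS, Finset.sum_union hS]
      refine add_le_add (le_trans (le_of_eq ?_) (l2.trans (le_of_eq ?_)))
        (le_trans (le_of_eq ?_) (m2.trans (le_of_eq ?_)))
      · refine Finset.sum_congr rfl fun r hr => ?_
        have hr2 : r ∉ S2 := Finset.disjoint_left.mp hS hr
        have h3 : cnt L2 r = 0 := by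
          refine cnt_eq_zero fun c hc => ?_
          have : c ∈ Z f S2 := by
            rw [← m1]
            exact Submodule.subset_span hc
          exact this.1 r hr2
        rw [cnt_append, h3, add_zero]
      · refine Finset.sum_congr rfl fun r hr => ?_
        dsimp only
        rw [if_pos hr]
      · refine Finset.sum_congr rfl fun r hr => ?_
        have hr1 : r ∉ S1 := Finset.disjoint_right.mp hS hr
        have h3 : cnt L1 r = 0 := by
          refine cnt_eq_zero fun c hc => ?_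
          have : c ∈ Z f S1 := by
            rw [← l1]
            exact Submodule.subset_span hc
          exact this.1 r hr1
        rw [cnt_append, h3, zero_add]
      · refine Finset.sum_congr rfl fun r hr => ?_
        have hr1 : r ∉ S1 := Finset.disjoint_right.mp hS hr
        dsimp only
        rw [if_neg hr1]

theorem P2.ident_nonclosing {t : ℝ} {K : ℕ} {f : E → V × V} {S : Finset E} {A A' : Finset V}
    {u v : V} (huA : u ∈ A) (hvA : v ∈ A) (huv : u ≠ v)
    (hA' : ∀ a ∈ A', a ∈ A ∧ a ≠ v) (hn : ¬ Conn f S u v) (hP : P2 t K f S A) :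
    P2 t K (mp (idt u v) f) S A' := by
  obtain ⟨Φ, iΦ, lam, F, h, h1, h2, h3, h4, h5, h6, h7⟩ := hP
  refine ⟨Φ, iΦ, lam, F, h, h1, h2, h3, ?_, ?_, h6, ?_⟩
  · intro φ r hr hc
    have hc' : Glue (Conn f ((F φ).erase r)) u v (f r).1 (f r).2 := conn_idt.mp hc
    have hsub : (F φ).erase r ⊆ S := (Finset.erase_subset _ _).trans (h3 φ)
    have hed : Conn f S (f r).1 (f r).2 := Conn.edge (h3 φ hr)
    rcases hc' with h8 | ⟨h8, h9⟩ | ⟨h8, h9⟩
    · exact h4 φ r hr h8
    · exact hn ((h8.mono hsub).symm.trans (hed.trans (h9.mono hsub).symm))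
    · exact hn (((h9.mono hsub)).trans (hed.symm.trans (h8.mono hsub)))
  · intro φ a ha b hb hab
    obtain ⟨ha1, ha2⟩ := hA' a ha
    obtain ⟨hb1, hb2⟩ := hA' b hb
    rw [conn_idt' ha2 hb2] at hab ⊢
    rcases hab with h8 | ⟨h8, h9⟩ | ⟨h8, h9⟩
    · exact Or.inl (h5 φ a ha1 b hb1 h8)
    · exact Or.inr (Or.inl ⟨h5 φ a ha1 u huA h8, h5 φ v hvA b hb1 h9⟩)
    · exact Or.inr (Or.inr ⟨h5 φ a ha1 v hvA h8, h5 φ u huA b hb1 h9⟩)
  · intro W hW
    obtain ⟨L, l1, l2⟩ := h7 W hW
    exact ⟨L, l1.trans (Z_idt_nonclosing huv hn).symm, l2⟩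

theorem P2.ident_closing {t : ℝ} (ht : 0 ≤ t) {K : ℕ} {f : E → V × V} {S : Finset E} {A A' : Finset V}
    {u v : V} (huA : u ∈ A) (hvA : v ∈ A) (huv : u ≠ v) (hcard : A.card ≤ K)
    (hA' : ∀ a ∈ A', a ∈ A ∧ a ≠ v) (hcl : Conn f S u v) (hP : P2 t K f S A) :
    P2 t K (mp (idt u v) f) S A' := by
  obtain ⟨Φ, iΦ, lam, F, h, h1, h2, h3, h4, h5, h6, h7⟩ := hP
  have hKpos : (0 : ℝ) < K := by
    have : 0 < A.card := Finset.card_pos.mpr ⟨u, huA⟩
    exact_mod_cast this.trans_le hcard
  have hFuv : ∀ φ, Conn f (F φ) u v := fun φ => h5 φ u huA v hvA hcl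
  have hcov := fun φ => cover_lemma (h4 φ) (hFuv φ) huv hvA K hcard
  choose DD d1 d2 d3 d4 using hcov
  have hsepF : ∀ φ, sepE f (F φ) u v ⊆ F φ := fun φ => sepE_subset
  refine ⟨Φ × Fin K, inferInstance, fun x => lam x.1 / K, fun x => F x.1 \ DD x.1 x.2,
    fun r => h r + ∑ φ, lam φ / K * ind r (sepE f (F φ) u v), ?_, ?_, ?_, ?_, ?_, ?_, ?_⟩
  · intro x
    exact div_nonneg (h1 _) hKpos.le
  · rw [Fintype.sum_prod_type]
    simp only [Finset.sum_const, Finset.card_univ, Fintype.card_fin, nsmul_eq_mul]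
    refine Eq.trans (Finset.sum_congr rfl fun φ _ => ?_) h2
    field_simp
  · intro x
    exact Finset.sdiff_subset.trans (h3 _)
  · rintro ⟨φ, c⟩ r hr hc
    dsimp only at hr hc
    have hc' : Glue (Conn f ((F φ \ DD φ c).erase r)) u v (f r).1 (f r).2 := conn_idt.mp hc
    have hsub : (F φ \ DD φ c).erase r ⊆ (F φ).erase r :=
      Finset.erase_subset_erase r Finset.sdiff_subset
    have hsub' : (F φ \ DD φ c).erase r ⊆ F φ \ DD φ c := Finset.erase_subset _ _
    have hrF : r ∈ F φ := (Finset.mem_sdiff.mp hr).1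
    have hed : Conn f (F φ \ DD φ c) (f r).1 (f r).2 := Conn.edge hr
    -- `u` and `v` are not connected in `F \ D`
    have hnot : ¬ Conn f (F φ \ DD φ c) u v := by
      intro hcon
      obtain ⟨r', hr'⟩ := d2 φ c
      have h8 := d1 φ c hr'
      refine (mem_sepE.mp h8).2 (hcon.mono ?_)
      intro e he
      rw [Finset.mem_sdiff] at he
      exact Finset.mem_erase.mpr ⟨fun h9 => he.2 (h9 ▸ hr'), he.1⟩
    rcases hc' with h8 | ⟨h8, h9⟩ | ⟨h8, h9⟩
    · exact h4 φ r hrF (h8.mono hsub)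
    · exact hnot ((h8.mono hsub').symm.trans (hed.trans (h9.mono hsub').symm))
    · exact hnot ((h9.mono hsub').trans (hed.symm.trans (h8.mono hsub')))
  · rintro ⟨φ, c⟩ a ha b hb hab
    dsimp only
    obtain ⟨ha1, ha2⟩ := hA' a ha
    obtain ⟨hb1, hb2⟩ := hA' b hb
    rw [conn_idt' ha2 hb2] at hab ⊢
    have hab' : Conn f S a b := by
      rcases hab with h8 | ⟨h8, h9⟩ | ⟨h8, h9⟩
      · exact h8
      · exact h8.trans (hcl.trans h9)
      · exact h8.trans (hcl.symm.trans h9)
    have habF := h5 φ a ha1 b hb1 hab'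
    by_cases hua : Conn f (F φ) u a
    · have hub : Conn f (F φ) u b := hua.trans habF
      rcases d4 φ c a ha1 hua with ha3 | ha3 <;> rcases d4 φ c b hb1 hub with hb3 | hb3
      · exact Or.inl (ha3.symm.trans hb3)
      · exact Or.inr (Or.inl ⟨ha3.symm, hb3⟩)
      · exact Or.inr (Or.inr ⟨ha3.symm, hb3⟩)
      · exact Or.inl (ha3.symm.trans hb3)
    · refine Or.inl (habF.restrict fun e he hc => ?_)
      rw [Finset.mem_sdiff]
      refine ⟨he, fun heD => hua ?_⟩
      have h8 := ends_of_sep (hFuv φ) (d1 φ c heD)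
      have h9 : Conn f (F φ) u (f e).1 := by
        rcases h8 with ⟨h10, _⟩ | ⟨h10, _⟩
        · exact h10.mono (Finset.erase_subset _ _)
        · exact (h10.mono (Finset.erase_subset _ _)).trans (Conn.edge he).symm
      exact h9.trans hc.symm
  · intro r hr
    dsimp only
    refine le_trans ?_ (h6 r hr)
    rw [add_assoc, Fintype.sum_prod_type, ← Finset.sum_add_distrib]
    refine add_le_add le_rfl (Finset.sum_le_sum fun φ _ => ?_)
    dsimp only
    rw [← Finset.mul_sum]
    have hlam : 0 ≤ lam φ / K := div_nonneg (h1 φ) hKpos.le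
    have hkey : ind r (sepE f (F φ) u v) + ∑ c, ind r (F φ \ DD φ c) ≤ K * ind r (F φ) := by
      by_cases hrF : r ∈ F φ
      · rw [ind_mem hrF, mul_one]
        by_cases hrs : r ∈ sepE f (F φ) u v
        · rw [ind_mem hrs]
          obtain ⟨c0, hc0⟩ := d3 φ r hrs
          have h8 : ∑ c, ind r (F φ \ DD φ c) ≤ ∑ c : Fin K, (1 - if c = c0 then (1 : ℝ) else 0) := by
            refine Finset.sum_le_sum fun c _ => ?_
            by_cases hcc : c = c0
            · subst hcc
              rw [ind_not_mem (by simp [hc0])]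
              simp
            · rw [if_neg hcc, sub_zero]
              exact ind_le_one _ _
          rw [Finset.sum_sub_distrib, Finset.sum_ite_eq' Finset.univ c0, if_pos (Finset.mem_univ _)]
            at h8
          simp only [Finset.sum_const, Finset.card_univ, Fintype.card_fin, nsmul_eq_mul,
            mul_one] at h8
          linarith
        · rw [ind_not_mem hrs, zero_add]
          refine (Finset.sum_le_sum fun c _ => ind_le_one r (F φ \ DD φ c)).trans ?_
          simp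
      · have h8 : ∑ c, ind r (F φ \ DD φ c) = 0 := by
          refine Finset.sum_eq_zero fun c _ => ind_not_mem (by simp [hrF])
        rw [h8, ind_not_mem hrF, ind_not_mem (fun h => hrF (hsepF φ h))]
        simp
    have h9 := mul_le_mul_of_nonneg_left hkey hlam
    have h10 : lam φ / K * (K * ind r (F φ)) = lam φ * ind r (F φ) := by
      field_simp
    rw [h10] at h9
    linarith
  · intro W hW
    have hX : ∀ φ, ∃ X : E → ZMod 2, (∀ r, r ∉ sepE f (F φ) u v → X r = 0) ∧
        ∀ g : V → ZMod 2, bd f X g = g u + g v := by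
      intro φ
      obtain ⟨X, x1, x2⟩ := exists_tjoin (conn_sepE (h4 φ) (hFuv φ))
      exact ⟨X, x1, x2⟩
    choose X x1 x2 using hX
    have hL : ∀ φ, ∃ L : List (E → ZMod 2), Submodule.span (ZMod 2) {c | c ∈ L} = Z f S ∧
        ∑ r ∈ S, (W r * (if X φ r = 0 then 1 else 1 + t)) * (1 + t) ^ cnt L r ≤
          ∑ r ∈ S, (W r * (if X φ r = 0 then 1 else 1 + t)) * Real.exp (t * h r) := by
      intro φ
      refine h7 (fun r => W r * (if X φ r = 0 then 1 else 1 + t)) fun r => ?_
      have := hW r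
      split_ifs <;> positivity
    choose L l1 l2 using hL
    set μ : Φ → ℝ := fun φ => lam φ / K with hμ
    have hμ0 : ∀ φ, 0 ≤ μ φ := fun φ => div_nonneg (h1 φ) hKpos.le
    have hμ1 : ∑ φ, μ φ = 1 := by
      rw [hμ, ← Finset.sum_div, h2]
      exact div_self hKpos.ne'
    have hav : ∑ φ, μ φ * (∑ r ∈ S, (W r * (if X φ r = 0 then 1 else 1 + t)) * Real.exp (t * h r)) ≤
        ∑ r ∈ S, W r * Real.exp (t * (h r + ∑ φ, μ φ * ind r (sepE f (F φ) u v))) := by
      simp only [Finset.mul_sum]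
      rw [Finset.sum_comm]
      refine Finset.sum_le_sum fun r _ => ?_
      have e1 : ∀ φ, μ φ * ((W r * (if X φ r = 0 then 1 else 1 + t)) * Real.exp (t * h r)) ≤
          (W r * Real.exp (t * h r)) * (μ φ + t * (μ φ * ind r (sepE f (F φ) u v))) := by
        intro φ
        have e2 : (if X φ r = 0 then (1 : ℝ) else 1 + t) ≤
            1 + t * ind r (sepE f (F φ) u v) := by
          by_cases h9 : X φ r = 0
          · rw [if_pos h9]
            have := mul_nonneg ht (ind_nonneg r (sepE f (F φ) u v))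
            linarith
          · have h10 : r ∈ sepE f (F φ) u v := by
              by_contra h11
              exact h9 (x1 φ r h11)
            rw [if_neg h9, ind_mem h10, mul_one]
        have e3 : 0 ≤ W r * Real.exp (t * h r) * μ φ :=
          mul_nonneg (mul_nonneg (hW r) (Real.exp_pos _).le) (hμ0 φ)
        have := mul_le_mul_of_nonneg_left e2 e3
        calc μ φ * ((W r * (if X φ r = 0 then 1 else 1 + t)) * Real.exp (t * h r)) =
            W r * Real.exp (t * h r) * μ φ * (if X φ r = 0 then (1 : ℝ) else 1 + t) := by ring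
          _ ≤ W r * Real.exp (t * h r) * μ φ * (1 + t * ind r (sepE f (F φ) u v)) := this
          _ = _ := by ring
      refine (Finset.sum_le_sum fun φ _ => e1 φ).trans ?_
      rw [← Finset.mul_sum, Finset.sum_add_distrib, hμ1, ← Finset.mul_sum,
        mul_add t, Real.exp_add, mul_assoc]
      refine mul_le_mul_of_nonneg_left ?_ (hW r)
      refine mul_le_mul_of_nonneg_left ?_ (Real.exp_pos _).le
      rw [add_comm]
      exact Real.add_one_le_exp _
    have hex : ∃ φ, (∑ r ∈ S, (W r * (if X φ r = 0 then 1 else 1 + t)) * Real.exp (t * h r)) ≤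
        ∑ r ∈ S, W r * Real.exp (t * (h r + ∑ φ, μ φ * ind r (sepE f (F φ) u v))) := by
      by_contra hcon
      push Not at hcon
      set T := ∑ r ∈ S, W r * Real.exp (t * (h r + ∑ φ, μ φ * ind r (sepE f (F φ) u v))) with hT
      have e1 : T = ∑ φ, μ φ * T := by rw [← Finset.sum_mul, hμ1, one_mul]
      obtain ⟨φ0, hφ0⟩ : ∃ φ, μ φ ≠ 0 := by
        by_contra hc
        push Not at hc
        rw [Finset.sum_eq_zero (fun φ _ => hc φ)] at hμ1
        exact zero_ne_one hμ1
      have e2 : ∑ φ, μ φ * T < ∑ φ, μ φ *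
          (∑ r ∈ S, (W r * (if X φ r = 0 then 1 else 1 + t)) * Real.exp (t * h r)) := by
        refine Finset.sum_lt_sum (fun φ _ => mul_le_mul_of_nonneg_left (hcon φ).le (hμ0 φ))
          ⟨φ0, Finset.mem_univ _, ?_⟩
        exact mul_lt_mul_of_pos_left (hcon φ0) (lt_of_le_of_ne (hμ0 φ0) (Ne.symm hφ0))
      exact absurd (e1.le.trans_lt e2) (not_lt.mpr hav)
    obtain ⟨φ, hφ⟩ := hex
    refine ⟨X φ :: L φ, ?_, ?_⟩
    · rw [Z_idt_closing huv (fun e he => x1 φ e (fun h => he (h3 φ (hsepF φ h)))) (x2 φ),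
        ← l1 φ, ← Submodule.span_union]
      congr 1
      ext c
      simp only [List.mem_cons, Set.mem_ofPred_eq, Set.mem_union, Set.mem_singleton_iff]
      tauto
    · refine le_trans (le_of_eq ?_) ((l2 φ).trans hφ)
      refine Finset.sum_congr rfl fun r _ => ?_
      rw [cnt_cons]
      by_cases h9 : X φ r = 0
      · rw [if_pos h9, if_pos h9, zero_add, mul_one]
      · rw [if_neg h9, if_neg h9, pow_add, pow_one, mul_assoc]

/-- **Identification of terminals** preserves the second invariant. -/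
theorem P2.ident {t : ℝ} (ht : 0 ≤ t) {K : ℕ} {f : E → V × V} {S : Finset E} {A A' : Finset V}
    {u v : V} (huA : u ∈ A) (hvA : v ∈ A) (huv : u ≠ v) (hcard : A.card ≤ K)
    (hA' : ∀ a ∈ A', a ∈ A ∧ a ≠ v) (hP : P2 t K f S A) :
    P2 t K (mp (idt u v) f) S A' := by
  by_cases hcl : Conn f S u v
  · exact hP.ident_closing ht huA hvA huv hcard hA' hcl
  · exact hP.ident_nonclosing huA hvA huv hA' hcl

end Pool.Agent.U389.BN
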