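import Pool.Agent.U389.BN.Ident

/-!
# Gluing two graphs along common terminals
-/

namespace Pool.Agent.U389.BN

open scoped Classical

variable {V E : Type*} [Fintype E]

/-- glue the second copy of `Z` to the first -/
noncomputable def gl (Z : Finset V) : V ⊕ V → V ⊕ V
  | Sum.inl x => Sum.inl x
  | Sum.inr x => if x ∈ Z then Sum.inl x else Sum.inr x

/-- two disjoint copies -/
noncomputable def dbl (f : E → V × V) (S1 : Finset E) : E → (V ⊕ V) × (V ⊕ V) :=
  fun e => if e ∈ S1 then mp Sum.inl f e else mp Sum.inr f e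

omit [Fintype E] in
theorem idt_gl {inst : DecidableEq (V ⊕ V)} {a : V} {Z : Finset V} (ha : a ∉ Z) (x : V ⊕ V) :
    @idt (V ⊕ V) inst (Sum.inl a) (Sum.inr a) (gl Z x) = gl (insert a Z) x := by
  rcases x with x | x
  · have h1 : gl Z (Sum.inl x : V ⊕ V) ≠ Sum.inr a := by simp [gl]
    rw [@idt_of_ne (V ⊕ V) inst _ _ _ h1]
    simp [gl]
  · by_cases hx : x ∈ Z
    · have h1 : gl Z (Sum.inr x : V ⊕ V) ≠ Sum.inr a := by simp [gl, hx]
      rw [@idt_of_ne (V ⊕ V) inst _ _ _ h1]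
      simp [gl, hx]
    · by_cases hxa : x = a
      · subst hxa
        simp only [gl, if_neg hx]
        rw [@idt_v (V ⊕ V) inst]
        simp
      · have h1 : gl Z (Sum.inr x : V ⊕ V) ≠ Sum.inr a := by simp [gl, hx, hxa]
        rw [@idt_of_ne (V ⊕ V) inst _ _ _ h1]
        simp [gl, hx, hxa]

theorem P.join_aux {K : ℕ} {f : E → V × V} {S1 S2 : Finset E}
    {A1 A2 : Finset V} (hcard : A1.card + A2.card ≤ K)
    (hP : P K (2 * K ^ 2 + 1) (dbl f S1) (S1 ∪ S2) (A1.image Sum.inl ∪ A2.image Sum.inr))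
    (Z : Finset V) (hZ : Z ⊆ A1 ∩ A2) :
    P K (2 * K ^ 2 + 1) (mp (gl Z) (dbl f S1)) (S1 ∪ S2)
      (A1.image Sum.inl ∪ (A2 \ Z).image Sum.inr) := by
  induction Z using Finset.induction_on with
  | empty =>
    refine P.congr (fun e _ => ?_) (hP.forget ?_)
    · have h1 : ∀ x : V ⊕ V, gl (∅ : Finset V) x = x := by
        rintro (x | x) <;> simp [gl]
      simp [mp, h1]
    · intro x hx
      simpa using hx
  | insert a Z ha ih =>
    have ih' := ih ((Finset.subset_insert a Z).trans hZ)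
    have haZ : a ∈ A1 ∩ A2 := hZ (Finset.mem_insert_self a Z)
    rw [Finset.mem_inter] at haZ
    have h1 := P.ident (u := (Sum.inl a : V ⊕ V)) (v := Sum.inr a)
      (A' := A1.image Sum.inl ∪ (A2 \ insert a Z).image Sum.inr) (by simp [haZ.1])
      (by simp [haZ.2, ha]) (by simp) (by
        refine (Finset.card_union_le _ _).trans ?_
        refine le_trans (add_le_add Finset.card_image_le Finset.card_image_le) ?_
        refine le_trans (add_le_add le_rfl (Finset.card_le_card Finset.sdiff_subset)) hcard)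
      (by
        rintro (x | x) hx
        · simpa using hx
        · simp only [Finset.mem_union, Finset.mem_image, reduceCtorEq, and_false, exists_false,
            false_or, Sum.inr.injEq, exists_eq_right, Finset.mem_sdiff, Finset.mem_insert,
            not_or] at hx ⊢
          exact ⟨⟨hx.1, hx.2.2⟩, by simpa using hx.2.1⟩) ih'
    refine P.congr (fun e _ => ?_) h1
    refine Prod.ext ?_ ?_
    · rw [mp_fst, mp_fst, mp_fst]
      exact idt_gl ha _
    · rw [mp_snd, mp_snd, mp_snd]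
      exact idt_gl ha _

/-- **Join lemma.** -/
theorem P.join {K : ℕ} (hK : 0 < K) {f : E → V × V} {S1 S2 : Finset E}
    {A1 A2 : Finset V} {W1 W2 : Set V} (hcard : A1.card + A2.card ≤ K)
    (hW1 : ∀ e ∈ S1, (f e).1 ∈ W1 ∧ (f e).2 ∈ W1) (hW2 : ∀ e ∈ S2, (f e).1 ∈ W2 ∧ (f e).2 ∈ W2)
    (hA1 : ∀ a ∈ A1, a ∈ W1) (hA2 : ∀ a ∈ A2, a ∈ W2)
    (hint : ∀ x, x ∈ W1 → x ∈ W2 → x ∈ A1 ∧ x ∈ A2) (hS : Disjoint S1 S2)
    (hP1 : P K (2 * K ^ 2 + 1) f S1 A1) (hP2 : P K (2 * K ^ 2 + 1) f S2 A2) :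
    P K (2 * K ^ 2 + 1) f (S1 ∪ S2) (A1 ∪ A2) := by
  have h1 : P K (2 * K ^ 2 + 1) (dbl f S1) S1 (A1.image Sum.inl) := by
    refine P.congr (f := mp Sum.inl f) (fun e he => by simp [dbl, he]) ?_
    refine (hP1.map (Sum.inl : V → V ⊕ V) hW1 hA1 Sum.inl_injective.injOn).forget ?_
    intro x hx
    simpa using hx
  have h2 : P K (2 * K ^ 2 + 1) (dbl f S1) S2 (A2.image Sum.inr) := by
    refine P.congr (f := mp Sum.inr f)
      (fun e he => by simp [dbl, Finset.disjoint_right.mp hS he]) ?_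
    refine (hP2.map (Sum.inr : V → V ⊕ V) hW2 hA2 Sum.inr_injective.injOn).forget ?_
    intro x hx
    simpa using hx
  have h3 : P K (2 * K ^ 2 + 1) (dbl f S1) (S1 ∪ S2)
      (A1.image Sum.inl ∪ A2.image Sum.inr) := by
    refine (P.disjUnion hK (W1 := Set.range Sum.inl) (W2 := Set.range Sum.inr) ?_ ?_ ?_ ?_ ?_
      h1 h2).forget ?_
    · intro e he
      simp [dbl, he, mp]
    · intro e he
      simp [dbl, Finset.disjoint_right.mp hS he, mp]
    · intro a ha
      obtain ⟨x, _, rfl⟩ := Finset.mem_image.mp ha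
      exact ⟨x, rfl⟩
    · intro a ha
      obtain ⟨x, _, rfl⟩ := Finset.mem_image.mp ha
      exact ⟨x, rfl⟩
    · rw [Set.disjoint_left]
      rintro _ ⟨x, rfl⟩ ⟨y, hy⟩
      cases hy
    · intro x hx
      simpa using hx
  have h4 := P.join_aux hcard h3 (A1 ∩ A2) subset_rfl
  have h5 := h4.map (Sum.elim id id : V ⊕ V → V)
    (W := {z | (∃ x ∈ W1, z = Sum.inl x) ∨ ∃ x ∈ W2, x ∉ A1 ∩ A2 ∧ z = Sum.inr x}) ?_ ?_ ?_
  · refine P.congr (fun e he => ?_) (h5.forget ?_)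
    · by_cases he1 : e ∈ S1
      · simp [mp, dbl, he1, gl]
      · by_cases hx : (f e).1 ∈ A1 ∩ A2 <;> by_cases hy : (f e).2 ∈ A1 ∩ A2 <;>
          simp [mp, dbl, he1, gl, hx, hy]
    · intro x hx
      simp only [Finset.mem_image, Finset.mem_union, Finset.mem_sdiff, Finset.mem_inter]
      rcases Finset.mem_union.mp hx with h | h
      · exact ⟨Sum.inl x, Or.inl ⟨x, h, rfl⟩, rfl⟩
      · by_cases h' : x ∈ A1
        · exact ⟨Sum.inl x, Or.inl ⟨x, h', rfl⟩, rfl⟩
        · exact ⟨Sum.inr x, Or.inr ⟨x, ⟨h, fun h'' => h' h''.1⟩, rfl⟩, rfl⟩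
  · intro e he
    by_cases he1 : e ∈ S1
    · obtain ⟨a1, a2⟩ := hW1 e he1
      simp only [mp, dbl, if_pos he1, gl]
      exact ⟨Or.inl ⟨_, a1, rfl⟩, Or.inl ⟨_, a2, rfl⟩⟩
    · obtain ⟨a1, a2⟩ := hW2 e ((Finset.mem_union.mp he).resolve_left he1)
      have key : ∀ x ∈ W2, gl (A1 ∩ A2) (Sum.inr x) ∈
          {z : V ⊕ V | (∃ x ∈ W1, z = Sum.inl x) ∨ ∃ x ∈ W2, x ∉ A1 ∩ A2 ∧ z = Sum.inr x} := by
        intro x hx
        by_cases h : x ∈ A1 ∩ A2
        · simp only [gl, if_pos h]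
          exact Or.inl ⟨x, hA1 x (Finset.mem_inter.mp h).1, rfl⟩
        · simp only [gl, if_neg h]
          exact Or.inr ⟨x, hx, h, rfl⟩
      simp only [mp, dbl, if_neg he1]
      exact ⟨key _ a1, key _ a2⟩
  · intro a ha
    simp only [Finset.mem_union, Finset.mem_image, Finset.mem_sdiff] at ha
    rcases ha with ⟨x, hx, rfl⟩ | ⟨x, ⟨hx, hx'⟩, rfl⟩
    · exact Or.inl ⟨x, hA1 x hx, rfl⟩
    · exact Or.inr ⟨x, hA2 x hx, hx', rfl⟩
  · rintro z hz z' hz' heq
    rcases hz with ⟨x, hx, rfl⟩ | ⟨x, hx, hx', rfl⟩ <;>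
      rcases hz' with ⟨y, hy, rfl⟩ | ⟨y, hy, hy', rfl⟩
    · simpa using heq
    · exfalso
      have h6 : x = y := by simpa using heq
      subst h6
      exact hy' (Finset.mem_inter.mpr (hint x hx hy))
    · exfalso
      have h6 : x = y := by simpa using heq
      subst h6
      exact hx' (Finset.mem_inter.mpr (hint x hy hx))
    · simpa using heq

end Pool.Agent.U389.BN
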