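import Pool.Agent.U389.BN.Forest
import Pool.Agent.U389.BN.Cyc

/-!
# The invariant `P` and its simple closure properties
-/

namespace Pool.Agent.U389.BN

open scoped Classical

variable {V E : Type*}

/-- Indicator of membership in a set of edges. -/
noncomputable def ind (r : E) (J : Finset E) : ℝ := if r ∈ J then 1 else 0

theorem ind_mem {r : E} {J : Finset E} (h : r ∈ J) : ind r J = 1 := if_pos h

theorem ind_not_mem {r : E} {J : Finset E} (h : r ∉ J) : ind r J = 0 := if_neg h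

theorem ind_nonneg (r : E) (J : Finset E) : 0 ≤ ind r J := by
  unfold ind; split_ifs <;> norm_num

theorem ind_le_one (r : E) (J : Finset E) : ind r J ≤ 1 := by
  unfold ind; split_ifs <;> norm_num

theorem ind_mono {J J' : Finset E} (h : J ⊆ J') (r : E) : ind r J ≤ ind r J' := by
  by_cases hr : r ∈ J
  · rw [ind_mem hr, ind_mem (h hr)]
  · rw [ind_not_mem hr]; exact ind_nonneg _ _

/-- The number of members of the list `L` using the edge `r` (as a real number). -/
noncomputable def load (L : List (E → ZMod 2)) (r : E) : ℝ :=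
  (L.map (fun c => if c r = 0 then (0 : ℝ) else 1)).sum

variable [Fintype E]

/-- The rounding property: fractional connectors can be rounded, together with a generating set
of the cycle space, without increasing the load bound. -/
def RP (f : E → V × V) (S : Finset E) (A : Finset V) (R : ℝ) (h : E → ℝ) : Prop :=
  ∀ (I Ω : Type) [Fintype I] [Fintype Ω] (D : I → V × V) (w : I → Ω → ℝ)
    (J : I → Ω → Finset E) (C : ℝ),
    (∀ i, (D i).1 ∈ A ∧ (D i).2 ∈ A) →
    (∀ i ω, 0 ≤ w i ω) → (∀ i, ∑ ω, w i ω = 1) →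
    (∀ i ω, w i ω ≠ 0 → J i ω ⊆ S ∧ Conn f (J i ω) (D i).1 (D i).2) →
    (∀ r ∈ S, (∑ i, ∑ ω, w i ω * ind r (J i ω)) + R * h r ≤ C) →
    ∃ (Q : I → Finset E) (L : List (E → ZMod 2)),
      (∀ i, Q i ⊆ S ∧ Conn f (Q i) (D i).1 (D i).2) ∧
      Submodule.span (ZMod 2) {c | c ∈ L} = Z f S ∧
      ∀ r ∈ S, (∑ i, ind r (Q i)) + load L r ≤ C

/-- The invariant. -/
def P (K : ℕ) (R : ℝ) (f : E → V × V) (S : Finset E) (A : Finset V) : Prop :=
  ∃ (Φ : Type) (_ : Fintype Φ) (lam : Φ → ℝ) (F : Φ → Finset E) (h : E → ℝ),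
    (∀ φ, 0 ≤ lam φ) ∧ (∑ φ, lam φ = K) ∧ (∀ φ, F φ ⊆ S) ∧ (∀ φ, Acyc f (F φ)) ∧
    (∀ φ, ∀ a ∈ A, ∀ b ∈ A, Conn f S a b → Conn f (F φ) a b) ∧
    (∀ r ∈ S, h r + (∑ φ, lam φ * ind r (F φ)) ≤ K) ∧
    RP f S A R h

theorem exists_ne_zero {I Ω : Type} [Fintype Ω] {w : I → Ω → ℝ} (hw : ∀ i, ∑ ω, w i ω = 1)
    (i : I) : ∃ ω, w i ω ≠ 0 := by
  by_contra hcon
  push Not at hcon
  have := hw i
  rw [Finset.sum_eq_zero (fun ω _ => hcon ω)] at this
  exact zero_ne_one this

omit [Fintype E] in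
theorem conn_empty {f : E → V × V} {x y : V} : Conn f ∅ x y ↔ x = y := by
  constructor
  · intro h
    refine Conn.rel (f := f) (J := ∅) Eq (fun _ => rfl) (fun _ _ h => h.symm)
      (fun _ _ _ h h' => h.trans h') ?_ h
    intro e he
    simp at he
  · rintro rfl
    exact Conn.refl _

theorem Z_empty {f : E → V × V} : Z f (∅ : Finset E) = ⊥ := by
  rw [eq_bot_iff]
  intro c hc
  rw [Submodule.mem_bot]
  funext e
  exact hc.1 e (by simp)

theorem P_empty (K : ℕ) (R : ℝ) (f : E → V × V) (A : Finset V) : P K R f ∅ A := by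
  refine ⟨Unit, inferInstance, fun _ => (K : ℝ), fun _ => ∅, fun _ => 0, fun _ => by positivity,
    by simp, fun _ => by simp, fun _ r hr => by simp at hr, fun _ a _ b _ h => h,
    fun r hr => by simp at hr, ?_⟩
  intro I Ω _ _ D w J C hD hw0 hw1 hJ hC
  refine ⟨fun _ => ∅, [], fun i => ⟨by simp, ?_⟩, by simp [Z_empty], fun r hr => by simp at hr⟩
  obtain ⟨ω, hω⟩ := exists_ne_zero hw1 i
  obtain ⟨h1, h2⟩ := hJ i ω hω
  rw [Finset.subset_empty] at h1
  rwa [h1] at h2

theorem P.forget {K : ℕ} {R : ℝ} {f : E → V × V} {S : Finset E} {A A' : Finset V}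
    (h : P K R f S A) (hA : A' ⊆ A) : P K R f S A' := by
  obtain ⟨Φ, iΦ, lam, F, h, h1, h2, h3, h4, h5, h6, h7⟩ := h
  refine ⟨Φ, iΦ, lam, F, h, h1, h2, h3, h4, fun φ a ha b hb => h5 φ a (hA ha) b (hA hb), h6, ?_⟩
  intro I Ω _ _ D w J C hD
  exact h7 I Ω D w J C (fun i => ⟨hA (hD i).1, hA (hD i).2⟩)

theorem P_single (K : ℕ) (R : ℝ) (f : E → V × V) (e : E) (he : (f e).1 ≠ (f e).2)
    (A : Finset V) : P K R f {e} A := by
  refine ⟨Unit, inferInstance, fun _ => (K : ℝ), fun _ => {e}, fun _ => 0,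
    fun _ => by positivity, by simp, fun _ => subset_rfl, fun _ r hr => ?_,
    fun _ a _ b _ h => h, fun r hr => ?_, ?_⟩
  · rw [Finset.mem_singleton] at hr
    subst hr
    rw [Finset.erase_singleton, conn_empty]
    exact he
  · simp [ind_mem hr]
  · intro I Ω _ _ D w J C hD hw0 hw1 hJ hC
    have hJ' : ∀ i, (D i).1 ≠ (D i).2 → ∀ ω, w i ω ≠ 0 → J i ω = {e} := by
      intro i hi ω hω
      obtain ⟨h1, h2⟩ := hJ i ω hω
      rcases Finset.subset_singleton_iff.mp h1 with h3 | h3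
      · rw [h3, conn_empty] at h2
        exact absurd h2 hi
      · exact h3
    refine ⟨fun i => if (D i).1 = (D i).2 then ∅ else {e}, [], fun i => ?_, ?_, fun r hr => ?_⟩
    · dsimp only
      split_ifs with h
      · exact ⟨by simp, by rw [h]; exact Conn.refl _⟩
      · refine ⟨subset_rfl, ?_⟩
        obtain ⟨ω, hω⟩ := exists_ne_zero hw1 i
        have := (hJ i ω hω).2
        rwa [hJ' i h ω hω] at this
    · have : {c : E → ZMod 2 | c ∈ ([] : List (E → ZMod 2))} = ∅ := by ext; simp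
      rw [this, Submodule.span_empty, eq_comm, eq_bot_iff]
      intro c hc
      rw [Submodule.mem_bot]
      funext e'
      by_cases h : e' = e
      · subst h
        have h1 := hc.2 (Pi.single (f e').1 1)
        unfold bd at h1
        rw [Finset.sum_eq_single e'] at h1
        · rw [Pi.single_eq_same, Pi.single_eq_of_ne he.symm, add_zero, mul_one] at h1
          exact h1
        · intro b _ hb
          rw [hc.1 b (by simpa using hb), zero_mul]
        · simp
      · exact hc.1 e' (by simpa using h)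
    · refine le_trans ?_ (hC r hr)
      rw [Finset.mem_singleton] at hr
      subst hr
      simp only [load, List.map_nil, List.sum_nil, add_zero, mul_zero]
      refine Finset.sum_le_sum fun i _ => ?_
      by_cases h : (D i).1 = (D i).2
      · rw [if_pos h, ind_not_mem (by simp)]
        exact Finset.sum_nonneg fun ω _ => mul_nonneg (hw0 i ω) (ind_nonneg _ _)
      · rw [if_neg h, ind_mem (by simp), ← hw1 i]
        refine Finset.sum_le_sum fun ω _ => ?_
        by_cases hω : w i ω = 0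
        · simp [hω]
        · rw [hJ' i h ω hω, ind_mem (by simp), mul_one]

/-- Transfer of the invariant between two labelled graphs with the same structure. -/
theorem P.transfer {V' : Type*} {K : ℕ} {R : ℝ} {f : E → V × V} {f' : E → V' × V'}
    {S : Finset E} {A : Finset V} (g : V → V')
    (hconn : ∀ J ⊆ S, ∀ a ∈ A, ∀ b ∈ A, (Conn f J a b ↔ Conn f' J (g a) (g b)))
    (hacyc : ∀ F ⊆ S, Acyc f F → Acyc f' F) (hZ : Z f S = Z f' S)
    (h : P K R f S A) : P K R f' S (A.image g) := by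
  obtain ⟨Φ, iΦ, lam, F, h, h1, h2, h3, h4, h5, h6, h7⟩ := h
  refine ⟨Φ, iΦ, lam, F, h, h1, h2, h3, fun φ => hacyc _ (h3 φ) (h4 φ), ?_, h6, ?_⟩
  · intro φ a' ha' b' hb' hab
    obtain ⟨a, ha, rfl⟩ := Finset.mem_image.mp ha'
    obtain ⟨b, hb, rfl⟩ := Finset.mem_image.mp hb'
    exact (hconn _ (h3 φ) a ha b hb).mp (h5 φ a ha b hb ((hconn _ subset_rfl a ha b hb).mpr hab))
  · intro I Ω _ _ D w J C hD hw0 hw1 hJ hC
    have hD1 : ∀ i, ∃ a ∈ A, g a = (D i).1 := fun i => by simpa using (hD i).1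
    have hD2 : ∀ i, ∃ a ∈ A, g a = (D i).2 := fun i => by simpa using (hD i).2
    choose a ha ha' using hD1
    choose b hb hb' using hD2
    have hJ' : ∀ i ω, w i ω ≠ 0 → J i ω ⊆ S ∧ Conn f (J i ω) (a i) (b i) := by
      intro i ω hω
      obtain ⟨h8, h9⟩ := hJ i ω hω
      refine ⟨h8, ?_⟩
      rw [← ha', ← hb'] at h9
      exact (hconn _ h8 (a i) (ha i) (b i) (hb i)).mpr h9
    obtain ⟨Q, L, hQ, hL, hload⟩ := h7 I Ω (fun i => (a i, b i)) w J C (fun i => ⟨ha i, hb i⟩)
      hw0 hw1 hJ' hC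
    refine ⟨Q, L, fun i => ⟨(hQ i).1, ?_⟩, hL.trans hZ, hload⟩
    have := (hconn _ (hQ i).1 (a i) (ha i) (b i) (hb i)).mp (hQ i).2
    rwa [ha', hb'] at this

theorem P.congr {K : ℕ} {R : ℝ} {f f' : E → V × V} {S : Finset E} {A : Finset V}
    (hf : ∀ e ∈ S, f e = f' e) (h : P K R f S A) : P K R f' S A := by
  have hf' : ∀ e ∈ S, f' e = f e := fun e he => (hf e he).symm
  have := P.transfer (f' := f') id (fun J hJ a _ b _ =>
    ⟨fun h => h.congr (fun e he => hf e (hJ he)), fun h => h.congr (fun e he => hf' e (hJ he))⟩)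
    (fun F hF hA r hr hc => hA r hr (by
      rw [hf r (hF hr)]
      exact hc.congr (fun e he => hf' e (hF (Finset.mem_of_mem_erase he)))))
    (Z_congr hf) h
  rwa [Finset.image_id] at this

theorem P.map {V' : Type*} {K : ℕ} {R : ℝ} {f : E → V × V} {S : Finset E} {A : Finset V}
    (g : V → V') {W : Set V} (hW : ∀ e ∈ S, (f e).1 ∈ W ∧ (f e).2 ∈ W) (hA : ∀ a ∈ A, a ∈ W)
    (hg : Set.InjOn g W) (h : P K R f S A) : P K R (mp g f) S (A.image g) := by
  refine P.transfer g (fun J hJ a ha b hb => ?_) (fun F hF hAc r hr hc => ?_)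
    (Z_mp_inj g hW hg).symm h
  · exact (conn_mp_inj g (fun e he => hW e (hJ he)) hg (hA a ha) (hA b hb)).symm
  · exact hAc r hr ((conn_mp_inj g (fun e he => hW e (hF (Finset.mem_of_mem_erase he))) hg
      (hW r (hF hr)).1 (hW r (hF hr)).2).mp hc)

end Pool.Agent.U389.BN
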