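import Pool.Agent.U389.BN.Join

/-!
# A second invariant: exponential moments
-/

namespace Pool.Agent.U389.BN

open scoped Classical

variable {V E : Type*} [Fintype E]

/-- Number of members of the list using the edge `r`. -/
def cnt (L : List (E → ZMod 2)) (r : E) : ℕ := (L.filter (fun c => c r ≠ 0)).length

omit [Fintype E] in
theorem cnt_append (L1 L2 : List (E → ZMod 2)) (r : E) :
    cnt (L1 ++ L2) r = cnt L1 r + cnt L2 r := by
  simp [cnt]

omit [Fintype E] in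
theorem cnt_cons (c : E → ZMod 2) (L : List (E → ZMod 2)) (r : E) :
    cnt (c :: L) r = (if c r = 0 then 0 else 1) + cnt L r := by
  by_cases h : c r = 0
  · simp [cnt, h]
  · simp [cnt, h]; ring

omit [Fintype E] in
theorem cnt_eq_zero {L : List (E → ZMod 2)} {r : E} (h : ∀ c ∈ L, c r = 0) : cnt L r = 0 := by
  unfold cnt
  rw [List.length_eq_zero_iff, List.filter_eq_nil_iff]
  intro c hc
  simp [h c hc]

/-- The moment property. -/
def MP (t : ℝ) (f : E → V × V) (S : Finset E) (h : E → ℝ) : Prop :=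
  ∀ W : E → ℝ, (∀ r, 0 ≤ W r) → ∃ L : List (E → ZMod 2),
    Submodule.span (ZMod 2) {c | c ∈ L} = Z f S ∧
    ∑ r ∈ S, W r * (1 + t) ^ cnt L r ≤ ∑ r ∈ S, W r * Real.exp (t * h r)

/-- The second invariant. -/
def P2 (t : ℝ) (K : ℕ) (f : E → V × V) (S : Finset E) (A : Finset V) : Prop :=
  ∃ (Φ : Type) (_ : Fintype Φ) (lam : Φ → ℝ) (F : Φ → Finset E) (h : E → ℝ),
    (∀ φ, 0 ≤ lam φ) ∧ (∑ φ, lam φ = K) ∧ (∀ φ, F φ ⊆ S) ∧ (∀ φ, Acyc f (F φ)) ∧
    (∀ φ, ∀ a ∈ A, ∀ b ∈ A, Conn f S a b → Conn f (F φ) a b) ∧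
    (∀ r ∈ S, h r + (∑ φ, lam φ * ind r (F φ)) ≤ K) ∧
    MP t f S h

theorem P2_empty (t : ℝ) (K : ℕ) (f : E → V × V) (A : Finset V) : P2 t K f ∅ A := by
  refine ⟨Unit, inferInstance, fun _ => (K : ℝ), fun _ => ∅, fun _ => 0, fun _ => by positivity,
    by simp, fun _ => by simp, fun _ r hr => by simp at hr, fun _ a _ b _ h => h,
    fun r hr => by simp at hr, ?_⟩
  intro W _
  exact ⟨[], by simp [Z_empty], by simp⟩

theorem Z_single {f : E → V × V} {e : E} (he : (f e).1 ≠ (f e).2) : Z f {e} = ⊥ := by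
  rw [eq_bot_iff]
  intro c hc
  rw [Submodule.mem_bot]
  funext e'
  by_cases h : e' = e
  · subst h
    have h1 := hc.2 (Pi.single (f e').1 1)
    unfold bd at h1
    rw [Finset.sum_eq_single e'] at h1
    · rw [Pi.single_eq_same, Pi.single_eq_of_ne he.symm, add_zero, mul_one] at h1
      exact h1
    · intro b _ hb
      rw [hc.1 b (by simpa using hb), zero_mul]
    · simp
  · exact hc.1 e' (by simpa using h)

theorem P2_single (t : ℝ) (K : ℕ) (f : E → V × V) (e : E) (he : (f e).1 ≠ (f e).2)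
    (A : Finset V) : P2 t K f {e} A := by
  refine ⟨Unit, inferInstance, fun _ => (K : ℝ), fun _ => {e}, fun _ => 0,
    fun _ => by positivity, by simp, fun _ => subset_rfl, fun _ r hr => ?_,
    fun _ a _ b _ h => h, fun r hr => ?_, ?_⟩
  · rw [Finset.mem_singleton] at hr
    subst hr
    rw [Finset.erase_singleton, conn_empty]
    exact he
  · simp [ind_mem hr]
  · intro W _
    refine ⟨[], ?_, ?_⟩
    · rw [Z_single he]
      simp
    · simp [cnt]

theorem P2.forget {t : ℝ} {K : ℕ} {f : E → V × V} {S : Finset E} {A A' : Finset V}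
    (h : P2 t K f S A) (hA : A' ⊆ A) : P2 t K f S A' := by
  obtain ⟨Φ, iΦ, lam, F, h, h1, h2, h3, h4, h5, h6, h7⟩ := h
  exact ⟨Φ, iΦ, lam, F, h, h1, h2, h3, h4, fun φ a ha b hb => h5 φ a (hA ha) b (hA hb), h6, h7⟩

theorem P2.transfer {V' : Type*} {t : ℝ} {K : ℕ} {f : E → V × V} {f' : E → V' × V'}
    {S : Finset E} {A : Finset V} (g : V → V')
    (hconn : ∀ J ⊆ S, ∀ a ∈ A, ∀ b ∈ A, (Conn f J a b ↔ Conn f' J (g a) (g b)))
    (hacyc : ∀ F ⊆ S, Acyc f F → Acyc f' F) (hZ : Z f S = Z f' S)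
    (h : P2 t K f S A) : P2 t K f' S (A.image g) := by
  obtain ⟨Φ, iΦ, lam, F, h, h1, h2, h3, h4, h5, h6, h7⟩ := h
  refine ⟨Φ, iΦ, lam, F, h, h1, h2, h3, fun φ => hacyc _ (h3 φ) (h4 φ), ?_, h6, ?_⟩
  · intro φ a' ha' b' hb' hab
    obtain ⟨a, ha, rfl⟩ := Finset.mem_image.mp ha'
    obtain ⟨b, hb, rfl⟩ := Finset.mem_image.mp hb'
    exact (hconn _ (h3 φ) a ha b hb).mp (h5 φ a ha b hb ((hconn _ subset_rfl a ha b hb).mpr hab))
  · intro W hW
    obtain ⟨L, l1, l2⟩ := h7 W hW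
    exact ⟨L, l1.trans hZ, l2⟩

theorem P2.congr {t : ℝ} {K : ℕ} {f f' : E → V × V} {S : Finset E} {A : Finset V}
    (hf : ∀ e ∈ S, f e = f' e) (h : P2 t K f S A) : P2 t K f' S A := by
  have hf' : ∀ e ∈ S, f' e = f e := fun e he => (hf e he).symm
  have := P2.transfer (f' := f') id (fun J hJ a _ b _ =>
    ⟨fun h => h.congr (fun e he => hf e (hJ he)), fun h => h.congr (fun e he => hf' e (hJ he))⟩)
    (fun F hF hA r hr hc => hA r hr (by
      rw [hf r (hF hr)]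
      exact hc.congr (fun e he => hf' e (hF (Finset.mem_of_mem_erase he)))))
    (Z_congr hf) h
  rwa [Finset.image_id] at this

theorem P2.map {V' : Type*} {t : ℝ} {K : ℕ} {f : E → V × V} {S : Finset E} {A : Finset V}
    (g : V → V') {W : Set V} (hW : ∀ e ∈ S, (f e).1 ∈ W ∧ (f e).2 ∈ W) (hA : ∀ a ∈ A, a ∈ W)
    (hg : Set.InjOn g W) (h : P2 t K f S A) : P2 t K (mp g f) S (A.image g) := by
  refine P2.transfer g (fun J hJ a ha b hb => ?_) (fun F hF hAc r hr hc => ?_)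
    (Z_mp_inj g hW hg).symm h
  · exact (conn_mp_inj g (fun e he => hW e (hJ he)) hg (hA a ha) (hA b hb)).symm
  · exact hAc r hr ((conn_mp_inj g (fun e he => hW e (hF (Finset.mem_of_mem_erase he))) hg
      (hW r (hF hr)).1 (hW r (hF hr)).2).mp hc)

end Pool.Agent.U389.BN
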