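import Mathlib

/-!
# The transport lemma
-/

namespace Pool.Agent.U389.BN

open scoped Classical

/-- Product coupling inside classes. -/
theorem coupling {I H X : Type*} [Fintype I] [Fintype H] [DecidableEq X] (α : I → X) (β : H → X) (μ : H → ℝ)
    (hμ : ∀ η, 0 ≤ μ η)
    (hcount : ∀ x, (∑ i, if α i = x then (1 : ℝ) else 0) = ∑ η, if β η = x then μ η else 0) :
    ∃ θ : I → H → ℝ, (∀ i η, 0 ≤ θ i η) ∧ (∀ i, ∑ η, θ i η = 1) ∧ (∀ η, ∑ i, θ i η = μ η) ∧
      ∀ i η, θ i η ≠ 0 → α i = β η := by
  set N : X → ℝ := fun x => ∑ i, if α i = x then (1 : ℝ) else 0 with hN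
  have hN0 : ∀ x, 0 ≤ N x := fun x => Finset.sum_nonneg fun i _ => by split_ifs <;> norm_num
  have hNpos : ∀ i, 0 < N (α i) := by
    intro i
    have h1 : (1 : ℝ) ≤ N (α i) := by
      have := Finset.single_le_sum (f := fun j => if α j = α i then (1 : ℝ) else 0)
        (fun j _ => by split_ifs <;> norm_num) (Finset.mem_univ i)
      rw [if_pos rfl] at this
      exact this
    linarith
  refine ⟨fun i η => if α i = β η then μ η / N (α i) else 0, ?_, ?_, ?_, ?_⟩
  · intro i η
    dsimp only
    split_ifs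
    · exact div_nonneg (hμ η) (hN0 _)
    · exact le_rfl
  · intro i
    have h1 : ∀ η, (if α i = β η then μ η / N (α i) else 0) =
        (if β η = α i then μ η else 0) / N (α i) := by
      intro η
      by_cases h : α i = β η
      · rw [if_pos h, if_pos h.symm]
      · rw [if_neg h, if_neg (fun h' => h h'.symm), zero_div]
    simp only [h1]
    rw [← Finset.sum_div, ← hcount]
    exact div_self (hNpos i).ne'
  · intro η
    have h1 : ∀ i, (if α i = β η then μ η / N (α i) else 0) =
        (if α i = β η then (1 : ℝ) else 0) * (μ η / N (β η)) := by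
      intro i
      by_cases h : α i = β η
      · rw [if_pos h, if_pos h, one_mul, h]
      · rw [if_neg h, if_neg h, zero_mul]
    simp only [h1]
    rw [← Finset.sum_mul]
    change N (β η) * (μ η / N (β η)) = μ η
    by_cases h0 : N (β η) = 0
    · rw [h0, zero_mul]
      have h2 : ∑ η', (if β η' = β η then μ η' else 0) = 0 := by
        rw [← hcount]; exact h0
      rw [Finset.sum_eq_zero_iff_of_nonneg (fun η' _ => by
        split_ifs
        · exact hμ η'
        · exact le_rfl)] at h2
      have := h2 η (Finset.mem_univ η)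
      rw [if_pos rfl] at this
      exact this.symm
    · field_simp
  · intro i η h
    by_contra hne
    exact h (if_neg hne)

/-- Labelling tokens with prescribed class counts. -/
theorem exists_labels {I T : Type*} [Fintype I] (τ : I → T) (p : T → Bool → ℕ)
    (hp : ∀ t, p t true + p t false ≤ (Finset.univ.filter (fun i => τ i = t)).card) :
    ∃ c : I → Option Bool, ∀ t s,
      (Finset.univ.filter (fun i => τ i = t ∧ c i = some s)).card = p t s := by
  have h1 : ∀ t, ∃ S1 ⊆ Finset.univ.filter (fun i => τ i = t), S1.card = p t true :=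
    fun t => Finset.exists_subset_card_eq (by have := hp t; omega)
  choose S1 hS1 hS1c using h1
  have h2 : ∀ t, ∃ S2 ⊆ Finset.univ.filter (fun i => τ i = t) \ S1 t, S2.card = p t false :=
    fun t => Finset.exists_subset_card_eq (by
      rw [Finset.card_sdiff_of_subset (hS1 t), hS1c]
      have := hp t; omega)
  choose S2 hS2 hS2c using h2
  refine ⟨fun i => if i ∈ S1 (τ i) then some true else if i ∈ S2 (τ i) then some false else none,
    ?_⟩
  intro t s
  cases s
  · rw [← hS2c]
    congr 1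
    ext i
    simp only [Finset.mem_filter, Finset.mem_univ, true_and]
    constructor
    · rintro ⟨rfl, h⟩
      by_cases h3 : i ∈ S1 (τ i)
      · simp [h3] at h
      · by_cases h4 : i ∈ S2 (τ i)
        · exact h4
        · simp [h3, h4] at h
    · intro h
      have h3 := hS2 t h
      rw [Finset.mem_sdiff, Finset.mem_filter] at h3
      obtain ⟨⟨_, h4⟩, h5⟩ := h3
      subst h4
      exact ⟨rfl, by rw [if_neg h5, if_pos h]⟩
  · rw [← hS1c]
    congr 1
    ext i
    simp only [Finset.mem_filter, Finset.mem_univ, true_and]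
    constructor
    · rintro ⟨rfl, h⟩
      by_cases h3 : i ∈ S1 (τ i)
      · exact h3
      · by_cases h4 : i ∈ S2 (τ i)
        · simp [h3, h4] at h
        · simp [h3, h4] at h
    · intro h
      have h3 := hS1 t h
      rw [Finset.mem_filter] at h3
      obtain ⟨_, h4⟩ := h3
      subst h4
      exact ⟨rfl, by rw [if_pos h]⟩

/-- **Transport lemma.** -/
theorem transport {I Ω : Type} {T : Type*} [Fintype I] [Fintype Ω] (τ : I → T) (TT : Finset T)
    (hTT : ∀ i, τ i ∈ TT) (w : I → Ω → ℝ) (hw0 : ∀ i ω, 0 ≤ w i ω)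
    (hw1 : ∀ i, ∑ ω, w i ω = 1) (κ : I → Ω → Option Bool) :
    ∃ (c : I → Option Bool) (θ : I → I × Ω → ℝ),
      (∀ i ξ, 0 ≤ θ i ξ) ∧ (∀ i, ∑ ξ, θ i ξ = 1) ∧ (∀ ξ, ∑ i, θ i ξ = w ξ.1 ξ.2) ∧
      (∀ i ξ, θ i ξ ≠ 0 → τ i = τ ξ.1 ∧ (c i = none ∨ κ ξ.1 ξ.2 = c i)) ∧
      (∑ i, ∑ ξ, (if c i = none ∧ κ ξ.1 ξ.2 ≠ none then θ i ξ else 0)) ≤ 2 * TT.card := by
  -- the mass of atoms of type `t` and label `x`
  set m : T → Option Bool → ℝ := fun t x =>
    ∑ ξ : I × Ω, if τ ξ.1 = t ∧ κ ξ.1 ξ.2 = x then w ξ.1 ξ.2 else 0 with hm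
  have hm0 : ∀ t x, 0 ≤ m t x := fun t x => Finset.sum_nonneg fun ξ _ => by
    split_ifs
    · exact hw0 _ _
    · exact le_rfl
  have hmsum : ∀ t, m t (some true) + m t (some false) + m t none =
      ((Finset.univ.filter (fun i => τ i = t)).card : ℝ) := by
    intro t
    simp only [hm]
    rw [← Finset.sum_add_distrib, ← Finset.sum_add_distrib, Finset.card_filter]
    push_cast
    rw [Fintype.sum_prod_type]
    refine Finset.sum_congr rfl fun i _ => ?_
    by_cases h : τ i = t
    · rw [if_pos h, ← hw1 i]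
      refine Finset.sum_congr rfl fun ω _ => ?_
      rcases hκ : κ i ω with _ | (_ | _) <;> simp [h]
    · simp [h]
  set p : T → Bool → ℕ := fun t s => ⌊m t (some s)⌋₊ with hp
  have hpm : ∀ t s, (p t s : ℝ) ≤ m t (some s) := fun t s => Nat.floor_le (hm0 _ _)
  have hmp : ∀ t s, m t (some s) ≤ p t s + 1 := fun t s => (Nat.lt_floor_add_one _).le
  have hpn : ∀ t, p t true + p t false ≤ (Finset.univ.filter (fun i => τ i = t)).card := by
    intro t
    have h1 := hpm t true
    have h2 := hpm t false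
    have h3 := hmsum t
    have h4 := hm0 t none
    have : ((p t true + p t false : ℕ) : ℝ) ≤
        ((Finset.univ.filter (fun i => τ i = t)).card : ℝ) := by
      push_cast
      linarith
    exact_mod_cast this
  obtain ⟨c, hc⟩ := exists_labels τ p hpn
  -- matched fraction
  set q : T → Option Bool → ℝ := fun t x => match x with
    | none => 0
    | some s => p t s / m t (some s) with hq
  have hq0 : ∀ t x, 0 ≤ q t x := by
    intro t x
    rcases x with _ | s
    · exact le_rfl
    · exact div_nonneg (Nat.cast_nonneg _) (hm0 _ _)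
  have hq1 : ∀ t x, q t x ≤ 1 := by
    intro t x
    rcases x with _ | s
    · exact zero_le_one
    · exact div_le_one_of_le₀ (hpm t s) (hm0 _ _)
  have hmq : ∀ t s, m t (some s) * q t (some s) = p t s := by
    intro t s
    change m t (some s) * (p t s / m t (some s)) = p t s
    by_cases h0 : m t (some s) = 0
    · have h1 := hpm t s
      rw [h0] at h1
      have h2 : (p t s : ℝ) = 0 := le_antisymm h1 (Nat.cast_nonneg _)
      rw [h2, h0]; simp
    · field_simp
  set μ : (I × Ω) × Bool → ℝ := fun η =>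
    if η.2 then w η.1.1 η.1.2 * q (τ η.1.1) (κ η.1.1 η.1.2)
    else w η.1.1 η.1.2 * (1 - q (τ η.1.1) (κ η.1.1 η.1.2)) with hμ
  set β : (I × Ω) × Bool → T × Option Bool := fun η =>
    if η.2 then (τ η.1.1, κ η.1.1 η.1.2) else (τ η.1.1, none) with hβ
  have hμ0 : ∀ η, 0 ≤ μ η := by
    intro η
    simp only [hμ]
    split_ifs
    · exact mul_nonneg (hw0 _ _) (hq0 _ _)
    · exact mul_nonneg (hw0 _ _) (by linarith [hq1 (τ η.1.1) (κ η.1.1 η.1.2)])
  -- masses of classes
  have hmass_some : ∀ t s, (∑ η, if β η = (t, some s) then μ η else 0) = p t s := by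
    intro t s
    rw [Fintype.sum_prod_type, ← hmq t s]
    simp only [hm]
    rw [Finset.sum_mul]
    refine Finset.sum_congr rfl fun ξ _ => ?_
    rw [Fintype.sum_bool]
    have h1 : β (ξ, true) = (τ ξ.1, κ ξ.1 ξ.2) := by simp [hβ]
    have h2 : β (ξ, false) = (τ ξ.1, none) := by simp [hβ]
    have h3 : μ (ξ, true) = w ξ.1 ξ.2 * q (τ ξ.1) (κ ξ.1 ξ.2) := by simp [hμ]
    rw [h1, h2, h3]
    by_cases h4 : τ ξ.1 = t ∧ κ ξ.1 ξ.2 = some s
    · rw [if_pos h4, h4.1, h4.2]
      simp
    · rw [if_neg h4, zero_mul, if_neg, if_neg, add_zero]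
      · simp
      · intro h5
        exact h4 (Prod.mk.inj h5)
  have hmass_all : ∀ t, (∑ η, if β η = (t, some true) then μ η else 0) +
      (∑ η, if β η = (t, some false) then μ η else 0) + (∑ η, if β η = (t, none) then μ η else 0)
      = ((Finset.univ.filter (fun i => τ i = t)).card : ℝ) := by
    intro t
    rw [← hmsum t, ← Finset.sum_add_distrib, ← Finset.sum_add_distrib, Fintype.sum_prod_type]
    simp only [hm]
    rw [← Finset.sum_add_distrib, ← Finset.sum_add_distrib]
    refine Finset.sum_congr rfl fun ξ _ => ?_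
    rw [Fintype.sum_bool]
    have h1 : β (ξ, true) = (τ ξ.1, κ ξ.1 ξ.2) := by simp [hβ]
    have h2 : β (ξ, false) = (τ ξ.1, none) := by simp [hβ]
    have h3 : μ (ξ, true) = w ξ.1 ξ.2 * q (τ ξ.1) (κ ξ.1 ξ.2) := by simp [hμ]
    have h4 : μ (ξ, false) = w ξ.1 ξ.2 * (1 - q (τ ξ.1) (κ ξ.1 ξ.2)) := by simp [hμ]
    rw [h1, h2, h3, h4]
    by_cases h5 : τ ξ.1 = t
    · rcases hκ : κ ξ.1 ξ.2 with _ | (_ | _) <;> simp [h5] <;> ring
    · simp [h5]
  have hcount : ∀ x : T × Option Bool,
      (∑ i, if (τ i, c i) = x then (1 : ℝ) else 0) = ∑ η, if β η = x then μ η else 0 := by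
    have hsome : ∀ t s, (∑ i, if (τ i, c i) = (t, some s) then (1 : ℝ) else 0) = p t s := by
      intro t s
      rw [← hc t s, Finset.card_filter]
      push_cast
      refine Finset.sum_congr rfl fun i _ => ?_
      simp only [Prod.mk.injEq]
    have hall : ∀ t, (∑ i, if (τ i, c i) = (t, some true) then (1 : ℝ) else 0) +
        (∑ i, if (τ i, c i) = (t, some false) then (1 : ℝ) else 0) +
        (∑ i, if (τ i, c i) = (t, none) then (1 : ℝ) else 0) =
        ((Finset.univ.filter (fun i => τ i = t)).card : ℝ) := by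
      intro t
      rw [← Finset.sum_add_distrib, ← Finset.sum_add_distrib, Finset.card_filter]
      push_cast
      refine Finset.sum_congr rfl fun i _ => ?_
      by_cases h5 : τ i = t
      · rcases hci : c i with _ | (_ | _) <;> simp [h5]
      · simp [h5]
    rintro ⟨t, x⟩
    rcases x with _ | s
    · have h1 := hall t
      have h2 := hmass_all t
      rw [hsome, hsome] at h1
      rw [hmass_some, hmass_some] at h2
      linarith
    · rw [hsome, hmass_some]
  obtain ⟨θ', t1, t2, t3, t4⟩ := coupling (fun i => (τ i, c i)) β μ hμ0 hcount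
  have ht4t : ∀ i ξ, θ' i (ξ, true) ≠ 0 → τ i = τ ξ.1 ∧ c i = κ ξ.1 ξ.2 := by
    intro i ξ h
    have h1 : β (ξ, true) = (τ ξ.1, κ ξ.1 ξ.2) := by simp [hβ]
    have := t4 i (ξ, true) h
    rw [h1] at this
    exact Prod.mk.inj this
  have ht4f : ∀ i ξ, θ' i (ξ, false) ≠ 0 → τ i = τ ξ.1 ∧ c i = none := by
    intro i ξ h
    have h1 : β (ξ, false) = (τ ξ.1, none) := by simp [hβ]
    have := t4 i (ξ, false) h
    rw [h1] at this
    exact Prod.mk.inj this
  refine ⟨c, fun i ξ => θ' i (ξ, true) + θ' i (ξ, false), ?_, ?_, ?_, ?_, ?_⟩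
  · intro i ξ
    exact add_nonneg (t1 _ _) (t1 _ _)
  · intro i
    rw [← t2 i, Fintype.sum_prod_type (fun η : (I × Ω) × Bool => θ' i η)]
    refine Finset.sum_congr rfl fun ξ _ => ?_
    rw [Fintype.sum_bool]
  · intro ξ
    rw [Finset.sum_add_distrib, t3, t3]
    simp only [hμ, if_true, Bool.false_eq_true, if_false]
    ring
  · intro i ξ h
    by_cases h1 : θ' i (ξ, true) = 0
    · have h2 : θ' i (ξ, false) ≠ 0 := by
        intro h2
        apply h
        dsimp only
        rw [h1, h2, add_zero]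
      obtain ⟨h3, h4⟩ := ht4f i ξ h2
      exact ⟨h3, Or.inl h4⟩
    · obtain ⟨h3, h4⟩ := ht4t i ξ h1
      exact ⟨h3, Or.inr h4.symm⟩
  · -- leftover
    have h1 : (∑ i, ∑ ξ : I × Ω, (if c i = none ∧ κ ξ.1 ξ.2 ≠ none then
        θ' i (ξ, true) + θ' i (ξ, false) else 0)) ≤
        ∑ ξ : I × Ω, if κ ξ.1 ξ.2 ≠ none then
          w ξ.1 ξ.2 * (1 - q (τ ξ.1) (κ ξ.1 ξ.2)) else 0 := by
      rw [Finset.sum_comm]
      refine Finset.sum_le_sum fun ξ _ => ?_
      by_cases hκ : κ ξ.1 ξ.2 = none
      · simp [hκ]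
      · rw [if_pos hκ]
        have h2 : w ξ.1 ξ.2 * (1 - q (τ ξ.1) (κ ξ.1 ξ.2)) = μ (ξ, false) := by simp [hμ]
        rw [h2, ← t3]
        refine Finset.sum_le_sum fun i _ => ?_
        by_cases hci : c i = none
        · have h3 : θ' i (ξ, true) = 0 := by
            by_contra h3
            exact hκ ((ht4t i ξ h3).2.symm.trans hci)
          rw [if_pos ⟨hci, hκ⟩, h3, zero_add]
        · rw [if_neg (fun h => hci h.1)]
          exact t1 _ _
    refine h1.trans ?_
    have h2 : (∑ ξ : I × Ω, if κ ξ.1 ξ.2 ≠ none then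
          w ξ.1 ξ.2 * (1 - q (τ ξ.1) (κ ξ.1 ξ.2)) else 0) =
        ∑ t ∈ TT, ((m t (some true) - p t true) + (m t (some false) - p t false)) := by
      have h3 : ∀ t s, m t (some s) - p t s =
          ∑ ξ : I × Ω, if τ ξ.1 = t ∧ κ ξ.1 ξ.2 = some s then
            w ξ.1 ξ.2 * (1 - q (τ ξ.1) (κ ξ.1 ξ.2)) else 0 := by
        intro t s
        rw [← hmq t s]
        have h4 : m t (some s) - m t (some s) * q t (some s) =
          m t (some s) * (1 - q t (some s)) := by ring
        rw [h4]
        simp only [hm]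
        rw [Finset.sum_mul]
        refine Finset.sum_congr rfl fun ξ _ => ?_
        by_cases h5 : τ ξ.1 = t ∧ κ ξ.1 ξ.2 = some s
        · rw [if_pos h5, if_pos h5, h5.1, h5.2]
        · rw [if_neg h5, if_neg h5, zero_mul]
      simp only [h3]
      simp only [← Finset.sum_add_distrib]
      rw [Finset.sum_comm]
      refine Finset.sum_congr rfl fun ξ _ => ?_
      rw [Finset.sum_eq_single (τ ξ.1)]
      · rcases hκ : κ ξ.1 ξ.2 with _ | (_ | _) <;> simp
      · intro t _ ht
        rw [if_neg (fun h => ht h.1.symm), if_neg (fun h => ht h.1.symm), add_zero]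
      · intro h
        exact absurd (hTT ξ.1) h
    rw [h2]
    have h5 : ∀ t ∈ TT, (m t (some true) - p t true) + (m t (some false) - p t false) ≤ (2 : ℝ) := by
      intro t _
      linarith [hmp t true, hmp t false]
    calc _ ≤ ∑ t ∈ TT, (2 : ℝ) := Finset.sum_le_sum h5
      _ = 2 * TT.card := by
        rw [Finset.sum_const, nsmul_eq_mul, mul_comm]

end Pool.Agent.U389.BN
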