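import Pool.Agent.U389.BN.Union
import Pool.Agent.U389.BN.Transport

/-!
# Splitting tokens at an identified vertex
-/

namespace Pool.Agent.U389.BN

open scoped Classical

variable {V E : Type*}

/-- the end met first by a connector crossing in direction `s` -/
def xs (u v : V) (s : Bool) : V := if s then u else v

/-- the end met second by a connector crossing in direction `s` -/
def ys (u v : V) (s : Bool) : V := if s then v else u

/-- The type of a connector with respect to the pair `u`, `v`. -/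
def Lab (f : E → V × V) (u v a b : V) (J : Finset E) : Option Bool → Prop
  | none => Conn f J a b
  | some s => Conn f J a (xs u v s) ∧ Conn f J (ys u v s) b ∧ ¬ Conn f J a b

theorem exists_lab {f : E → V × V} {u v a b : V} {J : Finset E}
    (h : Glue (Conn f J) u v a b) : ∃ x, Lab f u v a b J x := by
  by_cases hab : Conn f J a b
  · exact ⟨none, hab⟩
  · rcases h with h | ⟨h1, h2⟩ | ⟨h1, h2⟩
    · exact absurd h hab
    · exact ⟨some true, by simpa [Lab, xs, ys] using ⟨h1, h2, hab⟩⟩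
    · exact ⟨some false, by simpa [Lab, xs, ys] using ⟨h1, h2, hab⟩⟩

/-- the part of `J` reachable from `a` -/
noncomputable def part (f : E → V × V) (J : Finset E) (a : V) : Finset E :=
  J.filter (fun e => Conn f J a (f e).1)

theorem part_subset {f : E → V × V} {J : Finset E} {a : V} : part f J a ⊆ J :=
  Finset.filter_subset _ _

theorem Conn.part {f : E → V × V} {J : Finset E} {a x : V} (h : Conn f J a x) :
    Conn f (BN.part f J a) a x := by
  refine h.restrict fun e he hc => ?_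
  simp only [BN.part, Finset.mem_filter]
  exact ⟨he, hc⟩

theorem ind_part_add {f : E → V × V} {J : Finset E} {a b : V} (h : ¬ Conn f J a b) (r : E) :
    ind r (part f J a) + ind r (part f J b) ≤ ind r J := by
  by_cases h1 : r ∈ part f J a
  · have h2 : r ∉ part f J b := by
      intro h2
      simp only [part, Finset.mem_filter] at h1 h2
      exact h (h1.2.trans h2.2.symm)
    rw [ind_mem h1, ind_not_mem h2, ind_mem (part_subset h1), add_zero]
  · rw [ind_not_mem h1, zero_add]
    exact ind_mono part_subset r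

theorem ind_union_le (J J' : Finset E) (r : E) : ind r (J ∪ J') ≤ ind r J + ind r J' := by
  by_cases h1 : r ∈ J
  · rw [ind_mem h1]
    linarith [ind_le_one r (J ∪ J'), ind_nonneg r J']
  · by_cases h2 : r ∈ J'
    · rw [ind_mem h2]
      linarith [ind_le_one r (J ∪ J'), ind_nonneg r J]
    · rw [ind_not_mem (by simp [h1, h2])]
      linarith [ind_nonneg r J, ind_nonneg r J']

section

variable {I Ω Φ : Type}

/-- old tokens -/
def oldD (D : I → V × V) (c : I → Option Bool) (u v x0 y0 : V) : Option (I × Bool) → V × V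
  | none => (x0, y0)
  | some (i, false) => match c i with
    | none => D i
    | some s => ((D i).1, xs u v s)
  | some (i, true) => match c i with
    | none => ((D i).2, (D i).2)
    | some s => (ys u v s, (D i).2)

/-- old weights -/
def oldW (θ : I → I × Ω → ℝ) (μ : Φ → ℝ) : Option (I × Bool) → Option (I × Ω) × Φ → ℝ
  | none, (none, φ) => μ φ
  | none, (some _, _) => 0
  | some _, (none, _) => 0
  | some (i, _), (some ξ, φ) => θ i ξ * μ φ

/-- old connectors -/
noncomputable def oldJ (f : E → V × V) (D : I → V × V) (c : I → Option Bool)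
    (κ : I → Ω → Option Bool) (J : I → Ω → Finset E) (QQ : Φ → Finset E) :
    Option (I × Bool) → Option (I × Ω) × Φ → Finset E
  | none, (_, φ) => QQ φ
  | some _, (none, _) => ∅
  | some (i, false), (some ξ, φ) => match c i with
    | none => if κ ξ.1 ξ.2 = none then J ξ.1 ξ.2 else J ξ.1 ξ.2 ∪ QQ φ
    | some _ => part f (J ξ.1 ξ.2) (D i).1
  | some (i, true), (some ξ, _) => match c i with
    | none => ∅
    | some _ => part f (J ξ.1 ξ.2) (D i).2

variable [Fintype E] [Fintype I] [Fintype Ω] [Fintype Φ]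

theorem split_round {f : E → V × V} {S : Finset E} {A A' : Finset V} {u v : V} {R : ℝ}
    {h : E → ℝ} (hRP : RP f S A R h) (huA : u ∈ A) (hvA : v ∈ A)
    (hA' : ∀ a ∈ A', a ∈ A ∧ a ≠ v)
    (μ : Φ → ℝ) (hμ0 : ∀ φ, 0 ≤ μ φ) (hμ1 : ∑ φ, μ φ = 1) (QQ : Φ → Finset E)
    (hQQ : ∀ φ, QQ φ ⊆ S) (x0 y0 : V) (hx0 : x0 ∈ A) (hy0 : y0 ∈ A)
    (hxy : ∀ φ, Conn f (QQ φ) x0 y0)
    (D : I → V × V) (w : I → Ω → ℝ) (J : I → Ω → Finset E) (C T : ℝ)
    (hD : ∀ i, (D i).1 ∈ A' ∧ (D i).2 ∈ A')
    (c : I → Option Bool) (θ : I → I × Ω → ℝ) (κ : I → Ω → Option Bool)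
    (hκ : ∀ i ω, w i ω ≠ 0 → J i ω ⊆ S ∧ Lab f u v (D i).1 (D i).2 (J i ω) (κ i ω))
    (hθ0 : ∀ i ξ, 0 ≤ θ i ξ) (hθ1 : ∀ i, ∑ ξ, θ i ξ = 1) (hθw : ∀ ξ, ∑ i, θ i ξ = w ξ.1 ξ.2)
    (hθc : ∀ i ξ, θ i ξ ≠ 0 → D i = D ξ.1 ∧ (c i = none ∨ κ ξ.1 ξ.2 = c i))
    (hT : (∑ i, ∑ ξ, (if c i = none ∧ κ ξ.1 ξ.2 ≠ none then θ i ξ else 0)) ≤ T)
    (hclose : (∀ φ, Conn f (QQ φ) u v) ∨ (∀ i ξ, θ i ξ ≠ 0 → κ ξ.1 ξ.2 = c i))
    (hC : ∀ r ∈ S, (∑ i, ∑ ω, w i ω * ind r (J i ω)) + (T + 1) * (∑ φ, μ φ * ind r (QQ φ)) +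
      R * h r ≤ C) :
    ∃ (Q0 : Finset E) (Q : I → Finset E) (L : List (E → ZMod 2)),
      Q0 ⊆ S ∧ Conn f Q0 x0 y0 ∧
      (∀ i, Q i ⊆ S ∧ Conn (mp (idt u v) f) (Q i) (D i).1 (D i).2) ∧
      Submodule.span (ZMod 2) {c | c ∈ L} = Z f S ∧
      ∀ r ∈ S, ind r Q0 + (∑ i, ind r (Q i)) + load L r ≤ C := by
  -- facts about atoms with positive weight
  have hatom : ∀ i ξ, θ i ξ ≠ 0 → J ξ.1 ξ.2 ⊆ S ∧
      Lab f u v (D i).1 (D i).2 (J ξ.1 ξ.2) (κ ξ.1 ξ.2) := by
    intro i ξ hi
    have h1 : w ξ.1 ξ.2 ≠ 0 := by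
      rw [← hθw]
      intro h2
      rw [Finset.sum_eq_zero_iff_of_nonneg (fun j _ => hθ0 j ξ)] at h2
      exact hi (h2 i (Finset.mem_univ i))
    have h2 := hκ ξ.1 ξ.2 h1
    rw [(hθc i ξ hi).1]
    exact h2
  have g1 : ∀ j, (oldD D c u v x0 y0 j).1 ∈ A ∧ (oldD D c u v x0 y0 j).2 ∈ A := by
    have hx : ∀ s, xs u v s ∈ A := by intro s; cases s <;> simp [xs, huA, hvA]
    have hy : ∀ s, ys u v s ∈ A := by intro s; cases s <;> simp [ys, huA, hvA]
    rintro (_ | ⟨i, (_ | _)⟩)
    · exact ⟨hx0, hy0⟩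
    · have h1 := (hA' _ (hD i).1).1
      have h2 := (hA' _ (hD i).2).1
      rcases hci : c i with _ | s
      · simp only [oldD, hci]; exact ⟨h1, h2⟩
      · simp only [oldD, hci]; exact ⟨h1, hx s⟩
    · have h2 := (hA' _ (hD i).2).1
      rcases hci : c i with _ | s
      · simp only [oldD, hci]; exact ⟨h2, h2⟩
      · simp only [oldD, hci]; exact ⟨hy s, h2⟩
  have g2 : ∀ j ω, 0 ≤ oldW θ μ j ω := by
    rintro (_ | ⟨i, s⟩) ⟨(_ | ξ), φ⟩
    · exact hμ0 φ
    · exact le_rfl
    · exact le_rfl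
    · exact mul_nonneg (hθ0 i ξ) (hμ0 φ)
  have g3 : ∀ j, ∑ ω, oldW θ μ j ω = 1 := by
    rintro (_ | ⟨i, s⟩)
    · rw [Fintype.sum_prod_type, Fintype.sum_option]
      simp [oldW, hμ1]
    · rw [Fintype.sum_prod_type, Fintype.sum_option]
      simp only [oldW, Finset.sum_const_zero, zero_add, ← Finset.mul_sum, hμ1, mul_one]
      exact hθ1 i
  have g4 : ∀ j ω, oldW θ μ j ω ≠ 0 → oldJ f D c κ J QQ j ω ⊆ S ∧
      Conn f (oldJ f D c κ J QQ j ω) (oldD D c u v x0 y0 j).1 (oldD D c u v x0 y0 j).2 := by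
    rintro (_ | ⟨i, (_ | _)⟩) ⟨(_ | ξ), φ⟩ hne
    · exact ⟨hQQ φ, hxy φ⟩
    · exact absurd rfl hne
    · exact absurd rfl hne
    · have hθ : θ i ξ ≠ 0 := fun h0 => hne (by simp [oldW, h0])
      obtain ⟨a1, a2⟩ := hatom i ξ hθ
      rcases hci : c i with _ | s
      · simp only [oldD, oldJ, hci]
        by_cases hk : κ ξ.1 ξ.2 = none
        · rw [if_pos hk]
          rw [hk] at a2
          exact ⟨a1, a2⟩
        · rw [if_neg hk]
          refine ⟨Finset.union_subset a1 (hQQ φ), ?_⟩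
          rcases hclose with hclose | hclose
          · obtain ⟨s, hs⟩ := Option.ne_none_iff_exists'.mp hk
            rw [hs] at a2
            obtain ⟨b1, b2, -⟩ := a2
            have b3 : Conn f (QQ φ) (xs u v s) (ys u v s) := by
              cases s
              · exact (hclose φ).symm
              · exact hclose φ
            exact ((b1.mono Finset.subset_union_left).trans
              (b3.mono Finset.subset_union_right)).trans (b2.mono Finset.subset_union_left)
          · exact absurd ((hclose i ξ hθ).trans hci) hk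
      · simp only [oldD, oldJ, hci]
        have hk : κ ξ.1 ξ.2 = some s := by
          rcases (hθc i ξ hθ).2 with h1 | h1
          · rw [hci] at h1; cases h1
          · rw [h1, hci]
        rw [hk] at a2
        exact ⟨part_subset.trans a1, a2.1.part⟩
    · exact absurd rfl hne
    · have hθ : θ i ξ ≠ 0 := fun h0 => hne (by simp [oldW, h0])
      obtain ⟨a1, a2⟩ := hatom i ξ hθ
      rcases hci : c i with _ | s
      · simp only [oldD, oldJ, hci]
        exact ⟨by simp, Conn.refl _⟩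
      · simp only [oldD, oldJ, hci]
        have hk : κ ξ.1 ξ.2 = some s := by
          rcases (hθc i ξ hθ).2 with h1 | h1
          · rw [hci] at h1; cases h1
          · rw [h1, hci]
        rw [hk] at a2
        exact ⟨part_subset.trans a1, a2.2.1.symm.part.symm⟩
  have g5 : ∀ r ∈ S, (∑ j, ∑ ω, oldW θ μ j ω * ind r (oldJ f D c κ J QQ j ω)) + R * h r ≤ C := by
    intro r hr
    refine le_trans ?_ (hC r hr)
    refine add_le_add ?_ le_rfl
    rw [Fintype.sum_option, Fintype.sum_prod_type (fun x : I × Bool =>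
      ∑ ω, oldW θ μ (some x) ω * ind r (oldJ f D c κ J QQ (some x) ω))]
    have e1 : ∑ ω, oldW θ μ none ω * ind r (oldJ f D c κ J QQ none ω) =
        ∑ φ, μ φ * ind r (QQ φ) := by
      rw [Fintype.sum_prod_type, Fintype.sum_option]
      simp [oldW, oldJ]
    rw [e1]
    set ρ := ∑ φ, μ φ * ind r (QQ φ) with hρ
    have e2 : ∀ i, (∑ s, ∑ ω, oldW θ μ (some (i, s)) ω * ind r (oldJ f D c κ J QQ (some (i, s)) ω))
        ≤ ∑ ξ, (θ i ξ * ind r (J ξ.1 ξ.2) +
          (if c i = none ∧ κ ξ.1 ξ.2 ≠ none then θ i ξ else 0) * ρ) := by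
      intro i
      rw [Fintype.sum_bool]
      rw [Fintype.sum_prod_type, Fintype.sum_prod_type, Fintype.sum_option, Fintype.sum_option]
      simp only [oldW, zero_mul, Finset.sum_const_zero, zero_add]
      rw [← Finset.sum_add_distrib]
      refine Finset.sum_le_sum fun ξ _ => ?_
      by_cases hθ : θ i ξ = 0
      · simp [hθ]
      obtain ⟨a1, a2⟩ := hatom i ξ hθ
      rw [← Finset.sum_add_distrib]
      have e3 : ∀ φ, θ i ξ * μ φ * ind r (oldJ f D c κ J QQ (some (i, true)) (some ξ, φ)) +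
          θ i ξ * μ φ * ind r (oldJ f D c κ J QQ (some (i, false)) (some ξ, φ)) ≤
          μ φ * (θ i ξ * ind r (J ξ.1 ξ.2)) +
          (if c i = none ∧ κ ξ.1 ξ.2 ≠ none then θ i ξ else 0) * (μ φ * ind r (QQ φ)) := by
        intro φ
        have hpos : 0 ≤ θ i ξ * μ φ := mul_nonneg (hθ0 i ξ) (hμ0 φ)
        rcases hci : c i with _ | s
        · by_cases hk : κ ξ.1 ξ.2 = none
          · simp only [oldJ, hci, hk, if_true]
            rw [ind_not_mem (show r ∉ (∅ : Finset E) by simp)]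
            simp only [mul_zero, zero_add, ne_eq, not_true_eq_false, and_false, if_false, zero_mul,
              add_zero]
            apply le_of_eq; ring
          · simp only [oldJ, hci, if_neg hk]
            rw [ind_not_mem (show r ∉ (∅ : Finset E) by simp), if_pos ⟨trivial, hk⟩]
            have := mul_le_mul_of_nonneg_left (ind_union_le (J ξ.1 ξ.2) (QQ φ) r) hpos
            nlinarith [this]
        · have hk : κ ξ.1 ξ.2 = some s := by
            rcases (hθc i ξ hθ).2 with h1 | h1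
            · rw [hci] at h1; cases h1
            · rw [h1, hci]
          rw [hk] at a2
          simp only [oldJ, hci]
          rw [if_neg (by simp)]
          have := mul_le_mul_of_nonneg_left (ind_part_add a2.2.2 r) hpos
          nlinarith [this]
      refine (Finset.sum_le_sum fun φ _ => e3 φ).trans (le_of_eq ?_)
      rw [Finset.sum_add_distrib, ← Finset.sum_mul, hμ1, one_mul, ← Finset.mul_sum]
    have e4 : ∑ i, ∑ ξ, (θ i ξ * ind r (J ξ.1 ξ.2) +
          (if c i = none ∧ κ ξ.1 ξ.2 ≠ none then θ i ξ else 0) * ρ) =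
        (∑ i, ∑ ω, w i ω * ind r (J i ω)) +
        (∑ i, ∑ ξ, (if c i = none ∧ κ ξ.1 ξ.2 ≠ none then θ i ξ else 0)) * ρ := by
      simp only [Finset.sum_add_distrib, ← Finset.sum_mul]
      congr 1
      rw [Finset.sum_comm, Fintype.sum_prod_type]
      refine Finset.sum_congr rfl fun i _ => Finset.sum_congr rfl fun ω _ => ?_
      rw [← Finset.sum_mul, hθw]
    have hρ0 : 0 ≤ ρ := Finset.sum_nonneg fun φ _ => mul_nonneg (hμ0 φ) (ind_nonneg _ _)
    have e5 := Finset.sum_le_sum (s := Finset.univ) (fun i (_ : i ∈ Finset.univ) => e2 i)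
    rw [e4] at e5
    have e6 := mul_le_mul_of_nonneg_right hT hρ0
    linarith
  obtain ⟨Q, L, q1, q2, q3⟩ := hRP (Option (I × Bool)) (Option (I × Ω) × Φ)
    (oldD D c u v x0 y0) (oldW θ μ) (oldJ f D c κ J QQ) C g1 g2 g3 g4 g5
  refine ⟨Q none, fun i => Q (some (i, true)) ∪ Q (some (i, false)), L, (q1 none).1,
    (q1 none).2, ?_, q2, ?_⟩
  · intro i
    refine ⟨Finset.union_subset (q1 _).1 (q1 _).1, ?_⟩
    have ha := (hA' _ (hD i).1).2
    have hb := (hA' _ (hD i).2).2
    rw [conn_idt' ha hb]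
    have h1 := (q1 (some (i, true))).2
    have h2 := (q1 (some (i, false))).2
    rcases hci : c i with _ | s
    · simp only [oldD, hci] at h2
      exact Or.inl (h2.mono Finset.subset_union_right)
    · simp only [oldD, hci] at h1 h2
      cases s
      · exact Or.inr (Or.inr ⟨h2.mono Finset.subset_union_right,
          h1.mono Finset.subset_union_left⟩)
      · exact Or.inr (Or.inl ⟨h2.mono Finset.subset_union_right,
          h1.mono Finset.subset_union_left⟩)
  · intro r hr
    refine le_trans ?_ (q3 r hr)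
    rw [Fintype.sum_option, Fintype.sum_prod_type]
    refine add_le_add (add_le_add le_rfl (Finset.sum_le_sum fun i _ => ?_)) le_rfl
    rw [Fintype.sum_bool]
    exact ind_union_le _ _ r

end

end Pool.Agent.U389.BN
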