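import Pool.Agent.U389.BN.Join

/-!
# Merging the pieces of a tree decomposition
-/

namespace Pool.Agent.U389.BN

open scoped Classical

variable {V E : Type*} [Fintype E] {N : Type*}

omit [Fintype E] in
/-- reachability inside a set avoiding `y` survives deleting the edge `xy`. -/
theorem reach_delete {T : SimpleGraph N} {x y : N} {s : Set N} (hs : y ∉ s ∨ x ∉ s)
    {a b : N} (ha : a ∈ s) (hb : b ∈ s) (h : (T.induce s).Preconnected) :
    (T.deleteEdges {s(x, y)}).Reachable a b := by
  have h1 := h ⟨a, ha⟩ ⟨b, hb⟩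
  let φ : T.induce s →g T.deleteEdges {s(x, y)} :=
    { toFun := fun z => z.1
      map_rel' := by
        rintro ⟨p, hp⟩ ⟨q, hq⟩ hpq
        have hpq' : T.Adj p q := hpq
        rw [SimpleGraph.deleteEdges_adj]
        refine ⟨hpq', ?_⟩
        rw [Set.mem_singleton_iff, Sym2.eq_iff]
        rintro (⟨rfl, rfl⟩ | ⟨rfl, rfl⟩)
        · rcases hs with hs | hs
          · exact hs hq
          · exact hs hp
        · rcases hs with hs | hs
          · exact hs hp
          · exact hs hq }
  exact h1.map φ

omit [Fintype E] in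
/-- The key separation property of an edge of a tree. -/
theorem tree_sep {T : SimpleGraph N} (hT : T.IsAcyclic) {x y z : N} (hxy : T.Adj x y)
    {s s' : Set N} (hs : (T.induce s).Preconnected) (hs' : (T.induce s').Preconnected)
    (hx : x ∈ s) (hz : z ∈ s) (hy' : y ∈ s') (hz' : z ∈ s') (hx' : x ∉ s') : y ∈ s := by
  by_contra hy
  have h1 := (SimpleGraph.isAcyclic_iff_forall_adj_isBridge.mp hT) hxy
  rw [SimpleGraph.isBridge_iff] at h1
  apply h1
  exact (reach_delete (Or.inl hy) hx hz hs).trans (reach_delete (Or.inr hx') hz' hy' hs')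

/-- Merge all pieces of a tree decomposition. -/
theorem P.merge {K : ℕ} (hK : 0 < K) {T : SimpleGraph N} (hT : T.IsAcyclic)
    {f : E → V × V} (B : N → Finset V) (hB : ∀ v, (T.induce {x | v ∈ B x}).Preconnected)
    (hcard : ∀ x y, (B x).card + (B y).card ≤ K) (n : ℕ) :
    ∀ (U : Finset N), U.card = n + 1 → (T.induce (U : Set N)).Connected →
    ∀ (S : N → Finset E) (W : N → Set V),
      (∀ x ∈ U, P K (2 * K ^ 2 + 1) f (S x) (B x)) →
      (∀ x ∈ U, ∀ e ∈ S x, (f e).1 ∈ W x ∧ (f e).2 ∈ W x) →
      (∀ x ∈ U, ∀ v ∈ B x, v ∈ W x) →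
      (∀ x ∈ U, ∀ y ∈ U, x ≠ y → Disjoint (S x) (S y)) →
      (∀ x ∈ U, ∀ y ∈ U, x ≠ y → ∀ v, v ∈ W x → v ∈ W y → v ∈ B x ∧ v ∈ B y) →
      P K (2 * K ^ 2 + 1) f (U.biUnion S) ∅ := by
  induction n with
  | zero =>
    intro U hU _ S W h1 _ _ _ _
    obtain ⟨x, rfl⟩ := Finset.card_eq_one.mp hU
    rw [Finset.singleton_biUnion]
    exact (h1 x (by simp)).forget (by simp)
  | succ n ih =>
    intro U hU hconn S W h1 h2 h3 h4 h5
    have hnt : Nontrivial (U : Set N) := by
      rw [Set.nontrivial_coe_sort]
      have : 1 < U.card := by omega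
      exact Finset.one_lt_card_iff_nontrivial.mp this
    obtain ⟨⟨x, hxU⟩, hx⟩ :=
      hconn.exists_connected_induce_compl_singleton_of_finite_nontrivial
    have hxU' : x ∈ U := by simpa using hxU
    obtain ⟨⟨y, hyU⟩, hxy⟩ := hconn.preconnected.exists_adj_of_nontrivial ⟨x, hxU⟩
    have hyU' : y ∈ U := by simpa using hyU
    have hxy' : T.Adj x y := hxy
    have hne : x ≠ y := hxy'.ne
    have hconn' : (T.induce ((U.erase x : Finset N) : Set N)).Connected := by
      let φ : ((T.induce (U : Set N)).induce {(⟨x, hxU⟩ : (U : Set N))}ᶜ) →g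
          T.induce ((U.erase x : Finset N) : Set N) :=
        { toFun := fun z => ⟨z.1.1, by
            have hz1 := z.1.2
            have hz2 := z.2
            simp only [Set.mem_compl_iff, Set.mem_singleton_iff] at hz2
            simp only [Finset.coe_erase, Set.mem_sdiff, Set.mem_singleton_iff]
            refine ⟨hz1, fun h => hz2 (Subtype.ext h)⟩⟩
          map_rel' := by
            rintro p q hpq
            exact hpq }
      refine SimpleGraph.Connected.map φ ?_ hx
      rintro ⟨z, hz⟩
      have hz' : z ∈ U ∧ z ≠ x := by simpa [and_comm] using hz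
      refine ⟨⟨⟨z, by simpa using hz'.1⟩, ?_⟩, rfl⟩
      simp only [Set.mem_compl_iff, Set.mem_singleton_iff, Subtype.mk.injEq]
      exact hz'.2
    -- key separation property
    have hkey : ∀ z ∈ U, z ≠ x → ∀ v, v ∈ B x → v ∈ B z → v ∈ B y := by
      intro z hzU hzx v hvx hvz
      have := tree_sep hT hxy' (hB v) hconn'.preconnected (z := z) hvx hvz
        (by simp [hyU', hne.symm]) (by simp [hzU, hzx]) (by simp)
      exact this
    have hun : U.biUnion S = (U.erase x).biUnion (fun z => if z = y then S x ∪ S y else S z) := by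
      ext e
      simp only [Finset.mem_biUnion, Finset.mem_erase]
      constructor
      · rintro ⟨z, hz, he⟩
        by_cases hzx : z = x
        · subst hzx
          exact ⟨y, ⟨hne.symm, hyU'⟩, by simp [he]⟩
        · by_cases hzy : z = y
          · subst hzy
            exact ⟨z, ⟨hzx, hz⟩, by simp [he]⟩
          · exact ⟨z, ⟨hzx, hz⟩, by simp [he, hzy]⟩
      · rintro ⟨z, ⟨hzx, hz⟩, he⟩
        by_cases hzy : z = y
        · subst hzy
          rw [if_pos rfl, Finset.mem_union] at he
          rcases he with he | he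
          · exact ⟨x, hxU', he⟩
          · exact ⟨z, hz, he⟩
        · rw [if_neg hzy] at he
          exact ⟨z, hz, he⟩
    rw [hun]
    refine ih (U.erase x) (by rw [Finset.card_erase_of_mem hxU']; omega) hconn' _
      (fun z => if z = y then W x ∪ W y else W z) ?_ ?_ ?_ ?_ ?_
    · intro z hz
      obtain ⟨hzx, hzU⟩ := Finset.mem_erase.mp hz
      by_cases hzy : z = y
      · subst hzy
        simp only [if_true]
        refine (P.join hK (hcard x z) (h2 x hxU') (h2 z hzU) (h3 x hxU') (h3 z hzU)
          (h5 x hxU' z hzU hne) (h4 x hxU' z hzU hne) (h1 x hxU') (h1 z hzU)).forget ?_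
        exact Finset.subset_union_right
      · simp only [if_neg hzy]
        exact h1 z hzU
    · intro z hz e he
      obtain ⟨hzx, hzU⟩ := Finset.mem_erase.mp hz
      by_cases hzy : z = y
      · subst hzy
        simp only [if_true] at he ⊢
        rcases Finset.mem_union.mp he with he | he
        · exact ⟨Or.inl (h2 x hxU' e he).1, Or.inl (h2 x hxU' e he).2⟩
        · exact ⟨Or.inr (h2 z hzU e he).1, Or.inr (h2 z hzU e he).2⟩
      · simp only [if_neg hzy] at he ⊢
        exact h2 z hzU e he
    · intro z hz v hv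
      obtain ⟨hzx, hzU⟩ := Finset.mem_erase.mp hz
      by_cases hzy : z = y
      · subst hzy
        simp only [if_true]
        exact Or.inr (h3 z hzU v hv)
      · simp only [if_neg hzy]
        exact h3 z hzU v hv
    · intro z hz z' hz' hzz
      obtain ⟨hzx, hzU⟩ := Finset.mem_erase.mp hz
      obtain ⟨hzx', hzU'⟩ := Finset.mem_erase.mp hz'
      by_cases hzy : z = y
      · subst hzy
        simp only [if_true, if_neg hzz.symm]
        rw [Finset.disjoint_union_left]
        exact ⟨h4 x hxU' z' hzU' hzx'.symm, h4 z hzU z' hzU' hzz⟩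
      · by_cases hzy' : z' = y
        · subst hzy'
          simp only [if_true, if_neg hzy]
          rw [Finset.disjoint_union_right]
          exact ⟨h4 z hzU x hxU' hzx, h4 z hzU z' hzU' hzz⟩
        · simp only [if_neg hzy, if_neg hzy']
          exact h4 z hzU z' hzU' hzz
    · intro z hz z' hz' hzz v
      obtain ⟨hzx, hzU⟩ := Finset.mem_erase.mp hz
      obtain ⟨hzx', hzU'⟩ := Finset.mem_erase.mp hz'
      by_cases hzy : z = y
      · subst hzy
        simp only [if_true, if_neg hzz.symm]
        rintro (hv | hv) hv'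
        · obtain ⟨a1, a2⟩ := h5 x hxU' z' hzU' hzx'.symm v hv hv'
          exact ⟨hkey z' hzU' hzx' v a1 a2, a2⟩
        · exact h5 z hzU z' hzU' hzz v hv hv'
      · by_cases hzy' : z' = y
        · subst hzy'
          simp only [if_true, if_neg hzy]
          rintro hv (hv' | hv')
          · obtain ⟨a1, a2⟩ := h5 z hzU x hxU' hzx v hv hv'
            exact ⟨a1, hkey z hzU hzx v a2 a1⟩
          · exact h5 z hzU z' hzU' hzz v hv hv'
        · simp only [if_neg hzy, if_neg hzy']
          exact h5 z hzU z' hzU' hzz v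

/-- Graphs all of whose edges lie in one bag. -/
theorem P.bag {K : ℕ} {f : E → V × V} (hf : ∀ e, (f e).1 ≠ (f e).2) (B : Finset V)
    (hB : B.card + 2 ≤ K) (S : Finset E) (hS : ∀ e ∈ S, (f e).1 ∈ B ∧ (f e).2 ∈ B) :
    P K (2 * K ^ 2 + 1) f S B := by
  induction S using Finset.induction_on with
  | empty => exact P_empty _ _ _ _
  | insert e S he ih =>
    have ih' := ih fun e' he' => hS e' (Finset.mem_insert_of_mem he')
    have hends := hS e (Finset.mem_insert_self e S)
    have hc : ({(f e).1, (f e).2} : Finset V).card ≤ 2 := Finset.card_le_two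
    have := P.join (K := K) (by omega) (f := f) (S1 := {e}) (S2 := S)
      (A1 := {(f e).1, (f e).2}) (A2 := B) (W1 := {(f e).1, (f e).2}) (W2 := (B : Set V))
      (by omega) ?_ ?_ ?_ ?_ ?_ ?_ (P_single K _ f e (hf e) _) ih'
    · rw [Finset.insert_eq]
      exact this.forget Finset.subset_union_right
    · intro e' he'
      rw [Finset.mem_singleton] at he'
      subst he'
      simp
    · intro e' he'
      exact hS e' (Finset.mem_insert_of_mem he')
    · intro a ha
      simpa using ha
    · intro a ha
      exact ha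
    · intro x hx hx'
      exact ⟨by simpa using hx, hx'⟩
    · simpa using he

/-- **Main bound, abstract form.** -/
theorem main_bound {k : ℕ} (hk : 1 ≤ k) [Fintype N] {T : SimpleGraph N} (hT : T.IsTree)
    (B : N → Finset V) (hB : ∀ v, (T.induce {x | v ∈ B x}).Preconnected)
    (hcard : ∀ x, (B x).card ≤ k + 1) {f : E → V × V} (hf : ∀ e, (f e).1 ≠ (f e).2)
    (hedge : ∀ e, ∃ x, (f e).1 ∈ B x ∧ (f e).2 ∈ B x) :
    ∃ L : List (E → ZMod 2), Submodule.span (ZMod 2) {c | c ∈ L} = Z f Finset.univ ∧
      ∀ r, load L r ≤ 16 * ((k : ℝ) + 1) ^ 3 + 2 * ((k : ℝ) + 1) := by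
  choose asg hasg using hedge
  have hne : Nonempty N := hT.connected.nonempty
  have hcardN : 0 < Fintype.card N := Fintype.card_pos
  have hconn : (T.induce ((Finset.univ : Finset N) : Set N)).Connected := by
    let φ : T →g T.induce ((Finset.univ : Finset N) : Set N) :=
      { toFun := fun z => ⟨z, by simp⟩
        map_rel' := fun h => h }
    refine SimpleGraph.Connected.map φ ?_ hT.connected
    rintro ⟨z, hz⟩
    exact ⟨z, rfl⟩
  have h := P.merge (K := 2 * (k + 1)) (by omega) hT.isAcyclic (f := f) B hB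
    (fun x y => by have := hcard x; have := hcard y; omega) (Fintype.card N - 1) Finset.univ
    (by rw [Finset.card_univ]; omega) hconn
    (fun x => Finset.univ.filter (fun e => asg e = x)) (fun x => (B x : Set V))
    (fun x _ => P.bag hf (B x) (by have := hcard x; omega) _ (fun e he => by
      rw [Finset.mem_filter] at he
      rw [← he.2]
      exact hasg e))
    (fun x _ e he => by
      rw [Finset.mem_filter] at he
      rw [← he.2]
      exact hasg e)
    (fun x _ v hv => hv)
    (fun x _ y _ hxy => by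
      rw [Finset.disjoint_left]
      intro e h1 h2
      rw [Finset.mem_filter] at h1 h2
      exact hxy (h1.2.symm.trans h2.2))
    (fun x _ y _ _ v hv hv' => ⟨hv, hv'⟩)
  have huniv : (Finset.univ : Finset N).biUnion
      (fun x => Finset.univ.filter (fun e => asg e = x)) = (Finset.univ : Finset E) := by
    ext e
    simp
  rw [huniv] at h
  obtain ⟨Φ, iΦ, lam, F, hh, h1, h2, h3, h4, h5, h6, h7⟩ := h
  have hKR : (2 * ((2 * (k + 1) : ℕ) : ℝ) ^ 2 + 1) * ((2 * (k + 1) : ℕ) : ℝ) =
      16 * ((k : ℝ) + 1) ^ 3 + 2 * ((k : ℝ) + 1) := by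
    push_cast
    ring
  obtain ⟨Q, L, q1, q2, q3⟩ := h7 Empty Unit (fun i => i.elim) (fun i _ => i.elim)
    (fun i _ => i.elim) (16 * ((k : ℝ) + 1) ^ 3 + 2 * ((k : ℝ) + 1)) (fun i => i.elim)
    (fun i => i.elim) (fun i => i.elim) (fun i => i.elim) (fun r hr => by
      have h8 := h6 r hr
      have h9 : 0 ≤ ∑ φ, lam φ * ind r (F φ) :=
        Finset.sum_nonneg fun φ _ => mul_nonneg (h1 φ) (ind_nonneg _ _)
      have h10 : hh r ≤ ((2 * (k + 1) : ℕ) : ℝ) := by linarith
      rw [← hKR]
      simp only [Finset.univ_eq_empty, Finset.sum_empty, zero_add]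
      exact mul_le_mul_of_nonneg_left h10 (by positivity))
  refine ⟨L, q2, fun r => ?_⟩
  have := q3 r (Finset.mem_univ r)
  simpa using this

end Pool.Agent.U389.BN
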