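import Pool.Agent.U389.BN.Ident2
import Pool.Agent.U389.BN.TD

/-!
# Gluing and merging for the second invariant
-/

namespace Pool.Agent.U389.BN

open scoped Classical

variable {V E : Type*} [Fintype E] {N : Type*}

theorem P2.join_aux {t : ℝ} (ht : 0 ≤ t) {K : ℕ} {f : E → V × V} {S1 S2 : Finset E}
    {A1 A2 : Finset V} (hcard : A1.card + A2.card ≤ K)
    (hP : P2 t K (dbl f S1) (S1 ∪ S2) (A1.image Sum.inl ∪ A2.image Sum.inr))
    (Z : Finset V) (hZ : Z ⊆ A1 ∩ A2) :
    P2 t K (mp (gl Z) (dbl f S1)) (S1 ∪ S2)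
      (A1.image Sum.inl ∪ (A2 \ Z).image Sum.inr) := by
  induction Z using Finset.induction_on with
  | empty =>
    refine P2.congr (fun e _ => ?_) (hP.forget ?_)
    · have h1 : ∀ x : V ⊕ V, gl (∅ : Finset V) x = x := by
        rintro (x | x) <;> simp [gl]
      simp [mp, h1]
    · intro x hx
      simpa using hx
  | insert a Z ha ih =>
    have ih' := ih ((Finset.subset_insert a Z).trans hZ)
    have haZ : a ∈ A1 ∩ A2 := hZ (Finset.mem_insert_self a Z)
    rw [Finset.mem_inter] at haZ
    have h1 := P2.ident ht (u := (Sum.inl a : V ⊕ V)) (v := Sum.inr a)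
      (A' := A1.image Sum.inl ∪ (A2 \ insert a Z).image Sum.inr) (by simp [haZ.1])
      (by simp [haZ.2, ha]) (by simp) (by
        refine (Finset.card_union_le _ _).trans ?_
        refine le_trans (add_le_add Finset.card_image_le Finset.card_image_le) ?_
        refine le_trans (add_le_add le_rfl (Finset.card_le_card Finset.sdiff_subset)) hcard)
      (by
        rintro (x | x) hx
        · simpa using hx
        · simp only [Finset.mem_union, Finset.mem_image, reduceCtorEq, and_false, exists_false,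
            false_or, Sum.inr.injEq, exists_eq_right, Finset.mem_sdiff, Finset.mem_insert,
            not_or] at hx ⊢
          exact ⟨⟨hx.1, hx.2.2⟩, by simpa using hx.2.1⟩) ih'
    refine P2.congr (fun e _ => ?_) h1
    refine Prod.ext ?_ ?_
    · rw [mp_fst, mp_fst, mp_fst]
      exact idt_gl ha _
    · rw [mp_snd, mp_snd, mp_snd]
      exact idt_gl ha _

/-- **Join lemma.** -/
theorem P2.join {t : ℝ} (ht : 0 ≤ t) {K : ℕ} (hK : 0 < K) {f : E → V × V} {S1 S2 : Finset E}
    {A1 A2 : Finset V} {W1 W2 : Set V} (hcard : A1.card + A2.card ≤ K)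
    (hW1 : ∀ e ∈ S1, (f e).1 ∈ W1 ∧ (f e).2 ∈ W1) (hW2 : ∀ e ∈ S2, (f e).1 ∈ W2 ∧ (f e).2 ∈ W2)
    (hA1 : ∀ a ∈ A1, a ∈ W1) (hA2 : ∀ a ∈ A2, a ∈ W2)
    (hint : ∀ x, x ∈ W1 → x ∈ W2 → x ∈ A1 ∧ x ∈ A2) (hS : Disjoint S1 S2)
    (hP1 : P2 t K f S1 A1) (hP2 : P2 t K f S2 A2) :
    P2 t K f (S1 ∪ S2) (A1 ∪ A2) := by
  have h1 : P2 t K (dbl f S1) S1 (A1.image Sum.inl) := by
    refine P2.congr (f := mp Sum.inl f) (fun e he => by simp [dbl, he]) ?_
    refine (hP1.map (Sum.inl : V → V ⊕ V) hW1 hA1 Sum.inl_injective.injOn).forget ?_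
    intro x hx
    simpa using hx
  have h2 : P2 t K (dbl f S1) S2 (A2.image Sum.inr) := by
    refine P2.congr (f := mp Sum.inr f)
      (fun e he => by simp [dbl, Finset.disjoint_right.mp hS he]) ?_
    refine (hP2.map (Sum.inr : V → V ⊕ V) hW2 hA2 Sum.inr_injective.injOn).forget ?_
    intro x hx
    simpa using hx
  have h3 : P2 t K (dbl f S1) (S1 ∪ S2)
      (A1.image Sum.inl ∪ A2.image Sum.inr) := by
    refine (P2.disjUnion hK (W1 := Set.range Sum.inl) (W2 := Set.range Sum.inr) ?_ ?_ ?_ ?_ ?_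
      h1 h2).forget ?_
    · intro e he
      simp [dbl, he, mp]
    · intro e he
      simp [dbl, Finset.disjoint_right.mp hS he, mp]
    · intro a ha
      obtain ⟨x, _, rfl⟩ := Finset.mem_image.mp ha
      exact ⟨x, rfl⟩
    · intro a ha
      obtain ⟨x, _, rfl⟩ := Finset.mem_image.mp ha
      exact ⟨x, rfl⟩
    · rw [Set.disjoint_left]
      rintro _ ⟨x, rfl⟩ ⟨y, hy⟩
      cases hy
    · intro x hx
      simpa using hx
  have h4 := P2.join_aux ht hcard h3 (A1 ∩ A2) subset_rfl
  have h5 := h4.map (Sum.elim id id : V ⊕ V → V)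
    (W := {z | (∃ x ∈ W1, z = Sum.inl x) ∨ ∃ x ∈ W2, x ∉ A1 ∩ A2 ∧ z = Sum.inr x}) ?_ ?_ ?_
  · refine P2.congr (fun e he => ?_) (h5.forget ?_)
    · by_cases he1 : e ∈ S1
      · simp [mp, dbl, he1, gl]
      · by_cases hx : (f e).1 ∈ A1 ∩ A2 <;> by_cases hy : (f e).2 ∈ A1 ∩ A2 <;>
          simp [mp, dbl, he1, gl, hx, hy]
    · intro x hx
      simp only [Finset.mem_image, Finset.mem_union, Finset.mem_sdiff, Finset.mem_inter]
      rcases Finset.mem_union.mp hx with h | h
      · exact ⟨Sum.inl x, Or.inl ⟨x, h, rfl⟩, rfl⟩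
      · by_cases h' : x ∈ A1
        · exact ⟨Sum.inl x, Or.inl ⟨x, h', rfl⟩, rfl⟩
        · exact ⟨Sum.inr x, Or.inr ⟨x, ⟨h, fun h'' => h' h''.1⟩, rfl⟩, rfl⟩
  · intro e he
    by_cases he1 : e ∈ S1
    · obtain ⟨a1, a2⟩ := hW1 e he1
      simp only [mp, dbl, if_pos he1, gl]
      exact ⟨Or.inl ⟨_, a1, rfl⟩, Or.inl ⟨_, a2, rfl⟩⟩
    · obtain ⟨a1, a2⟩ := hW2 e ((Finset.mem_union.mp he).resolve_left he1)
      have key : ∀ x ∈ W2, gl (A1 ∩ A2) (Sum.inr x) ∈
          {z : V ⊕ V | (∃ x ∈ W1, z = Sum.inl x) ∨ ∃ x ∈ W2, x ∉ A1 ∩ A2 ∧ z = Sum.inr x} := by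
        intro x hx
        by_cases h : x ∈ A1 ∩ A2
        · simp only [gl, if_pos h]
          exact Or.inl ⟨x, hA1 x (Finset.mem_inter.mp h).1, rfl⟩
        · simp only [gl, if_neg h]
          exact Or.inr ⟨x, hx, h, rfl⟩
      simp only [mp, dbl, if_neg he1]
      exact ⟨key _ a1, key _ a2⟩
  · intro a ha
    simp only [Finset.mem_union, Finset.mem_image, Finset.mem_sdiff] at ha
    rcases ha with ⟨x, hx, rfl⟩ | ⟨x, ⟨hx, hx'⟩, rfl⟩
    · exact Or.inl ⟨x, hA1 x hx, rfl⟩
    · exact Or.inr ⟨x, hA2 x hx, hx', rfl⟩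
  · rintro z hz z' hz' heq
    rcases hz with ⟨x, hx, rfl⟩ | ⟨x, hx, hx', rfl⟩ <;>
      rcases hz' with ⟨y, hy, rfl⟩ | ⟨y, hy, hy', rfl⟩
    · simpa using heq
    · exfalso
      have h6 : x = y := by simpa using heq
      subst h6
      exact hy' (Finset.mem_inter.mpr (hint x hx hy))
    · exfalso
      have h6 : x = y := by simpa using heq
      subst h6
      exact hx' (Finset.mem_inter.mpr (hint x hy hx))
    · simpa using heq

/-- Merge all pieces of a tree decomposition. -/
theorem P2.merge {t : ℝ} (ht : 0 ≤ t) {K : ℕ} (hK : 0 < K) {T : SimpleGraph N} (hT : T.IsAcyclic)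
    {f : E → V × V} (B : N → Finset V) (hB : ∀ v, (T.induce {x | v ∈ B x}).Preconnected)
    (hcard : ∀ x y, (B x).card + (B y).card ≤ K) (n : ℕ) :
    ∀ (U : Finset N), U.card = n + 1 → (T.induce (U : Set N)).Connected →
    ∀ (S : N → Finset E) (W : N → Set V),
      (∀ x ∈ U, P2 t K f (S x) (B x)) →
      (∀ x ∈ U, ∀ e ∈ S x, (f e).1 ∈ W x ∧ (f e).2 ∈ W x) →
      (∀ x ∈ U, ∀ v ∈ B x, v ∈ W x) →
      (∀ x ∈ U, ∀ y ∈ U, x ≠ y → Disjoint (S x) (S y)) →
      (∀ x ∈ U, ∀ y ∈ U, x ≠ y → ∀ v, v ∈ W x → v ∈ W y → v ∈ B x ∧ v ∈ B y) →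
      P2 t K f (U.biUnion S) ∅ := by
  induction n with
  | zero =>
    intro U hU _ S W h1 _ _ _ _
    obtain ⟨x, rfl⟩ := Finset.card_eq_one.mp hU
    rw [Finset.singleton_biUnion]
    exact (h1 x (by simp)).forget (by simp)
  | succ n ih =>
    intro U hU hconn S W h1 h2 h3 h4 h5
    have hnt : Nontrivial (U : Set N) := by
      rw [Set.nontrivial_coe_sort]
      have : 1 < U.card := by omega
      exact Finset.one_lt_card_iff_nontrivial.mp this
    obtain ⟨⟨x, hxU⟩, hx⟩ :=
      hconn.exists_connected_induce_compl_singleton_of_finite_nontrivial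
    have hxU' : x ∈ U := by simpa using hxU
    obtain ⟨⟨y, hyU⟩, hxy⟩ := hconn.preconnected.exists_adj_of_nontrivial ⟨x, hxU⟩
    have hyU' : y ∈ U := by simpa using hyU
    have hxy' : T.Adj x y := hxy
    have hne : x ≠ y := hxy'.ne
    have hconn' : (T.induce ((U.erase x : Finset N) : Set N)).Connected := by
      let φ : ((T.induce (U : Set N)).induce {(⟨x, hxU⟩ : (U : Set N))}ᶜ) →g
          T.induce ((U.erase x : Finset N) : Set N) :=
        { toFun := fun z => ⟨z.1.1, by
            have hz1 := z.1.2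
            have hz2 := z.2
            simp only [Set.mem_compl_iff, Set.mem_singleton_iff] at hz2
            simp only [Finset.coe_erase, Set.mem_sdiff, Set.mem_singleton_iff]
            refine ⟨hz1, fun h => hz2 (Subtype.ext h)⟩⟩
          map_rel' := by
            rintro p q hpq
            exact hpq }
      refine SimpleGraph.Connected.map φ ?_ hx
      rintro ⟨z, hz⟩
      have hz' : z ∈ U ∧ z ≠ x := by simpa [and_comm] using hz
      refine ⟨⟨⟨z, by simpa using hz'.1⟩, ?_⟩, rfl⟩
      simp only [Set.mem_compl_iff, Set.mem_singleton_iff, Subtype.mk.injEq]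
      exact hz'.2
    -- key separation property
    have hkey : ∀ z ∈ U, z ≠ x → ∀ v, v ∈ B x → v ∈ B z → v ∈ B y := by
      intro z hzU hzx v hvx hvz
      have := tree_sep hT hxy' (hB v) hconn'.preconnected (z := z) hvx hvz
        (by simp [hyU', hne.symm]) (by simp [hzU, hzx]) (by simp)
      exact this
    have hun : U.biUnion S = (U.erase x).biUnion (fun z => if z = y then S x ∪ S y else S z) := by
      ext e
      simp only [Finset.mem_biUnion, Finset.mem_erase]
      constructor
      · rintro ⟨z, hz, he⟩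
        by_cases hzx : z = x
        · subst hzx
          exact ⟨y, ⟨hne.symm, hyU'⟩, by simp [he]⟩
        · by_cases hzy : z = y
          · subst hzy
            exact ⟨z, ⟨hzx, hz⟩, by simp [he]⟩
          · exact ⟨z, ⟨hzx, hz⟩, by simp [he, hzy]⟩
      · rintro ⟨z, ⟨hzx, hz⟩, he⟩
        by_cases hzy : z = y
        · subst hzy
          rw [if_pos rfl, Finset.mem_union] at he
          rcases he with he | he
          · exact ⟨x, hxU', he⟩
          · exact ⟨z, hz, he⟩
        · rw [if_neg hzy] at he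
          exact ⟨z, hz, he⟩
    rw [hun]
    refine ih (U.erase x) (by rw [Finset.card_erase_of_mem hxU']; omega) hconn' _
      (fun z => if z = y then W x ∪ W y else W z) ?_ ?_ ?_ ?_ ?_
    · intro z hz
      obtain ⟨hzx, hzU⟩ := Finset.mem_erase.mp hz
      by_cases hzy : z = y
      · subst hzy
        simp only [if_true]
        refine (P2.join ht hK (hcard x z) (h2 x hxU') (h2 z hzU) (h3 x hxU') (h3 z hzU)
          (h5 x hxU' z hzU hne) (h4 x hxU' z hzU hne) (h1 x hxU') (h1 z hzU)).forget ?_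
        exact Finset.subset_union_right
      · simp only [if_neg hzy]
        exact h1 z hzU
    · intro z hz e he
      obtain ⟨hzx, hzU⟩ := Finset.mem_erase.mp hz
      by_cases hzy : z = y
      · subst hzy
        simp only [if_true] at he ⊢
        rcases Finset.mem_union.mp he with he | he
        · exact ⟨Or.inl (h2 x hxU' e he).1, Or.inl (h2 x hxU' e he).2⟩
        · exact ⟨Or.inr (h2 z hzU e he).1, Or.inr (h2 z hzU e he).2⟩
      · simp only [if_neg hzy] at he ⊢
        exact h2 z hzU e he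
    · intro z hz v hv
      obtain ⟨hzx, hzU⟩ := Finset.mem_erase.mp hz
      by_cases hzy : z = y
      · subst hzy
        simp only [if_true]
        exact Or.inr (h3 z hzU v hv)
      · simp only [if_neg hzy]
        exact h3 z hzU v hv
    · intro z hz z' hz' hzz
      obtain ⟨hzx, hzU⟩ := Finset.mem_erase.mp hz
      obtain ⟨hzx', hzU'⟩ := Finset.mem_erase.mp hz'
      by_cases hzy : z = y
      · subst hzy
        simp only [if_true, if_neg hzz.symm]
        rw [Finset.disjoint_union_left]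
        exact ⟨h4 x hxU' z' hzU' hzx'.symm, h4 z hzU z' hzU' hzz⟩
      · by_cases hzy' : z' = y
        · subst hzy'
          simp only [if_true, if_neg hzy]
          rw [Finset.disjoint_union_right]
          exact ⟨h4 z hzU x hxU' hzx, h4 z hzU z' hzU' hzz⟩
        · simp only [if_neg hzy, if_neg hzy']
          exact h4 z hzU z' hzU' hzz
    · intro z hz z' hz' hzz v
      obtain ⟨hzx, hzU⟩ := Finset.mem_erase.mp hz
      obtain ⟨hzx', hzU'⟩ := Finset.mem_erase.mp hz'
      by_cases hzy : z = y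
      · subst hzy
        simp only [if_true, if_neg hzz.symm]
        rintro (hv | hv) hv'
        · obtain ⟨a1, a2⟩ := h5 x hxU' z' hzU' hzx'.symm v hv hv'
          exact ⟨hkey z' hzU' hzx' v a1 a2, a2⟩
        · exact h5 z hzU z' hzU' hzz v hv hv'
      · by_cases hzy' : z' = y
        · subst hzy'
          simp only [if_true, if_neg hzy]
          rintro hv (hv' | hv')
          · obtain ⟨a1, a2⟩ := h5 z hzU x hxU' hzx v hv hv'
            exact ⟨a1, hkey z hzU hzx v a2 a1⟩
          · exact h5 z hzU z' hzU' hzz v hv hv'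
        · simp only [if_neg hzy, if_neg hzy']
          exact h5 z hzU z' hzU' hzz v

/-- Graphs all of whose edges lie in one bag. -/
theorem P2.bag {t : ℝ} (ht : 0 ≤ t) {K : ℕ} {f : E → V × V} (hf : ∀ e, (f e).1 ≠ (f e).2) (B : Finset V)
    (hB : B.card + 2 ≤ K) (S : Finset E) (hS : ∀ e ∈ S, (f e).1 ∈ B ∧ (f e).2 ∈ B) :
    P2 t K f S B := by
  induction S using Finset.induction_on with
  | empty => exact P2_empty _ _ _ _
  | insert e S he ih =>
    have ih' := ih fun e' he' => hS e' (Finset.mem_insert_of_mem he')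
    have hends := hS e (Finset.mem_insert_self e S)
    have hc : ({(f e).1, (f e).2} : Finset V).card ≤ 2 := Finset.card_le_two
    have := P2.join ht (K := K) (by omega) (f := f) (S1 := {e}) (S2 := S)
      (A1 := {(f e).1, (f e).2}) (A2 := B) (W1 := {(f e).1, (f e).2}) (W2 := (B : Set V))
      (by omega) ?_ ?_ ?_ ?_ ?_ ?_ (P2_single _ K f e (hf e) _) ih'
    · rw [Finset.insert_eq]
      exact this.forget Finset.subset_union_right
    · intro e' he'
      rw [Finset.mem_singleton] at he'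
      subst he'
      simp
    · intro e' he'
      exact hS e' (Finset.mem_insert_of_mem he')
    · intro a ha
      simpa using ha
    · intro a ha
      exact ha
    · intro x hx hx'
      exact ⟨by simpa using hx, hx'⟩
    · simpa using he

/-- **Main bound, exponential form.** -/
theorem main_bound2 {t : ℝ} (ht : 0 ≤ t) {k : ℕ} (hk : 1 ≤ k) [Fintype N] {T : SimpleGraph N}
    (hT : T.IsTree) (B : N → Finset V) (hB : ∀ v, (T.induce {x | v ∈ B x}).Preconnected)
    (hcard : ∀ x, (B x).card ≤ k + 1) {f : E → V × V} (hf : ∀ e, (f e).1 ≠ (f e).2)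
    (hedge : ∀ e, ∃ x, (f e).1 ∈ B x ∧ (f e).2 ∈ B x) :
    ∃ L : List (E → ZMod 2), Submodule.span (ZMod 2) {c | c ∈ L} = Z f Finset.univ ∧
      ∀ r, (1 + t) ^ cnt L r ≤ Fintype.card E * Real.exp (t * (2 * ((k : ℝ) + 1))) := by
  choose asg hasg using hedge
  have hne : Nonempty N := hT.connected.nonempty
  have hcardN : 0 < Fintype.card N := Fintype.card_pos
  have hconn : (T.induce ((Finset.univ : Finset N) : Set N)).Connected := by
    let φ : T →g T.induce ((Finset.univ : Finset N) : Set N) :=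
      { toFun := fun z => ⟨z, by simp⟩
        map_rel' := fun h => h }
    refine SimpleGraph.Connected.map φ ?_ hT.connected
    rintro ⟨z, hz⟩
    exact ⟨z, rfl⟩
  have h := P2.merge ht (K := 2 * (k + 1)) (by omega) hT.isAcyclic (f := f) B hB
    (fun x y => by have := hcard x; have := hcard y; omega) (Fintype.card N - 1) Finset.univ
    (by rw [Finset.card_univ]; omega) hconn
    (fun x => Finset.univ.filter (fun e => asg e = x)) (fun x => (B x : Set V))
    (fun x _ => P2.bag ht hf (B x) (by have := hcard x; omega) _ (fun e he => by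
      rw [Finset.mem_filter] at he
      rw [← he.2]
      exact hasg e))
    (fun x _ e he => by
      rw [Finset.mem_filter] at he
      rw [← he.2]
      exact hasg e)
    (fun x _ v hv => hv)
    (fun x _ y _ hxy => by
      rw [Finset.disjoint_left]
      intro e h1 h2
      rw [Finset.mem_filter] at h1 h2
      exact hxy (h1.2.symm.trans h2.2))
    (fun x _ y _ _ v hv hv' => ⟨hv, hv'⟩)
  have huniv : (Finset.univ : Finset N).biUnion
      (fun x => Finset.univ.filter (fun e => asg e = x)) = (Finset.univ : Finset E) := by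
    ext e
    simp
  rw [huniv] at h
  obtain ⟨Φ, iΦ, lam, F, hh, h1, h2, h3, h4, h5, h6, h7⟩ := h
  obtain ⟨L, l1, l2⟩ := h7 (fun _ => 1) (fun _ => zero_le_one)
  refine ⟨L, l1, fun r => ?_⟩
  have h8 : (1 + t) ^ cnt L r ≤ ∑ r, (1 : ℝ) * (1 + t) ^ cnt L r := by
    have := Finset.single_le_sum (f := fun r => (1 : ℝ) * (1 + t) ^ cnt L r)
      (fun r _ => by positivity) (Finset.mem_univ r)
    simpa using this
  refine h8.trans (l2.trans ?_)
  have h9 : ∀ r ∈ (Finset.univ : Finset E), (1 : ℝ) * Real.exp (t * hh r) ≤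
      Real.exp (t * (2 * ((k : ℝ) + 1))) := by
    intro r hr
    rw [one_mul]
    refine Real.exp_le_exp.mpr (mul_le_mul_of_nonneg_left ?_ ht)
    have h10 := h6 r hr
    have h11 : 0 ≤ ∑ φ, lam φ * ind r (F φ) :=
      Finset.sum_nonneg fun φ _ => mul_nonneg (h1 φ) (ind_nonneg _ _)
    have h12 : hh r ≤ ((2 * (k + 1) : ℕ) : ℝ) := by linarith
    refine h12.trans (le_of_eq ?_)
    push_cast
    ring
  refine (Finset.sum_le_sum h9).trans (le_of_eq ?_)
  rw [Finset.sum_const, Finset.card_univ, nsmul_eq_mul]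

end Pool.Agent.U389.BN
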