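import Pool.Agent.U389.BN.P

/-!
# Disjoint unions
-/

namespace Pool.Agent.U389.BN

open scoped Classical

variable {V E : Type*}

/-- In a graph whose edges are in `S1` (with ends in `W1`) or avoid `W1`, connections from `W1`
use edges of `S1` only. -/
theorem conn_part {f : E → V × V} {S1 : Finset E} {W1 : Set V}
    (hW1 : ∀ e ∈ S1, (f e).1 ∈ W1 ∧ (f e).2 ∈ W1) {J : Finset E}
    (hJ : ∀ e ∈ J, e ∈ S1 ∨ ((f e).1 ∉ W1 ∧ (f e).2 ∉ W1)) {x y : V} (hx : x ∈ W1)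
    (h : Conn f J x y) : Conn f (J ∩ S1) x y ∧ y ∈ W1 := by
  have hy : ∀ z, Conn f J x z → z ∈ W1 := by
    intro z hz
    refine (Conn.invariant (fun z => z ∈ W1) (fun e he => ?_) hz).mp hx
    rcases hJ e he with h1 | h1
    · exact ⟨fun _ => (hW1 e h1).2, fun _ => (hW1 e h1).1⟩
    · exact ⟨fun h2 => absurd h2 h1.1, fun h2 => absurd h2 h1.2⟩
  refine ⟨h.restrict ?_, hy y h⟩
  intro e he hc
  rw [Finset.mem_inter]
  refine ⟨he, ?_⟩
  rcases hJ e he with h1 | h1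
  · exact h1
  · exact absurd (hy _ hc) h1.1

theorem Acyc.union {f : E → V × V} {F1 F2 : Finset E} {W1 W2 : Set V}
    (hW1 : ∀ e ∈ F1, (f e).1 ∈ W1 ∧ (f e).2 ∈ W1) (hW2 : ∀ e ∈ F2, (f e).1 ∈ W2 ∧ (f e).2 ∈ W2)
    (hd : Disjoint W1 W2) (h1 : Acyc f F1) (h2 : Acyc f F2) : Acyc f (F1 ∪ F2) := by
  have key : ∀ {F1 F2 : Finset E} {W1 W2 : Set V}
    (_ : ∀ e ∈ F1, (f e).1 ∈ W1 ∧ (f e).2 ∈ W1) (_ : ∀ e ∈ F2, (f e).1 ∈ W2 ∧ (f e).2 ∈ W2)
    (_ : Disjoint W1 W2) (_ : Acyc f F1), ∀ r ∈ F1,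
      ¬ Conn f ((F1 ∪ F2).erase r) (f r).1 (f r).2 := by
    intro F1 F2 W1 W2 hW1 hW2 hd h1 r hr hc
    have h3 := (conn_part hW1 (J := (F1 ∪ F2).erase r) (fun e he => ?_) (hW1 r hr).1 hc).1
    · refine h1 r hr (h3.mono ?_)
      intro e he
      rw [Finset.mem_inter, Finset.mem_erase] at he
      exact Finset.mem_erase.mpr ⟨he.1.1, he.2⟩
    · rcases Finset.mem_union.mp (Finset.mem_of_mem_erase he) with h4 | h4
      · exact Or.inl h4
      · exact Or.inr ⟨fun h5 => Set.disjoint_left.mp hd h5 (hW2 e h4).1,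
          fun h5 => Set.disjoint_left.mp hd h5 (hW2 e h4).2⟩
  intro r hr
  rcases Finset.mem_union.mp hr with h | h
  · exact key hW1 hW2 hd h1 r h
  · rw [Finset.union_comm]
    exact key hW2 hW1 hd.symm h2 r h

theorem load_append (L1 L2 : List (E → ZMod 2)) (r : E) :
    load (L1 ++ L2) r = load L1 r + load L2 r := by
  simp [load]

theorem load_cons (c : E → ZMod 2) (L : List (E → ZMod 2)) (r : E) :
    load (c :: L) r = (if c r = 0 then (0 : ℝ) else 1) + load L r := by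
  simp [load]

theorem load_eq_zero {L : List (E → ZMod 2)} {r : E} (h : ∀ c ∈ L, c r = 0) : load L r = 0 := by
  unfold load
  apply List.sum_eq_zero
  intro x hx
  rw [List.mem_map] at hx
  obtain ⟨c, hc, rfl⟩ := hx
  rw [if_pos (h c hc)]

variable [Fintype E]

/-- The part of the rounding property concerning one side of a disjoint union. -/
theorem RP.side {f : E → V × V} {S1 S : Finset E} {A1 A : Finset V} {W1 : Set V}
    (hW1 : ∀ e ∈ S1, (f e).1 ∈ W1 ∧ (f e).2 ∈ W1)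
    (hS : ∀ e ∈ S, e ∈ S1 ∨ ((f e).1 ∉ W1 ∧ (f e).2 ∉ W1)) (hS1 : S1 ⊆ S)
    (hA1 : ∀ a ∈ A, (a ∈ A1 ↔ a ∈ W1)) {R : ℝ} {h1 h : E → ℝ}
    (hh : ∀ r ∈ S1, h r = h1 r) (hRP : RP f S1 A1 R h1)
    {I Ω : Type} [Fintype I] [Fintype Ω] (D : I → V × V) (w : I → Ω → ℝ)
    (J : I → Ω → Finset E) (C : ℝ)
    (hD : ∀ i, (D i).1 ∈ A ∧ (D i).2 ∈ A)
    (hw0 : ∀ i ω, 0 ≤ w i ω) (hw1 : ∀ i, ∑ ω, w i ω = 1)
    (hJ : ∀ i ω, w i ω ≠ 0 → J i ω ⊆ S ∧ Conn f (J i ω) (D i).1 (D i).2)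
    (hC : ∀ r ∈ S, (∑ i, ∑ ω, w i ω * ind r (J i ω)) + R * h r ≤ C) :
    ∃ (Q : I → Finset E) (L : List (E → ZMod 2)),
      (∀ i, Q i ⊆ S1) ∧ (∀ i, (D i).1 ∈ W1 → Conn f (Q i) (D i).1 (D i).2) ∧
      Submodule.span (ZMod 2) {c | c ∈ L} = Z f S1 ∧
      ∀ r ∈ S1, (∑ i, ind r (Q i)) + load L r ≤ C := by
  have hconn : ∀ i ω, w i ω ≠ 0 → (D i).1 ∈ W1 →
      Conn f (J i ω ∩ S1) (D i).1 (D i).2 ∧ (D i).2 ∈ W1 := by
    intro i ω hω hi
    exact conn_part hW1 (fun e he => hS e ((hJ i ω hω).1 he)) hi (hJ i ω hω).2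
  have g1 : ∀ i : {i // (D i).1 ∈ W1}, (D i).1 ∈ A1 ∧ (D i).2 ∈ A1 := by
    rintro ⟨i, hi⟩
    refine ⟨(hA1 _ (hD i).1).mpr hi, ?_⟩
    obtain ⟨ω, hω⟩ := exists_ne_zero hw1 i
    exact (hA1 _ (hD i).2).mpr (hconn i ω hω hi).2
  have g2 : ∀ (i : {i // (D i).1 ∈ W1}) ω, w i ω ≠ 0 → J i ω ∩ S1 ⊆ S1 ∧
      Conn f (J i ω ∩ S1) (D i).1 (D i).2 := by
    rintro ⟨i, hi⟩ ω hω
    exact ⟨Finset.inter_subset_right, (hconn i ω hω hi).1⟩
  have g3 : ∀ r ∈ S1, (∑ i : {i // (D i).1 ∈ W1}, ∑ ω, w i ω * ind r (J i ω ∩ S1)) +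
      R * h1 r ≤ C := by
    intro r hr
    refine le_trans ?_ (hC r (hS1 hr))
    rw [hh r hr]
    refine add_le_add ?_ le_rfl
    rw [← Fintype.sum_subtype_add_sum_subtype (fun i => (D i).1 ∈ W1)
      (fun i => ∑ ω, w i ω * ind r (J i ω))]
    have h0 : 0 ≤ ∑ i : {i // ¬ (D i).1 ∈ W1}, ∑ ω, w i ω * ind r (J i ω) :=
      Finset.sum_nonneg fun i _ => Finset.sum_nonneg fun ω _ =>
        mul_nonneg (hw0 i ω) (ind_nonneg _ _)
    refine le_trans ?_ (le_add_of_nonneg_right h0)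
    refine Finset.sum_le_sum fun i _ => Finset.sum_le_sum fun ω _ => ?_
    exact mul_le_mul_of_nonneg_left (ind_mono Finset.inter_subset_left r) (hw0 i ω)
  obtain ⟨Q, L, hQ, hL, hload⟩ := hRP {i // (D i).1 ∈ W1} Ω (fun i => D i) (fun i ω => w i ω)
    (fun i ω => J i ω ∩ S1) C g1 (fun i ω => hw0 i ω) (fun i => hw1 i) g2 g3
  refine ⟨fun i => if hi : (D i).1 ∈ W1 then Q ⟨i, hi⟩ else ∅, L, ?_, ?_, hL, ?_⟩
  · intro i
    dsimp only
    split_ifs with hi
    · exact (hQ ⟨i, hi⟩).1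
    · simp
  · intro i hi
    dsimp only
    rw [dif_pos hi]
    exact (hQ ⟨i, hi⟩).2
  · intro r hr
    refine le_trans (add_le_add (le_of_eq ?_) le_rfl) (hload r hr)
    rw [← Fintype.sum_subtype_add_sum_subtype (fun i => (D i).1 ∈ W1)]
    have h0 : ∑ i : {i // ¬ (D i).1 ∈ W1},
        ind r (if hi : (D i).1 ∈ W1 then Q ⟨i, hi⟩ else ∅) = 0 := by
      refine Finset.sum_eq_zero fun i _ => ?_
      rw [dif_neg i.2]
      exact ind_not_mem (by simp)
    rw [h0, add_zero]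
    refine Finset.sum_congr rfl fun i _ => ?_
    dsimp only
    rw [dif_pos i.2]

theorem P.disjUnion {K : ℕ} (hK : 0 < K) {R : ℝ} {f : E → V × V} {S1 S2 : Finset E}
    {A1 A2 : Finset V} {W1 W2 : Set V}
    (hW1 : ∀ e ∈ S1, (f e).1 ∈ W1 ∧ (f e).2 ∈ W1) (hW2 : ∀ e ∈ S2, (f e).1 ∈ W2 ∧ (f e).2 ∈ W2)
    (hA1 : ∀ a ∈ A1, a ∈ W1) (hA2 : ∀ a ∈ A2, a ∈ W2) (hd : Disjoint W1 W2)
    (hP1 : P K R f S1 A1) (hP2 : P K R f S2 A2) : P K R f (S1 ∪ S2) (A1 ∪ A2) := by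
  obtain ⟨Φ1, i1, lam1, F1, h1, a1, a2, a3, a4, a5, a6, a7⟩ := hP1
  obtain ⟨Φ2, i2, lam2, F2, h2, b1, b2, b3, b4, b5, b6, b7⟩ := hP2
  have hKpos : (0 : ℝ) < K := by exact_mod_cast hK
  have hS : Disjoint S1 S2 := by
    rw [Finset.disjoint_left]
    intro e h1 h2
    exact Set.disjoint_left.mp hd (hW1 e h1).1 (hW2 e h2).1
  have hS1 : ∀ e ∈ S1 ∪ S2, e ∈ S1 ∨ ((f e).1 ∉ W1 ∧ (f e).2 ∉ W1) := by
    intro e he
    rcases Finset.mem_union.mp he with h | h
    · exact Or.inl h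
    · exact Or.inr ⟨fun h5 => Set.disjoint_left.mp hd h5 (hW2 e h).1,
        fun h5 => Set.disjoint_left.mp hd h5 (hW2 e h).2⟩
  have hS2 : ∀ e ∈ S1 ∪ S2, e ∈ S2 ∨ ((f e).1 ∉ W2 ∧ (f e).2 ∉ W2) := by
    intro e he
    rcases Finset.mem_union.mp he with h | h
    · exact Or.inr ⟨fun h5 => Set.disjoint_left.mp hd (hW1 e h).1 h5,
        fun h5 => Set.disjoint_left.mp hd (hW1 e h).2 h5⟩
    · exact Or.inl h
  have hA1' : ∀ a ∈ A1 ∪ A2, (a ∈ A1 ↔ a ∈ W1) := by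
    intro a ha
    refine ⟨hA1 a, fun h => ?_⟩
    rcases Finset.mem_union.mp ha with h' | h'
    · exact h'
    · exact absurd (hA2 a h') (fun h5 => Set.disjoint_left.mp hd h h5)
  have hA2' : ∀ a ∈ A1 ∪ A2, (a ∈ A2 ↔ a ∈ W2) := by
    intro a ha
    refine ⟨hA2 a, fun h => ?_⟩
    rcases Finset.mem_union.mp ha with h' | h'
    · exact absurd h (fun h5 => Set.disjoint_left.mp hd (hA1 a h') h5)
    · exact h'
  refine ⟨Φ1 × Φ2, inferInstance, fun φ => lam1 φ.1 * lam2 φ.2 / K, fun φ => F1 φ.1 ∪ F2 φ.2,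
    fun r => if r ∈ S1 then h1 r else h2 r, ?_, ?_, ?_, ?_, ?_, ?_, ?_⟩
  · intro φ
    exact div_nonneg (mul_nonneg (a1 _) (b1 _)) hKpos.le
  · rw [Fintype.sum_prod_type]
    simp only [← Finset.sum_div, ← Finset.mul_sum, b2]
    simp only [← Finset.sum_mul, a2]
    field_simp
  · intro φ
    exact Finset.union_subset_union (a3 _) (b3 _)
  · intro φ
    exact Acyc.union (fun e he => hW1 e (a3 _ he)) (fun e he => hW2 e (b3 _ he)) hd (a4 _) (b4 _)
  · intro φ a ha b hb hab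
    rcases Finset.mem_union.mp ha with h | h
    · obtain ⟨h3, h4⟩ := conn_part hW1 hS1 (hA1 a h) hab
      have hbA : b ∈ A1 := (hA1' b hb).mpr h4
      exact (a5 φ.1 a h b hbA (h3.mono Finset.inter_subset_right)).mono Finset.subset_union_left
    · obtain ⟨h3, h4⟩ := conn_part hW2 hS2 (hA2 a h) hab
      have hbA : b ∈ A2 := (hA2' b hb).mpr h4
      exact (b5 φ.2 a h b hbA (h3.mono Finset.inter_subset_right)).mono Finset.subset_union_right
  · intro r hr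
    rw [Fintype.sum_prod_type]
    dsimp only
    by_cases hr1 : r ∈ S1
    · have hr2 : r ∉ S2 := Finset.disjoint_left.mp hS hr1
      rw [if_pos hr1]
      refine le_trans (le_of_eq ?_) (a6 r hr1)
      congr 1
      refine Finset.sum_congr rfl fun φ1 _ => ?_
      have : ∀ φ2, lam1 φ1 * lam2 φ2 / K * ind r (F1 φ1 ∪ F2 φ2) =
          lam2 φ2 * (lam1 φ1 * ind r (F1 φ1) / K) := by
        intro φ2
        have h3 : ind r (F1 φ1 ∪ F2 φ2) = ind r (F1 φ1) := by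
          have h4 : r ∉ F2 φ2 := fun h => hr2 (b3 _ h)
          unfold ind
          simp [h4]
        rw [h3]; ring
      simp only [this]
      rw [← Finset.sum_mul, b2]
      field_simp
    · have hr2 : r ∈ S2 := (Finset.mem_union.mp hr).resolve_left hr1
      rw [if_neg hr1]
      refine le_trans (le_of_eq ?_) (b6 r hr2)
      congr 1
      rw [Finset.sum_comm]
      refine Finset.sum_congr rfl fun φ2 _ => ?_
      have : ∀ φ1, lam1 φ1 * lam2 φ2 / K * ind r (F1 φ1 ∪ F2 φ2) =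
          lam1 φ1 * (lam2 φ2 * ind r (F2 φ2) / K) := by
        intro φ1
        have h3 : ind r (F1 φ1 ∪ F2 φ2) = ind r (F2 φ2) := by
          have h4 : r ∉ F1 φ1 := fun h => hr1 (a3 _ h)
          unfold ind
          simp [h4]
        rw [h3]; ring
      simp only [this]
      rw [← Finset.sum_mul, a2]
      field_simp
  · intro I Ω _ _ D w J C hD hw0 hw1 hJ hC
    obtain ⟨Q1, L1, q1, q2, q3, q4⟩ := RP.side hW1 hS1 Finset.subset_union_left hA1'
      (h := fun r => if r ∈ S1 then h1 r else h2 r) (fun r hr => if_pos hr) a7 D w J C hD hw0 hw1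
      hJ hC
    obtain ⟨Q2, L2, p1, p2, p3, p4⟩ := RP.side hW2 hS2 Finset.subset_union_right hA2'
      (h := fun r => if r ∈ S1 then h1 r else h2 r)
      (fun r hr => if_neg (fun h => Finset.disjoint_left.mp hS h hr)) b7 D w J C hD hw0 hw1
      hJ hC
    refine ⟨fun i => Q1 i ∪ Q2 i, L1 ++ L2, ?_, ?_, ?_⟩
    · intro i
      refine ⟨Finset.union_subset_union (q1 i) (p1 i), ?_⟩
      rcases Finset.mem_union.mp (hD i).1 with h | h
      · exact (q2 i (hA1 _ h)).mono Finset.subset_union_left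
      · exact (p2 i (hA2 _ h)).mono Finset.subset_union_right
    · rw [Z_union hW1 hW2 hd, ← q3, ← p3, ← Submodule.span_union]
      congr 1
      ext c
      simp
    · intro r hr
      rw [load_append]
      by_cases hr1 : r ∈ S1
      · have hr2 : r ∉ S2 := Finset.disjoint_left.mp hS hr1
        refine le_trans (le_of_eq ?_) (q4 r hr1)
        have h3 : load L2 r = 0 := by
          refine load_eq_zero fun c hc => ?_
          have : c ∈ Z f S2 := by
            rw [← p3]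
            exact Submodule.subset_span hc
          exact this.1 r hr2
        rw [h3, add_zero]
        congr 1
        refine Finset.sum_congr rfl fun i _ => ?_
        have h4 : r ∉ Q2 i := fun h => hr2 (p1 i h)
        unfold ind
        simp [h4]
      · have hr2 : r ∈ S2 := (Finset.mem_union.mp hr).resolve_left hr1
        refine le_trans (le_of_eq ?_) (p4 r hr2)
        have h3 : load L1 r = 0 := by
          refine load_eq_zero fun c hc => ?_
          have : c ∈ Z f S1 := by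
            rw [← q3]
            exact Submodule.subset_span hc
          exact this.1 r hr1
        rw [h3, zero_add]
        congr 1
        refine Finset.sum_congr rfl fun i _ => ?_
        have h4 : r ∉ Q1 i := fun h => hr1 (q1 i h)
        unfold ind
        simp [h4]

end Pool.Agent.U389.BN
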